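import Mathlib
import Pool.Agent.Helper35.AG.Ent
import Pool.Agent.Helper35.AG.Arcs

/-!
# Independent powers: definitions
-/

set_option autoImplicit false
open MeasureTheory Filter Topology ProbabilityTheory Helper35.AG
open scoped ENNReal

namespace Helper75.IP

/-- entropy of `ρ` on the shifted dyadic cells of length `2 ^ (-K)`, averaged over all shifts -/
noncomputable def en (K : ℕ) (ρ : Measure Tor) : ℝ :=
  ∫ y, ∑ i ∈ Finset.range (2 ^ K), Real.negMulLog (ρ.real {x | idx K (x + y) = i})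
    ∂(volume : Measure Tor)

/-- convolution powers -/
noncomputable def cp (μ : Measure Tor) : ℕ → Measure Tor
  | 0 => Measure.dirac 0
  | n + 1 => conv μ (cp μ n)

instance cp_prob (μ : Measure Tor) [IsProbabilityMeasure μ] (n : ℕ) :
    IsProbabilityMeasure (cp μ n) := by
  induction n with
  | zero => unfold cp; infer_instance
  | succ n ih => unfold cp; infer_instance

/-- `κ` is the limit kernel of the multiplications by `2 ^ k` along `U`, for the measure `α` -/
def IsLim (U : Ultrafilter ℕ) (α : Measure Tor) (κ : Kernel Tor Tor) : Prop :=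
  ∀ (j : ℤ) (a : Tor → ℂ), Integrable a α →
    Tendsto (fun k : ℕ => ∫ w, a w * fourier j ((2 ^ k : ℕ) • w) ∂α) U
      (𝓝 (∫ w, a w * ∫ y, (fourier j y : ℂ) ∂(κ w) ∂α))

/-- `μ` is rigid along the integers -/
def Rigid (μ : Measure Tor) : Prop :=
  ∀ ε : ℝ, 0 < ε → ∃ n : ℤ, n ≠ 0 ∧ ∫ x, ‖(fourier n x : ℂ) - 1‖ ^ 2 ∂μ < ε

/-- extreme among the invariant probability measures -/
def Ext (μ : Measure Tor) : Prop :=
  ∀ (μ' : Measure Tor) (c : ℝ≥0∞), IsProbabilityMeasure μ' → Inv μ' → c ≠ ⊤ →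
    μ' ≤ c • μ → μ' = μ

end Helper75.IP
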