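import Mathlib

/-!
# The log sum inequality in integrated form
-/

set_option autoImplicit false
open MeasureTheory Filter Topology Real

namespace Helper75.IP

theorem abs_nml_le {x : ℝ} (h0 : 0 ≤ x) (h1 : x ≤ 1) : |negMulLog x| ≤ 1 := by
  rw [abs_of_nonneg (negMulLog_nonneg h0 h1)]
  have := negMulLog_le_one_sub_self h0
  linarith

/-- tangent line -/
theorem nml_le {x a : ℝ} (hx : 0 ≤ x) (ha : 0 < a) : negMulLog x ≤ -(x * log a) + a - x := by
  rcases hx.eq_or_lt with h | h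
  · rw [← h]
    simp [ha.le]
  · have h1 := log_le_sub_one_of_pos (div_pos ha h)
    rw [log_div ha.ne' h.ne'] at h1
    have h2 := mul_le_mul_of_nonneg_left h1 h.le
    rw [mul_sub, mul_sub, mul_div_cancel₀ _ h.ne'] at h2
    unfold negMulLog
    linarith

variable {X Y : Type*} [MeasurableSpace X] [MeasurableSpace Y] {σ : Measure X} {τ : Measure Y}
  [IsProbabilityMeasure σ] [IsProbabilityMeasure τ]

theorem integrable_bdd {f : X → ℝ} (hf : Measurable f) {c : ℝ} (h : ∀ x, |f x| ≤ c) :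
    Integrable f σ :=
  Integrable.of_bound hf.aestronglyMeasurable c (Eventually.of_forall fun x => by
    rw [Real.norm_eq_abs]
    exact h x)

theorem integrable_unit {f : X → ℝ} (hf : Measurable f) (h0 : ∀ x, 0 ≤ f x) (h1 : ∀ x, f x ≤ 1) :
    Integrable f σ := integrable_bdd hf (c := 1) fun x => by
  rw [abs_of_nonneg (h0 x)]
  exact h1 x

theorem integral_unit {f : X → ℝ} (hf : Measurable f) (h0 : ∀ x, 0 ≤ f x) (h1 : ∀ x, f x ≤ 1) :
    0 ≤ ∫ x, f x ∂σ ∧ ∫ x, f x ∂σ ≤ 1 := by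
  refine ⟨integral_nonneg h0, ?_⟩
  have := integral_mono (integrable_unit (σ := σ) hf h0 h1) (integrable_const (1 : ℝ)) h1
  simpa using this

theorem integrable_nml {f : X → ℝ} (hf : Measurable f) (h0 : ∀ x, 0 ≤ f x)
    (h1 : ∀ x, f x ≤ 1) : Integrable (fun x => negMulLog (f x)) σ :=
  integrable_bdd (continuous_negMulLog.measurable.comp hf) (c := 1)
    fun x => abs_nml_le (h0 x) (h1 x)

/-- Jensen -/
theorem jensen {f : X → ℝ} (hf : Measurable f) (h0 : ∀ x, 0 ≤ f x) (h1 : ∀ x, f x ≤ 1) :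
    ∫ x, negMulLog (f x) ∂σ ≤ negMulLog (∫ x, f x ∂σ) := by
  rcases (integral_unit (σ := σ) hf h0 h1).1.eq_or_lt with h | h
  · have h2 : f =ᵐ[σ] 0 := (integral_eq_zero_iff_of_nonneg h0 (integrable_unit hf h0 h1)).1 h.symm
    have h3 : (fun x => negMulLog (f x)) =ᵐ[σ] 0 := by
      filter_upwards [h2] with x hx
      rw [hx]
      simp
    rw [← h, integral_congr_ae h3]
    simp
  · have h2 := integral_mono (μ := σ) (integrable_nml hf h0 h1)
      (g := fun x => -(f x * log (∫ x, f x ∂σ)) + (∫ x, f x ∂σ) - f x)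
      ((((integrable_unit hf h0 h1).mul_const _).neg.add (integrable_const _)).sub
        (integrable_unit hf h0 h1)) fun x => nml_le (h0 x) h
    refine h2.trans (le_of_eq ?_)
    have i1 : Integrable (fun x => -(f x * log (∫ x, f x ∂σ))) σ :=
      ((integrable_unit hf h0 h1).mul_const _).neg
    have i2 : Integrable (fun x => -(f x * log (∫ x, f x ∂σ)) + (∫ x, f x ∂σ)) σ :=
      i1.add (integrable_const _)
    rw [integral_sub i2 (integrable_unit hf h0 h1), integral_add i1 (integrable_const _),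
      integral_neg, integral_mul_const]
    unfold negMulLog
    simp

theorem prod_log {f : X × Y → ℝ} (hf : Measurable f) (h0 : ∀ p, 0 ≤ f p) (h1 : ∀ p, f p ≤ 1) :
    Integrable (fun p : X × Y => f p * log (∫ x, f (x, p.2) ∂σ)) (σ.prod τ) ∧
    ∫ p, f p * log (∫ x, f (x, p.2) ∂σ) ∂(σ.prod τ) =
      -∫ y, negMulLog (∫ x, f (x, y) ∂σ) ∂τ := by
  have hF : Measurable fun y => ∫ x, f (x, y) ∂σ :=
    (hf.stronglyMeasurable.integral_prod_left').measurable
  have hs : ∀ y, Measurable fun x => f (x, y) := fun y => hf.comp (by fun_prop)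
  have hm : Measurable fun p : X × Y => f p * log (∫ x, f (x, p.2) ∂σ) :=
    hf.mul (Real.measurable_log.comp (hF.comp measurable_snd))
  have hu := fun y => integral_unit (σ := σ) (hs y) (fun x => h0 _) (fun x => h1 _)
  have hi : Integrable (fun p : X × Y => f p * log (∫ x, f (x, p.2) ∂σ)) (σ.prod τ) := by
    rw [integrable_prod_iff' hm.aestronglyMeasurable]
    refine ⟨Eventually.of_forall fun y => ?_, ?_⟩
    · have h5 : Integrable (fun x => f (x, y) * log (∫ x', f (x', y) ∂σ)) σ :=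
        (integrable_unit (hs y) (fun x => h0 _) (fun x => h1 _)).mul_const _
      exact h5
    have e : (fun y => ∫ x, ‖f (x, y) * log (∫ x, f (x, y) ∂σ)‖ ∂σ) =
        fun y => |negMulLog (∫ x, f (x, y) ∂σ)| := by
      funext y
      have e1 : ∀ x, ‖f (x, y) * log (∫ x, f (x, y) ∂σ)‖ =
          f (x, y) * |log (∫ x, f (x, y) ∂σ)| := by
        intro x
        rw [norm_mul, Real.norm_eq_abs, Real.norm_eq_abs, abs_of_nonneg (h0 _)]
      simp only [e1]
      rw [integral_mul_const]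
      unfold negMulLog
      rw [abs_mul, abs_neg, abs_of_nonneg (hu y).1]
    rw [e]
    exact (integrable_bdd (continuous_negMulLog.measurable.comp hF) (c := 1)
      fun y => abs_nml_le (hu y).1 (hu y).2).abs
  refine ⟨hi, ?_⟩
  rw [integral_prod_symm _ hi, ← integral_neg]
  refine integral_congr_ae (Eventually.of_forall fun y => ?_)
  show ∫ x, f (x, y) * log (∫ x, f (x, y) ∂σ) ∂σ = -negMulLog (∫ x, f (x, y) ∂σ)
  rw [integral_mul_const]
  unfold negMulLog
  ring

theorem ae_zero {f : X × Y → ℝ} (hf : Measurable f) (h0 : ∀ p, 0 ≤ f p) (h1 : ∀ p, f p ≤ 1) :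
    ∀ᵐ p ∂(σ.prod τ), (∫ x, f (x, p.2) ∂σ) = 0 → f p = 0 := by
  have hF : Measurable fun y => ∫ x, f (x, y) ∂σ :=
    (hf.stronglyMeasurable.integral_prod_left').measurable
  have hs : ∀ y, Measurable fun x => f (x, y) := fun y => hf.comp (by fun_prop)
  have hm : MeasurableSet {p : X × Y | (∫ x, f (x, p.2) ∂σ) = 0 → f p = 0} := by
    have e : {p : X × Y | (∫ x, f (x, p.2) ∂σ) = 0 → f p = 0} =
        {p : X × Y | (∫ x, f (x, p.2) ∂σ) = 0}ᶜ ∪ {p | f p = 0} := by
      ext p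
      show ((∫ x, f (x, p.2) ∂σ) = 0 → f p = 0) ↔ (¬ (∫ x, f (x, p.2) ∂σ) = 0) ∨ f p = 0
      tauto
    rw [e]
    exact ((hF.comp measurable_snd) (measurableSet_singleton 0)).compl.union
      (hf (measurableSet_singleton 0))
  rw [← Measure.prod_swap, ae_map_iff measurable_swap.aemeasurable hm]
  have hm' : MeasurableSet {p : Y × X | (∫ x, f (x, (Prod.swap p).2) ∂σ) = 0 →
      f (Prod.swap p) = 0} := measurable_swap hm
  rw [Measure.ae_prod_iff_ae_ae hm']
  refine Eventually.of_forall fun y => ?_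
  by_cases h : (∫ x, f (x, y) ∂σ) = 0
  · have h2 := (integral_eq_zero_iff_of_nonneg (μ := σ) (f := fun x => f (x, y))
      (fun x => h0 _) (integrable_unit (hs y) (fun x => h0 _) (fun x => h1 _))).1 h
    filter_upwards [h2] with x hx _
    exact hx
  · exact Eventually.of_forall fun x hx => absurd hx h

/-- **The log sum inequality.** -/
theorem gap {f : X × Y → ℝ} (hf : Measurable f) (h0 : ∀ p, 0 ≤ f p) (h1 : ∀ p, f p ≤ 1) :
    ∫ p, negMulLog (f p) ∂(σ.prod τ) + negMulLog (∫ p, f p ∂(σ.prod τ)) ≤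
      ∫ y, negMulLog (∫ x, f (x, y) ∂σ) ∂τ + ∫ x, negMulLog (∫ y, f (x, y) ∂τ) ∂σ := by
  have hfi : Integrable f (σ.prod τ) := integrable_unit hf h0 h1
  have hf' : Measurable fun p : Y × X => f (p.2, p.1) := hf.comp (by fun_prop)
  have hF : Measurable fun y => ∫ x, f (x, y) ∂σ :=
    (hf.stronglyMeasurable.integral_prod_left').measurable
  have hG : Measurable fun x => ∫ y, f (x, y) ∂τ :=
    (hf.stronglyMeasurable.integral_prod_right').measurable
  have hu := fun y => integral_unit (σ := σ) (f := fun x => f (x, y)) (hf.comp (by fun_prop))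
    (fun x => h0 _) (fun x => h1 _)
  have hv := fun x => integral_unit (σ := τ) (f := fun y => f (x, y)) (hf.comp (by fun_prop))
    (fun x => h0 _) (fun x => h1 _)
  obtain ⟨H, hH⟩ : ∃ H : ℝ, H = ∫ p, f p ∂(σ.prod τ) := ⟨_, rfl⟩
  have hHF : ∫ y, ∫ x, f (x, y) ∂σ ∂τ = H := by rw [hH, integral_prod_symm _ hfi]
  have hHG : ∫ x, ∫ y, f (x, y) ∂τ ∂σ = H := by rw [hH, integral_prod _ hfi]
  have hH0 : 0 ≤ H := by
    rw [hH]
    exact integral_nonneg h0
  rw [← hH]
  rcases hH0.eq_or_lt with h | h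
  · have h2 : f =ᵐ[σ.prod τ] 0 := (integral_eq_zero_iff_of_nonneg h0 hfi).1 (by rw [← hH, ← h])
    have h3 : (fun p => negMulLog (f p)) =ᵐ[σ.prod τ] 0 := by
      filter_upwards [h2] with x hx
      rw [hx]
      simp
    rw [integral_congr_ae h3, ← h]
    simp only [Pi.zero_apply, integral_zero, negMulLog_zero, add_zero]
    exact add_nonneg (integral_nonneg fun y => negMulLog_nonneg (hu y).1 (hu y).2)
      (integral_nonneg fun x => negMulLog_nonneg (hv x).1 (hv x).2)
  · obtain ⟨i1, e1⟩ := prod_log (σ := σ) (τ := τ) hf h0 h1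
    obtain ⟨i2', e2'⟩ := prod_log (σ := τ) (τ := σ) hf' (fun p => h0 _) (fun p => h1 _)
    have i2 : Integrable (fun p : X × Y => f p * log (∫ y, f (p.1, y) ∂τ)) (σ.prod τ) :=
      i2'.swap
    have e2 : ∫ p, f p * log (∫ y, f (p.1, y) ∂τ) ∂(σ.prod τ) =
        -∫ x, negMulLog (∫ y, f (x, y) ∂τ) ∂σ := by
      rw [← e2', ← integral_prod_swap]
      rfl
    have i3 : Integrable (fun p : X × Y => (∫ x, f (x, p.2) ∂σ) * (∫ y, f (p.1, y) ∂τ) / H)
        (σ.prod τ) := by
      refine Integrable.div_const ?_ _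
      refine integrable_bdd ((hF.comp measurable_snd).mul (hG.comp measurable_fst)) (c := 1)
        fun p => ?_
      rw [abs_of_nonneg (mul_nonneg (hu _).1 (hv _).1)]
      exact mul_le_one₀ (hu _).2 (hv _).1 (hv _).2
    have e3 : ∫ p : X × Y, (∫ x, f (x, p.2) ∂σ) * (∫ y, f (p.1, y) ∂τ) / H ∂(σ.prod τ) = H := by
      rw [integral_div]
      have e4 : ∫ p : X × Y, (∫ x, f (x, p.2) ∂σ) * (∫ y, f (p.1, y) ∂τ) ∂(σ.prod τ) = H * H := by
        have e5 : ∀ p : X × Y, (∫ x, f (x, p.2) ∂σ) * (∫ y, f (p.1, y) ∂τ) =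
            (∫ y, f (p.1, y) ∂τ) * (∫ x, f (x, p.2) ∂σ) := fun p => mul_comm _ _
        simp only [e5]
        rw [integral_prod_mul (μ := σ) (ν := τ) (fun x => ∫ y, f (x, y) ∂τ)
          (fun y => ∫ x, f (x, y) ∂σ), hHF, hHG]
      rw [e4]
      field_simp
    have key : ∀ᵐ p ∂(σ.prod τ), negMulLog (f p) ≤ -(f p * log (∫ x, f (x, p.2) ∂σ)) -
        f p * log (∫ y, f (p.1, y) ∂τ) + f p * log H +
        (∫ x, f (x, p.2) ∂σ) * (∫ y, f (p.1, y) ∂τ) / H - f p := by
      have a1 := ae_zero (σ := σ) (τ := τ) hf h0 h1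
      have a2 : ∀ᵐ p ∂(σ.prod τ), (∫ y, f (p.1, y) ∂τ) = 0 → f p = 0 := by
        have a3 := ae_zero (σ := τ) (τ := σ) hf' (fun p => h0 _) (fun p => h1 _)
        rw [← Measure.prod_swap (μ := σ) (ν := τ)] at a3
        exact ae_of_ae_map measurable_swap.aemeasurable a3
      filter_upwards [a1, a2] with p b1 b2
      rcases (h0 p).eq_or_lt with h4 | h4
      · rw [← h4]
        simp only [negMulLog_zero, zero_mul, neg_zero, sub_zero, zero_add]
        exact div_nonneg (mul_nonneg (hu _).1 (hv _).1) h.le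
      · have c1 : 0 < ∫ x, f (x, p.2) ∂σ := lt_of_le_of_ne (hu _).1 fun h5 =>
          h4.ne' (b1 h5.symm)
        have c2 : 0 < ∫ y, f (p.1, y) ∂τ := lt_of_le_of_ne (hv _).1 fun h5 =>
          h4.ne' (b2 h5.symm)
        have h6 := nml_le (x := f p)
          (a := (∫ x, f (x, p.2) ∂σ) * (∫ y, f (p.1, y) ∂τ) / H) h4.le
          (div_pos (mul_pos c1 c2) h)
        rw [log_div (mul_pos c1 c2).ne' h.ne', log_mul c1.ne' c2.ne'] at h6
        refine h6.trans (le_of_eq ?_)
        ring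
    have j1 : Integrable (fun p : X × Y => -(f p * log (∫ x, f (x, p.2) ∂σ))) (σ.prod τ) :=
      i1.neg
    have j2 : Integrable (fun p : X × Y => -(f p * log (∫ x, f (x, p.2) ∂σ)) -
        f p * log (∫ y, f (p.1, y) ∂τ)) (σ.prod τ) := j1.sub i2
    have j3 : Integrable (fun p : X × Y => f p * log H) (σ.prod τ) := hfi.mul_const _
    have j4 : Integrable (fun p : X × Y => -(f p * log (∫ x, f (x, p.2) ∂σ)) -
        f p * log (∫ y, f (p.1, y) ∂τ) + f p * log H) (σ.prod τ) := j2.add j3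
    have j5 : Integrable (fun p : X × Y => -(f p * log (∫ x, f (x, p.2) ∂σ)) -
        f p * log (∫ y, f (p.1, y) ∂τ) + f p * log H +
        (∫ x, f (x, p.2) ∂σ) * (∫ y, f (p.1, y) ∂τ) / H) (σ.prod τ) := j4.add i3
    have hfin := integral_mono_ae (integrable_nml hf h0 h1) (j5.sub hfi) key
    have e6 : ∫ p, (-(f p * log (∫ x, f (x, p.2) ∂σ)) -
        f p * log (∫ y, f (p.1, y) ∂τ) + f p * log H +
        (∫ x, f (x, p.2) ∂σ) * (∫ y, f (p.1, y) ∂τ) / H - f p) ∂(σ.prod τ) =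
        (∫ y, negMulLog (∫ x, f (x, y) ∂σ) ∂τ + ∫ x, negMulLog (∫ y, f (x, y) ∂τ) ∂σ) -
          negMulLog H := by
      rw [integral_sub j5 hfi, integral_add j4 i3, integral_add j2 j3, integral_sub j1 i2,
        integral_neg, e1, e2, e3, integral_mul_const, ← hH]
      unfold negMulLog
      ring
    have hfin' : ∫ p, negMulLog (f p) ∂(σ.prod τ) ≤
        (∫ y, negMulLog (∫ x, f (x, y) ∂σ) ∂τ + ∫ x, negMulLog (∫ y, f (x, y) ∂τ) ∂σ) -
          negMulLog H := hfin.trans (le_of_eq e6)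
    linarith

end Helper75.IP
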