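import Mathlib
import Pool.Agent.Helper75.IP.Defs
import Pool.Agent.Helper75.IP.Gap
import Pool.Agent.Helper40.AG.Ruzsa

/-!
# Independent powers: the functional `en`
-/

set_option autoImplicit false
open MeasureTheory Filter Topology ProbabilityTheory Helper35.AG Real
open scoped ENNReal

namespace Helper75.IP

instance vol_prob : IsProbabilityMeasure (volume : Measure Tor) :=
  ⟨by rw [AddCircle.measure_univ]; simp⟩

/-- mass of the shifted cell -/
noncomputable def q (K i : ℕ) (ρ : Measure Tor) (y : Tor) : ℝ := ρ.real {x | idx K (x + y) = i}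

theorem measurable_q (K i : ℕ) (ρ : Measure Tor) [IsProbabilityMeasure ρ] :
    Measurable (q K i ρ) := measurable_real ρ (measurableSet_idx K i)

theorem q_nonneg (K i : ℕ) (ρ : Measure Tor) (y : Tor) : 0 ≤ q K i ρ y := measureReal_nonneg

theorem q_le_one (K i : ℕ) (ρ : Measure Tor) [IsProbabilityMeasure ρ] (y : Tor) :
    q K i ρ y ≤ 1 := measureReal_le_one

theorem q_conv (K i : ℕ) (ρ τ : Measure Tor) [IsProbabilityMeasure ρ] [IsProbabilityMeasure τ]
    (y : Tor) : q K i (conv ρ τ) y = ∫ w, q K i ρ (w + y) ∂τ := by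
  unfold q
  rw [conv_real ρ τ (measurableSet_shift K i y)]
  refine integral_congr_ae (Eventually.of_forall fun w => ?_)
  show ρ.real {x | idx K (x + w + y) = i} = ρ.real {x | idx K (x + (w + y)) = i}
  simp only [add_assoc]

/-- each cell contributes the same kind of integral -/
theorem en_eq (K : ℕ) (ρ : Measure Tor) [IsProbabilityMeasure ρ] :
    en K ρ = ∑ i ∈ Finset.range (2 ^ K), ∫ y, negMulLog (q K i ρ y) ∂(volume : Measure Tor) := by
  unfold en
  rw [integral_finsetSum _ fun i _ => ?_]
  · rfl
  · exact integrable_nml (measurable_q K i ρ) (q_nonneg K i ρ) (q_le_one K i ρ)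

/-- **E1** -/
theorem measurable_en {Ω : Type*} [MeasurableSpace Ω] (κ : Kernel Ω Tor) [IsMarkovKernel κ]
    (K : ℕ) : Measurable fun ω => en K (κ ω) := by
  have h1 : ∀ i : ℕ, Measurable fun p : Ω × Tor => (κ p.1).real {x | idx K (x + p.2) = i} := by
    intro i
    have hs : MeasurableSet {z : (Ω × Tor) × Tor | idx K (z.2 + z.1.2) = i} :=
      ((measurable_idx K).comp (measurable_snd.add (measurable_snd.comp measurable_fst)))
        (measurableSet_singleton i)
    have h := Kernel.measurable_kernel_prodMk_left (κ := κ.comap Prod.fst measurable_fst) hs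
    exact h.ennreal_toReal
  have h2 : Measurable fun p : Ω × Tor => ∑ i ∈ Finset.range (2 ^ K),
      negMulLog ((κ p.1).real {x | idx K (x + p.2) = i}) :=
    Finset.measurable_sum _ fun i _ => continuous_negMulLog.measurable.comp (h1 i)
  exact (h2.stronglyMeasurable.integral_prod_right' (ν := (volume : Measure Tor))).measurable

/-- **E2** -/
theorem en_nonneg (K : ℕ) (ρ : Measure Tor) [IsProbabilityMeasure ρ] : 0 ≤ en K ρ := by
  rw [en_eq]
  exact Finset.sum_nonneg fun i _ => integral_nonneg fun y =>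
    negMulLog_nonneg (q_nonneg K i ρ y) (q_le_one K i ρ y)

theorem en_le (K : ℕ) (ρ : Measure Tor) [IsProbabilityMeasure ρ] : en K ρ ≤ K * Real.log 2 := by
  unfold en
  have hp : ∀ y : Tor, ∑ i ∈ Finset.range (2 ^ K), negMulLog (ρ.real {x | idx K (x + y) = i}) ≤
      K * Real.log 2 := by
    intro y
    have ha : (0 : ℝ) < 1 / 2 ^ K := by positivity
    have h1 : ∑ i ∈ Finset.range (2 ^ K), negMulLog (ρ.real {x | idx K (x + y) = i}) ≤
        ∑ i ∈ Finset.range (2 ^ K), (-(ρ.real {x | idx K (x + y) = i} * log (1 / 2 ^ K)) +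
          1 / 2 ^ K - ρ.real {x | idx K (x + y) = i}) :=
      Finset.sum_le_sum fun i _ => nml_le measureReal_nonneg ha
    refine h1.trans (le_of_eq ?_)
    rw [Finset.sum_sub_distrib, Finset.sum_add_distrib, Finset.sum_neg_distrib, ← Finset.sum_mul,
      sum_shift, Finset.sum_const, Finset.card_range, nsmul_eq_mul, log_div one_ne_zero
      (by positivity), log_one, log_pow]
    push_cast
    field_simp
    ring
  have hm : Measurable fun y : Tor =>
      ∑ i ∈ Finset.range (2 ^ K), negMulLog (ρ.real {x | idx K (x + y) = i}) :=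
    Finset.measurable_sum _ fun i _ => continuous_negMulLog.measurable.comp (measurable_q K i ρ)
  have h0 : ∀ y : Tor, 0 ≤ ∑ i ∈ Finset.range (2 ^ K),
      negMulLog (ρ.real {x | idx K (x + y) = i}) := fun y =>
    Finset.sum_nonneg fun i _ => negMulLog_nonneg measureReal_nonneg measureReal_le_one
  have h2 := integral_mono (μ := (volume : Measure Tor)) (integrable_bdd hm (c := K * Real.log 2)
    fun y => by rw [abs_of_nonneg (h0 y)]; exact hp y) (integrable_const (K * Real.log 2)) hp
  simpa using h2

/-- shift of the variable of integration -/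
theorem int_shift (f : Tor → ℝ) (v : Tor) :
    ∫ y, f (v + y) ∂(volume : Measure Tor) = ∫ y, f y ∂(volume : Measure Tor) :=
  integral_add_left_eq_self f v

/-- the averaged shift -/
theorem int_avg (σ : Measure Tor) [IsProbabilityMeasure σ] {f : Tor → ℝ} (hf : Measurable f)
    {c : ℝ} (hc : ∀ x, |f x| ≤ c) :
    ∫ y, ∫ v, f (v + y) ∂σ ∂(volume : Measure Tor) = ∫ y, f y ∂(volume : Measure Tor) := by
  have hi : Integrable (Function.uncurry fun (y v : Tor) => f (v + y))
      ((volume : Measure Tor).prod σ) :=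
    integrable_bdd (hf.comp (measurable_snd.add measurable_fst)) fun p => hc _
  rw [integral_integral_swap hi]
  simp only [int_shift]
  simp

theorem en_conv_ge (K : ℕ) (σ ρ : Measure Tor) [IsProbabilityMeasure σ] [IsProbabilityMeasure ρ] :
    en K ρ ≤ en K (conv σ ρ) := by
  rw [Helper40.AG.conv_comm, en_eq, en_eq]
  refine Finset.sum_le_sum fun i _ => ?_
  have hm : Measurable fun y => negMulLog (q K i ρ y) :=
    continuous_negMulLog.measurable.comp (measurable_q K i ρ)
  have hb : ∀ y, |negMulLog (q K i ρ y)| ≤ 1 := fun y => abs_nml_le (q_nonneg K i ρ y)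
    (q_le_one K i ρ y)
  rw [← int_avg σ hm (c := 1) hb]
  have hm2 : Measurable fun y => ∫ v, negMulLog (q K i ρ (v + y)) ∂σ :=
    ((hm.comp (measurable_snd.add measurable_fst)).stronglyMeasurable.integral_prod_right'
      (f := fun p : Tor × Tor => negMulLog (q K i ρ (p.2 + p.1)))).measurable
  refine integral_mono (integrable_bdd hm2 (c := 1) fun y => ?_)
    (integrable_nml (measurable_q K i (conv ρ σ)) (q_nonneg K i _) (q_le_one K i _)) fun y => ?_
  · have h1 := norm_integral_le_of_norm_le_const (μ := σ)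
      (f := fun v => negMulLog (q K i ρ (v + y))) (C := 1)
      (Eventually.of_forall fun v => by rw [Real.norm_eq_abs]; exact hb _)
    simpa using h1
  · show ∫ v, negMulLog (q K i ρ (v + y)) ∂σ ≤ negMulLog (q K i (conv ρ σ) y)
    rw [q_conv]
    exact jensen (f := fun v => q K i ρ (v + y)) ((measurable_q K i ρ).comp (by fun_prop))
      (fun v => q_nonneg K i ρ _) (fun v => q_le_one K i ρ _)

/-- **E3** submodularity -/
theorem en_sub (K : ℕ) (σ ρ τ : Measure Tor) [IsProbabilityMeasure σ] [IsProbabilityMeasure ρ]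
    [IsProbabilityMeasure τ] :
    en K (conv σ (conv ρ τ)) + en K ρ ≤ en K (conv σ ρ) + en K (conv ρ τ) := by
  rw [Helper40.AG.conv_comm σ (conv ρ τ), Helper40.AG.conv_comm σ ρ, en_eq, en_eq, en_eq, en_eq,
    ← Finset.sum_add_distrib, ← Finset.sum_add_distrib]
  refine Finset.sum_le_sum fun i _ => ?_
  obtain ⟨u, hu⟩ : ∃ u : Tor → ℝ, u = q K i ρ := ⟨_, rfl⟩
  have um : Measurable u := by rw [hu]; exact measurable_q K i ρ
  have u0 : ∀ x, 0 ≤ u x := fun x => by rw [hu]; exact q_nonneg K i ρ x
  have u1 : ∀ x, u x ≤ 1 := fun x => by rw [hu]; exact q_le_one K i ρ x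
  have hnm : Measurable fun y => negMulLog (u y) := continuous_negMulLog.measurable.comp um
  have hnb : ∀ y, |negMulLog (u y)| ≤ 1 := fun y => abs_nml_le (u0 y) (u1 y)
  have eS : ∀ y, q K i (conv ρ σ) y = ∫ v, u (v + y) ∂σ := fun y => by rw [q_conv, hu]
  have eT : ∀ y, q K i (conv ρ τ) y = ∫ w, u (w + y) ∂τ := fun y => by rw [q_conv, hu]
  have eST : ∀ y, q K i (conv (conv ρ τ) σ) y = ∫ p : Tor × Tor, u (p.2 + (p.1 + y))
      ∂(σ.prod τ) := by
    intro y
    have hm3 : Measurable fun p : Tor × Tor => u (p.2 + (p.1 + y)) := um.comp (by fun_prop)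
    rw [q_conv, integral_prod _ (integrable_unit (σ := σ.prod τ) hm3 (fun p => u0 _)
      fun p => u1 _)]
    exact integral_congr_ae (Eventually.of_forall fun v => eT _)
  -- pointwise inequality
  have key : ∀ y, ∫ p : Tor × Tor, negMulLog (u (p.2 + (p.1 + y))) ∂(σ.prod τ) +
      negMulLog (q K i (conv (conv ρ τ) σ) y) ≤
      ∫ w, negMulLog (q K i (conv ρ σ) (w + y)) ∂τ +
        ∫ v, negMulLog (q K i (conv ρ τ) (v + y)) ∂σ := by
    intro y
    have h := gap (σ := σ) (τ := τ) (f := fun p : Tor × Tor => u (p.2 + (p.1 + y)))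
      (um.comp (by fun_prop)) (fun p => u0 _) (fun p => u1 _)
    rw [eST]
    refine h.trans (le_of_eq ?_)
    congr 1
    · refine integral_congr_ae (Eventually.of_forall fun w => ?_)
      show negMulLog (∫ v, u (w + (v + y)) ∂σ) = negMulLog (q K i (conv ρ σ) (w + y))
      rw [eS]
      congr 2
      funext v
      congr 1
      abel
    · refine integral_congr_ae (Eventually.of_forall fun v => ?_)
      show negMulLog (∫ w, u (w + (v + y)) ∂τ) = negMulLog (q K i (conv ρ τ) (v + y))
      rw [eT]
  -- integrate over `y`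
  have m1 : Measurable fun z : Tor × (Tor × Tor) => negMulLog (u (z.2.2 + (z.2.1 + z.1))) :=
    hnm.comp (by fun_prop)
  have s1 : ∫ y, ∫ p : Tor × Tor, negMulLog (u (p.2 + (p.1 + y))) ∂(σ.prod τ)
      ∂(volume : Measure Tor) = ∫ y, negMulLog (u y) ∂(volume : Measure Tor) := by
    have hi : Integrable (Function.uncurry fun (y : Tor) (p : Tor × Tor) =>
        negMulLog (u (p.2 + (p.1 + y)))) ((volume : Measure Tor).prod (σ.prod τ)) :=
      integrable_bdd m1 (c := 1) fun z => hnb _
    rw [integral_integral_swap hi]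
    have e : ∀ p : Tor × Tor, ∫ y, negMulLog (u (p.2 + (p.1 + y))) ∂(volume : Measure Tor) =
        ∫ y, negMulLog (u y) ∂(volume : Measure Tor) := by
      intro p
      have e1 := int_shift (fun y => negMulLog (u y)) (p.2 + p.1)
      rw [← e1]
      refine integral_congr_ae (Eventually.of_forall fun y => ?_)
      show negMulLog (u (p.2 + (p.1 + y))) = negMulLog (u (p.2 + p.1 + y))
      rw [add_assoc]
    simp only [e]
    simp
  have gm : ∀ (α : Measure Tor) [IsProbabilityMeasure α],
      Measurable fun y => negMulLog (q K i α y) := fun α _ =>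
    continuous_negMulLog.measurable.comp (measurable_q K i α)
  have gb : ∀ (α : Measure Tor) [IsProbabilityMeasure α] (y : Tor), |negMulLog (q K i α y)| ≤ 1 :=
    fun α _ y => abs_nml_le (q_nonneg K i α y) (q_le_one K i α y)
  have s2 := int_avg τ (gm (conv ρ σ)) (c := 1) (gb (conv ρ σ))
  have s3 := int_avg σ (gm (conv ρ τ)) (c := 1) (gb (conv ρ τ))
  have mavg : ∀ (α β : Measure Tor) [IsProbabilityMeasure α] [IsProbabilityMeasure β],
      Integrable (fun y => ∫ w, negMulLog (q K i α (w + y)) ∂β) (volume : Measure Tor) := by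
    intro α β _ _
    have hm2 : Measurable fun y => ∫ v, negMulLog (q K i α (v + y)) ∂β :=
      (((gm α).comp (measurable_snd.add measurable_fst)).stronglyMeasurable.integral_prod_right'
        (f := fun p : Tor × Tor => negMulLog (q K i α (p.2 + p.1)))).measurable
    refine integrable_bdd hm2 (c := 1) fun y => ?_
    have h1 := norm_integral_le_of_norm_le_const (μ := β)
      (f := fun v => negMulLog (q K i α (v + y))) (C := 1)
      (Eventually.of_forall fun v => by rw [Real.norm_eq_abs]; exact gb α _)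
    simpa using h1
  have i1 : Integrable (fun y => ∫ p : Tor × Tor, negMulLog (u (p.2 + (p.1 + y))) ∂(σ.prod τ))
      (volume : Measure Tor) := by
    have hm2 : Measurable fun y => ∫ p : Tor × Tor, negMulLog (u (p.2 + (p.1 + y))) ∂(σ.prod τ) :=
      (m1.stronglyMeasurable.integral_prod_right'
        (f := fun z : Tor × (Tor × Tor) => negMulLog (u (z.2.2 + (z.2.1 + z.1))))).measurable
    refine integrable_bdd hm2 (c := 1) fun y => ?_
    have h1 := norm_integral_le_of_norm_le_const (μ := σ.prod τ)
      (f := fun p : Tor × Tor => negMulLog (u (p.2 + (p.1 + y)))) (C := 1)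
      (Eventually.of_forall fun v => by rw [Real.norm_eq_abs]; exact hnb _)
    simpa using h1
  have i2 : Integrable (fun y => negMulLog (q K i (conv (conv ρ τ) σ) y))
      (volume : Measure Tor) := integrable_bdd (gm _) (c := 1) (gb _)
  have hfin : ∫ y, (∫ p : Tor × Tor, negMulLog (u (p.2 + (p.1 + y))) ∂(σ.prod τ) +
      negMulLog (q K i (conv (conv ρ τ) σ) y)) ∂(volume : Measure Tor) ≤
      ∫ y, (∫ w, negMulLog (q K i (conv ρ σ) (w + y)) ∂τ +
        ∫ v, negMulLog (q K i (conv ρ τ) (v + y)) ∂σ) ∂(volume : Measure Tor) :=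
    integral_mono (i1.add i2) ((mavg (conv ρ σ) τ).add (mavg (conv ρ τ) σ)) key
  rw [integral_add i1 i2, integral_add (mavg (conv ρ σ) τ) (mavg (conv ρ τ) σ), s1, s2, s3] at hfin
  rw [← hu]
  linarith

end Helper75.IP
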