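import Mathlib
import Pool.Agent.Helper75.IP.En
import Pool.Agent.Helper16.SAG.Trace
import Pool.Agent.Helper17.TranslM

/-!
# Independent powers: convolution of kernels
-/

set_option autoImplicit false
open MeasureTheory Filter Topology ProbabilityTheory Helper35.AG
open scoped ENNReal

namespace Helper75.IP

/-! ### convolution -/

theorem conv_assoc (α β γ : Measure Tor) [IsProbabilityMeasure α] [IsProbabilityMeasure β]
    [IsProbabilityMeasure γ] : conv (conv α β) γ = conv α (conv β γ) := by
  apply Helper17.TranslM.eq_of_fourier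
  intro m
  rw [Helper16.SAG.fourier_conv, Helper16.SAG.fourier_conv, Helper16.SAG.fourier_conv,
    Helper16.SAG.fourier_conv, mul_assoc]

theorem conv_dirac (α : Measure Tor) [IsProbabilityMeasure α] :
    conv α (Measure.dirac 0) = α := by
  apply Helper17.TranslM.eq_of_fourier
  intro m
  rw [Helper16.SAG.fourier_conv]
  simp

theorem cp_one (μ : Measure Tor) [IsProbabilityMeasure μ] : cp μ 1 = μ := conv_dirac μ

theorem cp_add (μ : Measure Tor) [IsProbabilityMeasure μ] (n j : ℕ) :
    conv (cp μ n) (cp μ j) = cp μ (n + j) := by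
  induction n with
  | zero =>
    rw [Helper40.AG.conv_comm, Nat.zero_add]
    exact conv_dirac _
  | succ n ih =>
    rw [show n + 1 + j = n + j + 1 by ring]
    show conv (conv μ (cp μ n)) (cp μ j) = conv μ (cp μ (n + j))
    rw [conv_assoc, ih]

/-- integral against a convolution -/
theorem int_conv (α β : Measure Tor) [IsProbabilityMeasure α] [IsProbabilityMeasure β]
    {f : Tor → ℝ} (hf : Measurable f) :
    ∫ w, f w ∂(conv α β) = ∫ p, f (p.1 + p.2) ∂(α.prod β) := by
  unfold conv
  exact integral_map (by fun_prop) hf.aestronglyMeasurable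

/-! ### kernels -/

variable {X Y : Type*} [MeasurableSpace X] [MeasurableSpace Y]

/-- convolution of kernels -/
noncomputable def ck (κ : Kernel X Tor) (κ' : Kernel Y Tor) : Kernel (X × Y) Tor :=
  ((κ.comap Prod.fst measurable_fst) ×ₖ (κ'.comap Prod.snd measurable_snd)).map
    fun p => p.1 + p.2

theorem ck_apply (κ : Kernel X Tor) (κ' : Kernel Y Tor) [IsMarkovKernel κ] [IsMarkovKernel κ']
    (p : X × Y) : ck κ κ' p = conv (κ p.1) (κ' p.2) := by
  unfold ck conv
  rw [Kernel.map_apply _ (by fun_prop), Kernel.prod_apply, Kernel.comap_apply, Kernel.comap_apply]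

instance ck_markov (κ : Kernel X Tor) (κ' : Kernel Y Tor) [IsMarkovKernel κ]
    [IsMarkovKernel κ'] : IsMarkovKernel (ck κ κ') := by
  unfold ck
  exact Kernel.IsMarkovKernel.map _ (by fun_prop)

/-- the function of a kernel -/
theorem abs_en (K : ℕ) (ρ : Measure Tor) [IsProbabilityMeasure ρ] :
    |en K ρ| ≤ K * Real.log 2 := by
  rw [abs_of_nonneg (en_nonneg K ρ)]
  exact en_le K ρ

theorem int_en (K : ℕ) (κ : Kernel X Tor) [IsMarkovKernel κ] (J : Measure X)
    [IsProbabilityMeasure J] : Integrable (fun x => en K (κ x)) J :=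
  integrable_bdd (measurable_en κ K) fun x => abs_en K _

end Helper75.IP
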