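import Mathlib
import Pool.Agent.Helper75.IP.Core
import Pool.Agent.Helper26.IP2.Inv

/-!
# Independent powers for products: definitions
-/

set_option autoImplicit false
open MeasureTheory Filter Topology ProbabilityTheory Helper35.AG
open scoped ENNReal

namespace Helper75.IP

/-- convolution of a list of measures -/
noncomputable def cpl : List (Measure Tor) → Measure Tor
  | [] => Measure.dirac 0
  | μ :: L => conv μ (cpl L)

/-- extreme invariant probability measures -/
structure Good (μ : Measure Tor) : Prop where
  prob : IsProbabilityMeasure μ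
  inv : Inv μ
  ext : Ext μ

/-- mean square distance of a character from `1` -/
noncomputable def W (n : ℤ) (μ : Measure Tor) : ℝ := ∫ x, ‖(fourier n x : ℂ) - 1‖ ^ 2 ∂μ

theorem cpl_prob' {L : List (Measure Tor)} (h : ∀ μ ∈ L, IsProbabilityMeasure μ) :
    IsProbabilityMeasure (cpl L) := by
  induction L with
  | nil => unfold cpl; infer_instance
  | cons μ L ih =>
    have h1 := h μ List.mem_cons_self
    have h2 := ih fun ν hν => h ν (List.mem_cons_of_mem μ hν)
    exact conv_prob μ (cpl L)

theorem cpl_prob {L : List (Measure Tor)} (h : ∀ μ ∈ L, Good μ) :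
    IsProbabilityMeasure (cpl L) := cpl_prob' fun μ hμ => (h μ hμ).prob

theorem cpl_inv {L : List (Measure Tor)} (h : ∀ μ ∈ L, Good μ) : Inv (cpl L) := by
  induction L with
  | nil =>
    exact ⟨Helper26.IP.mp_dirac (by fun_prop), Helper26.IP.mp_dirac (by fun_prop)⟩
  | cons μ L ih =>
    have h1 := h μ List.mem_cons_self
    have h2 : ∀ ν ∈ L, Good ν := fun ν hν => h ν (List.mem_cons_of_mem μ hν)
    have := h1.prob
    have := cpl_prob h2
    exact Helper26.IP.inv_conv h1.inv (ih h2)

theorem cpl_append {L L' : List (Measure Tor)} (h : ∀ μ ∈ L, IsProbabilityMeasure μ)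
    (h' : ∀ μ ∈ L', IsProbabilityMeasure μ) : cpl (L ++ L') = conv (cpl L) (cpl L') := by
  have hp := cpl_prob' h'
  induction L with
  | nil =>
    show cpl L' = conv (Measure.dirac 0) (cpl L')
    rw [Helper40.AG.conv_comm, conv_dirac]
  | cons μ L ih =>
    have h1 := h μ List.mem_cons_self
    have h2 : ∀ ν ∈ L, IsProbabilityMeasure ν := fun ν hν => h ν (List.mem_cons_of_mem μ hν)
    have := cpl_prob' h2
    show conv μ (cpl (L ++ L')) = conv (conv μ (cpl L)) (cpl L')
    rw [ih h2, conv_assoc]

/-- the list repeated `n` times -/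
def rep (S : List (Measure Tor)) (n : ℕ) : List (Measure Tor) := (List.replicate n S).flatten

theorem rep_succ (S : List (Measure Tor)) (n : ℕ) : rep S (n + 1) = S ++ rep S n := by
  unfold rep
  rw [List.replicate_succ, List.flatten_cons]

theorem mem_rep {S : List (Measure Tor)} {n : ℕ} {μ : Measure Tor} (h : μ ∈ rep S n) : μ ∈ S := by
  unfold rep at h
  rw [List.mem_flatten] at h
  obtain ⟨l, hl, hμ⟩ := h
  rwa [List.eq_of_mem_replicate hl] at hμ

theorem cpl_rep {S : List (Measure Tor)} (h : ∀ μ ∈ S, IsProbabilityMeasure μ) (n : ℕ) :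
    cpl (rep S n) = cp (cpl S) n := by
  induction n with
  | zero => rfl
  | succ n ih =>
    rw [rep_succ, cpl_append h fun μ hμ => h μ (mem_rep hμ), ih]
    rfl

theorem sum_rep (S : List (Measure Tor)) (n : ℕ) (f : Measure Tor → ℝ) :
    ((rep S n).map f).sum = n * (S.map f).sum := by
  induction n with
  | zero => simp [rep]
  | succ n ih =>
    rw [rep_succ, List.map_append, List.sum_append, ih]
    push_cast
    ring

end Helper75.IP
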