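import Mathlib
import Pool.Agent.Helper75.IP.DefsL

/-!
# Independent powers for monomials: definitions
-/

set_option autoImplicit false
open MeasureTheory Filter Topology ProbabilityTheory Helper35.AG
open scoped ENNReal

namespace Helper75.IP

/-- reflection -/
noncomputable def refl (μ : Measure Tor) : Measure Tor := μ.map fun x => -x

/-- `L` has a larger degree than `L'` in every member of `S`, up to reflection -/
def Dom (S L L' : List (Measure Tor)) : Prop :=
  ∃ q : ℝ, 0 ≤ q ∧ ∀ w : Measure Tor → ℝ, (∀ ν ∈ S, 0 ≤ w ν) → (∀ ν ∈ S, w (refl ν) = w ν) →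
    (S.map w).sum ≤ q * ((L.map w).sum - (L'.map w).sum)

end Helper75.IP
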