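import Mathlib
import Pool.Agent.Helper75.IP.Core
import Pool.Agent.Helper25.IP.Ker
import Pool.Agent.Helper25.IP.Conv
import Pool.Agent.Helper26.IP2.Inv

/-!
# Independent powers: the core
-/

set_option autoImplicit false
open MeasureTheory Filter Topology ProbabilityTheory Helper35.AG
open scoped ENNReal

namespace Helper75.IP.C

open Helper75.IP Helper25.IP Helper26.IP

variable {U : Ultrafilter ℕ} (μ : Measure Tor) [IsProbabilityMeasure μ]
  (κ : ℕ → Kernel Tor Tor) [∀ N, IsMarkovKernel (κ N)] (K : ℕ)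

/-- mean value -/
noncomputable def Eb (j : ℕ) : ℝ := ∫ u, en K (κ j u) ∂(cp μ j)

/-- mean value for a product -/
noncomputable def EE (j n : ℕ) (ρ : Measure Tor) : ℝ :=
  ∫ p : Tor × Tor, en K (ck (κ n) (κ j) p) ∂(ρ.prod (cp μ j))

/-- the defect -/
noncomputable def rr (j n : ℕ) (z : (Tor × Tor) × Tor) : ℝ :=
  en K (ck (κ 1) (κ j) (z.1.1, z.2)) + en K (ck (κ n) (κ j) (z.1.2, z.2)) -
    en K (ck (κ 1) (ck (κ j) (κ n)) (z.1.1, (z.2, z.1.2))) - en K (κ j z.2)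

/-- the integrated defect -/
noncomputable def RR (j n : ℕ) (J : Measure (Tor × Tor)) : ℝ :=
  ∫ z, rr κ K j n z ∂(J.prod (cp μ j))

theorem rr_nonneg (j n : ℕ) (z : (Tor × Tor) × Tor) : 0 ≤ rr κ K j n z := by
  unfold rr
  rw [ck_apply, ck_apply, ck_apply, ck_apply]
  have h := en_sub K (κ 1 z.1.1) (κ j z.2) (κ n z.1.2)
  rw [Helper40.AG.conv_comm (κ n z.1.2) (κ j z.2)]
  linarith

section

variable {X Y Z : Type*} [MeasurableSpace X] [MeasurableSpace Y] [MeasurableSpace Z]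

theorem int_fst (J : Measure X) (γ : Measure Z) [IsProbabilityMeasure J] [IsProbabilityMeasure γ]
    {f : X → Y} (hf : Measurable f) {g : Y × Z → ℝ} (hg : Measurable g) :
    ∫ z : X × Z, g (f z.1, z.2) ∂(J.prod γ) = ∫ p, g p ∂((J.map f).prod γ) := by
  have h : (J.map f).prod γ = (J.prod γ).map (Prod.map f id) := by
    conv_lhs => rw [← Measure.map_id (μ := γ)]
    exact Measure.map_prod_map J γ hf measurable_id
  rw [h, integral_map (hf.prodMap measurable_id).aemeasurable hg.aestronglyMeasurable]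
  rfl

theorem int_snd (J : Measure X) (γ : Measure Z) [IsProbabilityMeasure J] [IsProbabilityMeasure γ]
    {g : Z → ℝ} (hg : Measurable g) :
    ∫ z : X × Z, g z.2 ∂(J.prod γ) = ∫ p, g p ∂γ := by
  have h : (J.prod γ).map Prod.snd = γ := by
    rw [← Measure.snd, Measure.snd_prod]
  conv_rhs => rw [← h]
  rw [integral_map measurable_snd.aemeasurable hg.aestronglyMeasurable]

end

theorem meas1 (j n : ℕ) : Measurable fun p : Tor × Tor => en K (ck (κ n) (κ j) p) :=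
  measurable_en _ K

theorem meas3 (j n : ℕ) : Measurable fun z : (Tor × Tor) × Tor =>
    en K (ck (κ 1) (ck (κ j) (κ n)) (z.1.1, (z.2, z.1.2))) :=
  (measurable_en (ck (κ 1) (ck (κ j) (κ n))) K).comp (by fun_prop)

theorem meas_rr (j n : ℕ) : Measurable (rr κ K j n) := by
  unfold rr
  refine Measurable.sub (Measurable.sub (Measurable.add ?_ ?_) (meas3 κ K j n)) ?_
  · exact (meas1 κ K j 1).comp (by fun_prop)
  · exact (meas1 κ K j n).comp (by fun_prop)
  · exact (measurable_en (κ j) K).comp (by fun_prop)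

theorem int_rr (j n : ℕ) (J : Measure ((Tor × Tor) × Tor)) [IsProbabilityMeasure J] :
    Integrable (rr κ K j n) J := by
  refine integrable_bdd (meas_rr κ K j n) (c := 4 * (K * Real.log 2)) fun z => ?_
  unfold rr
  have h1 := abs_le.1 (abs_en K (ck (κ 1) (κ j) (z.1.1, z.2)))
  have h2 := abs_le.1 (abs_en K (ck (κ n) (κ j) (z.1.2, z.2)))
  have h3 := abs_le.1 (abs_en K (ck (κ 1) (ck (κ j) (κ n)) (z.1.1, (z.2, z.1.2))))
  have h4 := abs_le.1 (abs_en K (κ j z.2))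
  rw [abs_le]
  constructor <;> linarith [h1.1, h1.2, h2.1, h2.2, h3.1, h3.2, h4.1, h4.2]

theorem RR_nonneg (j n : ℕ) (J : Measure (Tor × Tor)) : 0 ≤ RR μ κ K j n J :=
  integral_nonneg fun z => rr_nonneg κ K j n z

theorem RR_le (j n : ℕ) (J J0 : Measure (Tor × Tor)) [IsProbabilityMeasure J]
    [IsProbabilityMeasure J0] {c : ℝ≥0∞} (hc : c ≠ ⊤) (h : J ≤ c • J0) :
    RR μ κ K j n J ≤ c.toReal * RR μ κ K j n J0 := by
  have h1 : J.prod (cp μ j) ≤ c • (J0.prod (cp μ j)) := by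
    rw [← Measure.prod_smul_left]
    exact Measure.prod_mono h le_rfl
  unfold RR
  have h2 := integral_mono_measure h1 (Eventually.of_forall fun z => rr_nonneg κ K j n z)
    ((int_rr κ K j n (J0.prod (cp μ j))).smul_measure hc)
  rwa [integral_smul_measure, smul_eq_mul] at h2

variable {μ κ}

theorem lim_one (hκ : ∀ N, IsLim U (cp μ N) (κ N)) : IsLim U μ (κ 1) := by
  have h := hκ 1
  rwa [cp_one] at h

theorem Eb_succ (hκ : ∀ N, IsLim U (cp μ N) (κ N)) (j : ℕ) :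
    Eb μ κ K (j + 1) = ∫ p : Tor × Tor, en K (ck (κ 1) (κ j) p) ∂(μ.prod (cp μ j)) := by
  unfold Eb
  show ∫ u, en K (κ (j + 1) u) ∂(conv μ (cp μ j)) = _
  rw [int_conv _ _ (measurable_en (κ (j + 1)) K)]
  refine integral_congr_ae ?_
  have h := lim_conv (lim_one hκ) (hκ j) (hκ (j + 1))
  filter_upwards [h] with p hp
  show en K (κ (j + 1) (p.1 + p.2)) = en K (ck (κ 1) (κ j) p)
  rw [hp, ck_apply]

theorem Eb_add (hκ : ∀ N, IsLim U (cp μ N) (κ N)) (j n : ℕ) :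
    EE μ κ K j n (cp μ n) = Eb μ κ K (n + j) := by
  unfold Eb EE
  have hc := cp_add μ n j
  rw [← hc, int_conv _ _ (measurable_en (κ (n + j)) K)]
  refine integral_congr_ae ?_
  have h'' := hκ (n + j)
  rw [← hc] at h''
  have h := lim_conv (hκ n) (hκ j) h''
  filter_upwards [h] with p hp
  show en K (ck (κ n) (κ j) p) = en K (κ (n + j) (p.1 + p.2))
  rw [hp, ck_apply]

theorem Eb_nonneg (j : ℕ) : 0 ≤ Eb μ κ K j := integral_nonneg fun _ => en_nonneg K _

theorem Eb_mono (hκ : ∀ N, IsLim U (cp μ N) (κ N)) (j : ℕ) :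
    Eb μ κ K j ≤ Eb μ κ K (j + 1) := by
  rw [Eb_succ K hκ]
  unfold Eb
  rw [← int_snd μ (cp μ j) (measurable_en (κ j) K)]
  refine integral_mono (int_en K (κ j |>.comap Prod.snd measurable_snd) (μ.prod (cp μ j)))
    (int_en K _ _) fun p => ?_
  show en K (κ j p.2) ≤ en K (ck (κ 1) (κ j) p)
  rw [ck_apply]
  exact en_conv_ge K _ _

theorem en_add_le (σ τ : Measure Tor) [IsProbabilityMeasure σ] [IsProbabilityMeasure τ] :
    en K (conv σ τ) ≤ en K σ + en K τ := by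
  have h := en_sub K σ (Measure.dirac 0) τ
  rw [conv_dirac σ, Helper40.AG.conv_comm (Measure.dirac 0) τ, conv_dirac τ] at h
  linarith [en_nonneg K (Measure.dirac (0 : Tor))]

theorem Eb_le (hκ : ∀ N, IsLim U (cp μ N) (κ N)) (j : ℕ) :
    Eb μ κ K (j + 1) ≤ Eb μ κ K 1 + Eb μ κ K j := by
  rw [Eb_succ K hκ]
  have e1 : Eb μ κ K 1 = ∫ p : Tor × Tor, en K (κ 1 p.1) ∂(μ.prod (cp μ j)) := by
    unfold Eb
    rw [cp_one]
    have h : (μ.prod (cp μ j)).map Prod.fst = μ := by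
      rw [← Measure.fst, Measure.fst_prod]
    conv_lhs => rw [← h]
    rw [integral_map measurable_fst.aemeasurable (measurable_en (κ 1) K).aestronglyMeasurable]
  have e2 : Eb μ κ K j = ∫ p : Tor × Tor, en K (κ j p.2) ∂(μ.prod (cp μ j)) := by
    unfold Eb
    rw [← int_snd μ (cp μ j) (measurable_en (κ j) K)]
  have i1 : Integrable (fun p : Tor × Tor => en K (κ 1 p.1)) (μ.prod (cp μ j)) :=
    int_en K (κ 1 |>.comap Prod.fst measurable_fst) _
  have i2 : Integrable (fun p : Tor × Tor => en K (κ j p.2)) (μ.prod (cp μ j)) :=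
    int_en K (κ j |>.comap Prod.snd measurable_snd) _
  rw [e1, e2, ← integral_add i1 i2]
  refine integral_mono (int_en K _ _) (i1.add i2) fun p => ?_
  show en K (ck (κ 1) (κ j) p) ≤ en K (κ 1 p.1) + en K (κ j p.2)
  rw [ck_apply]
  exact en_add_le K _ _

/-- the formula for the integrated defect -/
theorem RR_eq (hκ : ∀ N, IsLim U (cp μ N) (κ N)) (j n : ℕ) (J : Measure (Tor × Tor))
    [IsProbabilityMeasure J] (hJ : J ≪ μ.prod (cp μ n)) (hfst : J.map Prod.fst = μ) :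
    RR μ κ K j n J = Eb μ κ K (j + 1) + EE μ κ K j n (J.map Prod.snd) -
      EE μ κ K j (n + 1) (J.map fun p => p.1 + p.2) - Eb μ κ K j := by
  have i1 : Integrable (fun z : (Tor × Tor) × Tor => en K (ck (κ 1) (κ j) (z.1.1, z.2)))
      (J.prod (cp μ j)) :=
    integrable_bdd ((meas1 κ K j 1).comp (by fun_prop)) fun z => abs_en K _
  have i2 : Integrable (fun z : (Tor × Tor) × Tor => en K (ck (κ n) (κ j) (z.1.2, z.2)))
      (J.prod (cp μ j)) :=
    integrable_bdd ((meas1 κ K j n).comp (by fun_prop)) fun z => abs_en K _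
  have i3 : Integrable (fun z : (Tor × Tor) × Tor =>
      en K (ck (κ 1) (ck (κ j) (κ n)) (z.1.1, (z.2, z.1.2)))) (J.prod (cp μ j)) :=
    integrable_bdd (meas3 κ K j n) fun z => abs_en K _
  have i4 : Integrable (fun z : (Tor × Tor) × Tor => en K (κ j z.2)) (J.prod (cp μ j)) :=
    integrable_bdd ((measurable_en (κ j) K).comp measurable_snd) fun z => abs_en K _
  have e1 : ∫ z : (Tor × Tor) × Tor, en K (ck (κ 1) (κ j) (z.1.1, z.2)) ∂(J.prod (cp μ j)) =
      Eb μ κ K (j + 1) := by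
    rw [int_fst J (cp μ j) measurable_fst (meas1 κ K j 1), hfst, ← Eb_succ K hκ]
  have e2 : ∫ z : (Tor × Tor) × Tor, en K (ck (κ n) (κ j) (z.1.2, z.2)) ∂(J.prod (cp μ j)) =
      EE μ κ K j n (J.map Prod.snd) := by
    rw [int_fst J (cp μ j) measurable_snd (meas1 κ K j n)]
    rfl
  have e4 : ∫ z : (Tor × Tor) × Tor, en K (κ j z.2) ∂(J.prod (cp μ j)) = Eb μ κ K j :=
    int_snd J (cp μ j) (measurable_en (κ j) K)
  have e3 : ∫ z : (Tor × Tor) × Tor, en K (ck (κ 1) (ck (κ j) (κ n)) (z.1.1, (z.2, z.1.2)))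
      ∂(J.prod (cp μ j)) = EE μ κ K j (n + 1) (J.map fun p => p.1 + p.2) := by
    unfold EE
    rw [← int_fst J (cp μ j) (f := fun p : Tor × Tor => p.1 + p.2) (by fun_prop)
      (meas1 κ K j (n + 1))]
    refine integral_congr_ae ?_
    have h := hJ.ae_le (lim_conv (lim_one hκ) (hκ n) (hκ (n + 1)))
    have h' : ∀ᵐ z ∂(J.prod (cp μ j)), κ (n + 1) (z.1.1 + z.1.2) =
        conv (κ 1 z.1.1) (κ n z.1.2) :=
      Measure.quasiMeasurePreserving_fst.ae h
    filter_upwards [h'] with z hz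
    show en K (ck (κ 1) (ck (κ j) (κ n)) (z.1.1, (z.2, z.1.2))) =
      en K (ck (κ (n + 1)) (κ j) (z.1.1 + z.1.2, z.2))
    rw [ck_apply, ck_apply, ck_apply, hz]
    show en K (conv (κ 1 z.1.1) (conv (κ j z.2) (κ n z.1.2))) =
      en K (conv (conv (κ 1 z.1.1) (κ n z.1.2)) (κ j z.2))
    rw [conv_assoc, Helper40.AG.conv_comm (κ j z.2) (κ n z.1.2)]
  have j1 : Integrable (fun z : (Tor × Tor) × Tor => en K (ck (κ 1) (κ j) (z.1.1, z.2)) +
      en K (ck (κ n) (κ j) (z.1.2, z.2))) (J.prod (cp μ j)) := i1.add i2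
  have j2 : Integrable (fun z : (Tor × Tor) × Tor => en K (ck (κ 1) (κ j) (z.1.1, z.2)) +
      en K (ck (κ n) (κ j) (z.1.2, z.2)) -
      en K (ck (κ 1) (ck (κ j) (κ n)) (z.1.1, (z.2, z.1.2)))) (J.prod (cp μ j)) := j1.sub i3
  unfold RR rr
  rw [integral_sub j2 i4, integral_sub j1 i3, integral_add i1 i2, e1, e2, e3, e4]

variable (μ κ)

/-- the deficit -/
noncomputable def XX (j n : ℕ) (ρ : Measure Tor) : ℝ :=
  Eb μ κ K j + n * (Eb μ κ K (j + 1) - Eb μ κ K j) - EE μ κ K j n ρ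

variable {μ κ}

theorem XX_le (hμ : Inv μ) (hext : Ext μ) (hκ : ∀ N, IsLim U (cp μ N) (κ N)) (j : ℕ)
    {c : ℝ≥0∞} (hc : c ≠ ⊤) (n : ℕ) : ∀ (ρ : Measure Tor), IsProbabilityMeasure ρ → Inv ρ →
      ρ ≤ c • cp μ (n + 1) → 0 ≤ XX μ κ K j (n + 1) ρ ∧
        XX μ κ K j (n + 1) ρ ≤ c.toReal * XX μ κ K j (n + 1) (cp μ (n + 1)) := by
  induction n with
  | zero =>
    intro ρ hp hρ hle
    have h1 : ρ = μ := hext ρ c hp hρ hc (by rwa [Nat.zero_add, cp_one] at hle)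
    have h2 : XX μ κ K j (0 + 1) (cp μ (0 + 1)) = 0 := by
      unfold XX
      rw [Eb_add K hκ, show 0 + 1 + j = j + 1 by ring]
      push_cast
      ring
    rw [h2, mul_zero]
    have h3 : ρ = cp μ (0 + 1) := by rw [h1, Nat.zero_add, cp_one]
    rw [h3, h2]
    exact ⟨le_rfl, le_rfl⟩
  | succ n ih =>
    intro ρ hp hρ hle
    obtain ⟨J, hJp, hJ, hadd, hfst, hinv, hsnd⟩ :=
      split (α := cp μ (n + 1)) hμ (inv_cp hμ (n + 1)) hρ hext hc hle
    have hsp : IsProbabilityMeasure (J.map Prod.snd) :=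
      Measure.isProbabilityMeasure_map measurable_snd.aemeasurable
    obtain ⟨a1, a2⟩ := ih _ hsp hinv hsnd
    have hJa : J ≪ μ.prod (cp μ (n + 1)) :=
      (Measure.absolutelyContinuous_of_le hJ).trans (Measure.smul_absolutelyContinuous)
    have b1 := RR_eq K hκ j (n + 1) J hJa hfst
    have b2 := RR_eq K hκ j (n + 1) (μ.prod (cp μ (n + 1))) Measure.AbsolutelyContinuous.rfl
      (by rw [← Measure.fst, Measure.fst_prod])
    have b3 := RR_le μ κ K j (n + 1) J (μ.prod (cp μ (n + 1))) hc hJ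
    have b4 := RR_nonneg μ κ K j (n + 1) J
    have e1 : (μ.prod (cp μ (n + 1))).map Prod.snd = cp μ (n + 1) := by
      rw [← Measure.snd, Measure.snd_prod]
    have e2 : (μ.prod (cp μ (n + 1))).map (fun p => p.1 + p.2) = cp μ (n + 1 + 1) := rfl
    rw [hadd] at b1
    rw [e1, e2] at b2
    have c1 : XX μ κ K j (n + 1 + 1) ρ =
        XX μ κ K j (n + 1) (J.map Prod.snd) + RR μ κ K j (n + 1) J := by
      rw [b1]
      unfold XX
      push_cast
      ring
    have c2 : XX μ κ K j (n + 1 + 1) (cp μ (n + 1 + 1)) =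
        XX μ κ K j (n + 1) (cp μ (n + 1)) +
          RR μ κ K j (n + 1) (μ.prod (cp μ (n + 1))) := by
      rw [b2]
      unfold XX
      push_cast
      ring
    rw [c1, c2, mul_add]
    exact ⟨add_nonneg a1 b4, add_le_add a2 b3⟩

/-- telescoping -/
theorem tele (f : ℕ → ℝ) (n N : ℕ) :
    ∑ i ∈ Finset.range N, (f (i + n) - f i) = ∑ i ∈ Finset.range n, (f (N + i) - f i) := by
  induction N with
  | zero => simp
  | succ N ih =>
    rw [Finset.sum_range_succ, ih]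
    have h := Finset.sum_range_sub (fun i => f (N + i)) n
    have h2 : ∑ i ∈ Finset.range n, (f (N + 1 + i) - f i) =
        ∑ i ∈ Finset.range n, (f (N + i) - f i) +
          ∑ i ∈ Finset.range n, (f (N + (i + 1)) - f (N + i)) := by
      rw [← Finset.sum_add_distrib]
      refine Finset.sum_congr rfl fun i _ => ?_
      rw [show N + 1 + i = N + (i + 1) by ring]
      ring
    rw [h2, h]
    simp

/-- the mean values are bounded -/
theorem bound (hμ : Inv μ) (hext : Ext μ) (hκ : ∀ N, IsLim U (cp μ N) (κ N)) {m n : ℕ}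
    (hm : 1 ≤ m) (hmn : m < n) {ρ : Measure Tor} [IsProbabilityMeasure ρ] (hρ : Inv ρ)
    {c : ℝ≥0∞} (hc : c ≠ ⊤) (h1 : ρ ≤ c • cp μ n) (h2 : ρ ≤ c • cp μ m) {A : ℝ}
    (hA : Eb μ κ K 1 ≤ A) (N : ℕ) :
    Eb μ κ K (N + 1) ≤ (1 + c.toReal * n ^ 2) * A := by
  have hA0 : 0 ≤ A := (Eb_nonneg K 1).trans hA
  have hae := lim_unique (hκ n) (hκ m) hc h1 h2
  have hEE : ∀ j, EE μ κ K j n ρ = EE μ κ K j m ρ := by
    intro j
    unfold EE
    refine integral_congr_ae ?_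
    have h' : ∀ᵐ z ∂(ρ.prod (cp μ j)), κ n z.1 = κ m z.1 :=
      Measure.quasiMeasurePreserving_fst.ae hae
    filter_upwards [h'] with z hz
    rw [ck_apply, ck_apply, hz]
  obtain ⟨n', rfl⟩ : ∃ n', n = n' + 1 := ⟨n - 1, by omega⟩
  obtain ⟨m', rfl⟩ : ∃ m', m = m' + 1 := ⟨m - 1, by omega⟩
  have key : ∀ j, Eb μ κ K (j + 1) - Eb μ κ K j ≤
      c.toReal * (((n' + 1 : ℕ) : ℝ) * (Eb μ κ K (j + 1) - Eb μ κ K j) -
        (Eb μ κ K (j + (n' + 1)) - Eb μ κ K j)) := by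
    intro j
    have a1 := (XX_le K hμ hext hκ j hc n' ρ inferInstance hρ h1).2
    have a2 := (XX_le K hμ hext hκ j hc m' ρ inferInstance hρ h2).1
    unfold XX at a1 a2
    rw [Eb_add K hκ, add_comm (n' + 1) j] at a1
    rw [← hEE j] at a2
    have a3 := Eb_mono K hκ j
    have a4 : ((m' + 1 : ℕ) : ℝ) + 1 ≤ ((n' + 1 : ℕ) : ℝ) := by
      exact_mod_cast hmn
    have a5 : (((m' + 1 : ℕ) : ℝ) + 1) * (Eb μ κ K (j + 1) - Eb μ κ K j) ≤
        ((n' + 1 : ℕ) : ℝ) * (Eb μ κ K (j + 1) - Eb μ κ K j) :=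
      mul_le_mul_of_nonneg_right a4 (by linarith)
    have a6 : c.toReal * (Eb μ κ K j + ((n' + 1 : ℕ) : ℝ) * (Eb μ κ K (j + 1) - Eb μ κ K j) -
        Eb μ κ K (j + (n' + 1))) =
        c.toReal * (((n' + 1 : ℕ) : ℝ) * (Eb μ κ K (j + 1) - Eb μ κ K j) -
        (Eb μ κ K (j + (n' + 1)) - Eb μ κ K j)) := by ring
    linarith
  have hmono : Monotone fun i => Eb μ κ K i := monotone_nat_of_le_succ fun j => Eb_mono K hκ j
  have hlin : ∀ i, Eb μ κ K (i + 1) ≤ (i + 1 : ℝ) * A := by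
    intro i
    induction i with
    | zero =>
      simpa using hA
    | succ i ih =>
      have := Eb_le K hκ (i + 1)
      push_cast
      linarith
  have hsum : ∑ i ∈ Finset.range N, (Eb μ κ K (i + 1 + 1) - Eb μ κ K (i + 1)) ≤
      ∑ i ∈ Finset.range N, c.toReal * (((n' + 1 : ℕ) : ℝ) *
        (Eb μ κ K (i + 1 + 1) - Eb μ κ K (i + 1)) -
          (Eb μ κ K (i + 1 + (n' + 1)) - Eb μ κ K (i + 1))) :=
    Finset.sum_le_sum fun i _ => key (i + 1)
  have ht := tele (fun i => Eb μ κ K (i + 1)) (n' + 1) N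
  have hs := Finset.sum_range_sub (fun i => Eb μ κ K (i + 1)) N
  have e6 : ∑ i ∈ Finset.range N, c.toReal * (((n' + 1 : ℕ) : ℝ) *
        (Eb μ κ K (i + 1 + 1) - Eb μ κ K (i + 1)) -
          (Eb μ κ K (i + 1 + (n' + 1)) - Eb μ κ K (i + 1))) =
      c.toReal * (((n' + 1 : ℕ) : ℝ) *
        (∑ i ∈ Finset.range N, (Eb μ κ K (i + 1 + 1) - Eb μ κ K (i + 1))) -
          ∑ i ∈ Finset.range N, (Eb μ κ K (i + 1 + (n' + 1)) - Eb μ κ K (i + 1))) := by
    rw [← Finset.mul_sum, Finset.mul_sum (Finset.range N) _ (((n' + 1 : ℕ) : ℝ)),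
      ← Finset.sum_sub_distrib]
  rw [e6] at hsum
  have e1 : ∑ i ∈ Finset.range N, (Eb μ κ K (i + 1 + (n' + 1)) - Eb μ κ K (i + 1)) =
      ∑ i ∈ Finset.range (n' + 1), (Eb μ κ K (N + i + 1) - Eb μ κ K (i + 1)) := by
    rw [← ht]
    refine Finset.sum_congr rfl fun i _ => ?_
    rw [show i + 1 + (n' + 1) = i + (n' + 1) + 1 by ring]
  have e2 : ((n' + 1 : ℕ) : ℝ) * (Eb μ κ K (N + 1) - ((n' + 1 : ℕ) : ℝ) * A) ≤
      ∑ i ∈ Finset.range (n' + 1), (Eb μ κ K (N + i + 1) - Eb μ κ K (i + 1)) := by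
    have h3 : ∑ i ∈ Finset.range (n' + 1), (Eb μ κ K (N + 1) - ((n' + 1 : ℕ) : ℝ) * A) ≤
        ∑ i ∈ Finset.range (n' + 1), (Eb μ κ K (N + i + 1) - Eb μ κ K (i + 1)) := by
      refine Finset.sum_le_sum fun i hi => ?_
      have b1 : Eb μ κ K (N + 1) ≤ Eb μ κ K (N + i + 1) := hmono (by omega)
      have b2 := hlin i
      have b3 : (i + 1 : ℝ) * A ≤ ((n' + 1 : ℕ) : ℝ) * A := by
        refine mul_le_mul_of_nonneg_right ?_ hA0
        have := Finset.mem_range.1 hi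
        exact_mod_cast this
      linarith
    rwa [Finset.sum_const, Finset.card_range, nsmul_eq_mul] at h3
  rw [e1] at hsum
  have e3 : ∑ i ∈ Finset.range N, (Eb μ κ K (i + 1 + 1) - Eb μ κ K (i + 1)) =
      Eb μ κ K (N + 1) - Eb μ κ K 1 := by
    rw [← hs]
  rw [e3] at hsum
  have h0 := Eb_nonneg (μ := μ) (κ := κ) K 1
  have e4 : ((n' + 1 : ℕ) : ℝ) * (Eb μ κ K (N + 1) - Eb μ κ K 1) -
      ∑ i ∈ Finset.range (n' + 1), (Eb μ κ K (N + i + 1) - Eb μ κ K (i + 1)) ≤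
      ((n' + 1 : ℕ) : ℝ) ^ 2 * A := by
    have : 0 ≤ ((n' + 1 : ℕ) : ℝ) * Eb μ κ K 1 := mul_nonneg (by positivity) h0
    nlinarith
  have e5 := mul_le_mul_of_nonneg_left e4 (ENNReal.toReal_nonneg (a := c))
  linarith

end Helper75.IP.C
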