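import Mathlib
import Pool.Agent.Helper75.IP.Core2
import Pool.Agent.Helper88.IP.Ker
import Pool.Agent.Helper39.IP.Lim
import Pool.Agent.Helper16.IP.En

/-!
# Independent powers: conclusion of the core
-/

set_option autoImplicit false
open MeasureTheory Filter Topology ProbabilityTheory Helper35.AG
open scoped ENNReal

namespace Helper75.IP.C

open Helper75.IP Helper25.IP Helper26.IP Helper88.IP Helper39.IP Helper16.IP

variable {U : Ultrafilter ℕ} {μ : Measure Tor} [IsProbabilityMeasure μ]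
  {κ : ℕ → Kernel Tor Tor} [∀ N, IsMarkovKernel (κ N)]

variable (μ κ) in
/-- the quadratic mean of a Fourier coefficient -/
noncomputable def qq (j : ℤ) (N : ℕ) : ℝ :=
  ∫ w, ‖∫ y, (fourier j y : ℂ) ∂(κ N w)‖ ^ 2 ∂(cp μ N)

theorem meas_coef (j : ℤ) (N : ℕ) :
    Measurable fun w => ‖∫ y, (fourier j y : ℂ) ∂(κ N w)‖ ^ 2 :=
  ((Helper88.IP.measurable_coef (κ N) j).measurable.norm).pow_const 2

theorem qq_succ (hκ : ∀ N, IsLim U (cp μ N) (κ N)) (j : ℤ) (N : ℕ) :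
    qq μ κ j (N + 1) = qq μ κ j 1 * qq μ κ j N := by
  have e1 : qq μ κ j 1 = ∫ w, ‖∫ y, (fourier j y : ℂ) ∂(κ 1 w)‖ ^ 2 ∂μ := by
    unfold qq
    rw [cp_one]
  rw [e1]
  unfold qq
  show ∫ w, ‖∫ y, (fourier j y : ℂ) ∂(κ (N + 1) w)‖ ^ 2 ∂(conv μ (cp μ N)) = _
  rw [int_conv _ _ (meas_coef j (N + 1)), ← integral_prod_mul
    (fun w => ‖∫ y, (fourier j y : ℂ) ∂(κ 1 w)‖ ^ 2)
    (fun w => ‖∫ y, (fourier j y : ℂ) ∂(κ N w)‖ ^ 2)]
  refine integral_congr_ae ?_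
  have h := lim_conv (lim_one hκ) (hκ N) (hκ (N + 1))
  filter_upwards [h] with p hp
  show ‖∫ y, (fourier j y : ℂ) ∂(κ (N + 1) (p.1 + p.2))‖ ^ 2 = _
  rw [hp, Helper16.SAG.fourier_conv, norm_mul, mul_pow]

theorem qq_pow (hκ : ∀ N, IsLim U (cp μ N) (κ N)) (j : ℤ) (N : ℕ) :
    qq μ κ j N = qq μ κ j 1 ^ N * qq μ κ j 0 := by
  induction N with
  | zero => simp
  | succ N ih => rw [qq_succ hκ, ih, pow_succ]; ring

theorem core {μ : Measure Tor} [IsProbabilityMeasure μ] (hμ : Inv μ) (hext : Ext μ)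
    (hU : (U : Filter ℕ) ≤ atTop) (hR : ¬ Rigid μ) {m n : ℕ} (hm : 1 ≤ m) (hmn : m < n)
    {ρ : Measure Tor} [IsProbabilityMeasure ρ] (hρ : Inv ρ) {c : ℝ≥0∞} (hc : c ≠ ⊤)
    (h1 : ρ ≤ c • cp μ n) (h2 : ρ ≤ c • cp μ m) :
    ∃ C : ℝ, ∀ K : ℕ, K * Real.log 2 ≤ C * (ent μ K + Real.log 2) := by
  choose κ hM hκ using fun N => exists_lim U (cp μ N)
  have hκ' : ∀ N, IsLim U (cp μ N) (κ N) := hκ
  haveI : ∀ N, IsMarkovKernel (κ N) := hM
  refine ⟨1 + c.toReal * n ^ 2, fun K => ?_⟩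
  have hA : Eb μ κ K 1 ≤ ent μ K + Real.log 2 := by
    have a1 : Eb μ κ K 1 = ∫ u, en K (κ 1 u) ∂μ := by
      unfold Eb
      rw [cp_one]
    rw [a1]
    refine (en_bind K μ (κ 1)).trans ?_
    rw [bind_eq hμ (lim_one hκ')]
    exact en_le_ent K μ
  have hb := fun N => bound K hμ hext hκ' hm hmn hρ hc h1 h2 hA N
  have hlim := en_lim K (fun N => cp μ N) κ fun j hj => by
    show Tendsto (fun N => qq μ κ j N) atTop (𝓝 0)
    have h0 : 0 ≤ qq μ κ j 1 := integral_nonneg fun _ => by positivity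
    have h3 : qq μ κ j 1 < 1 := by
      by_contra hcon
      push_neg at hcon
      refine hR (rigid_of_one hU (lim_one hκ') hj ?_)
      unfold qq at hcon
      rwa [cp_one] at hcon
    have h4 := (tendsto_pow_atTop_nhds_zero_of_lt_one h0 h3).mul_const (qq μ κ j 0)
    rw [zero_mul] at h4
    exact h4.congr fun N => (qq_pow hκ' j N).symm
  have hlim' := (tendsto_add_atTop_iff_nat 1).2 hlim
  exact le_of_tendsto' hlim' hb

end Helper75.IP.C
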