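import Mathlib
import Pool.Agent.Helper75.IP.DefsG

/-!
# Independent powers for monomials: rigid factors
-/

set_option autoImplicit false
open MeasureTheory Filter Topology ProbabilityTheory Helper35.AG
open scoped ENNReal

namespace Helper75.IP.F

open Helper75.IP

/-- mean square distance of a character from `z` -/
noncomputable def Dz (z : ℂ) (n : ℤ) (α : Measure Tor) : ℝ :=
  ∫ x, ‖(fourier n x : ℂ) - z‖ ^ 2 ∂α

theorem cont_Dz (z : ℂ) (n : ℤ) : Continuous fun x : Tor => ‖(fourier n x : ℂ) - z‖ ^ 2 :=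
  (((fourier n).continuous.sub continuous_const).norm).pow 2

theorem int_cont {f : Tor → ℝ} (hf : Continuous f) (α : Measure Tor) [IsProbabilityMeasure α] :
    Integrable f α :=
  (BoundedContinuousFunction.mkOfCompact ⟨f, hf⟩).integrable α

theorem int_fourier (n : ℤ) (α : Measure Tor) [IsProbabilityMeasure α] :
    Integrable (fun x : Tor => (fourier n x : ℂ)) α := by
  have hc : Continuous fun y : Tor => (fourier n y : ℂ) := by fun_prop
  exact (BoundedContinuousFunction.mkOfCompact ⟨_, hc⟩).integrable α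

theorem norm_fourier (n : ℤ) (x : Tor) : ‖(fourier n x : ℂ)‖ = 1 := by
  rw [fourier_apply, Circle.norm_coe]

theorem Dz_eq {z : ℂ} (hz : ‖z‖ = 1) (n : ℤ) (α : Measure Tor) [IsProbabilityMeasure α] :
    Dz z n α = 2 - 2 * (star z * ∫ x, (fourier n x : ℂ) ∂α).re := by
  have hi := int_fourier n α
  have hire : Integrable (fun x : Tor => (star z * (fourier n x : ℂ)).re) α :=
    (hi.const_mul (star z)).re
  have e : ∀ x : Tor, ‖(fourier n x : ℂ) - z‖ ^ 2 = 2 - 2 * (star z * (fourier n x : ℂ)).re := by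
    intro x
    have h1 := norm_sub_sq (𝕜 := ℂ) (fourier n x : ℂ) z
    rw [norm_fourier, hz] at h1
    rw [h1]
    have h2 : RCLike.re (inner ℂ (fourier n x : ℂ) z) = (star z * (fourier n x : ℂ)).re := by
      have h3 := inner_re_symm (𝕜 := ℂ) (fourier n x : ℂ) z
      rw [h3]
      show (inner ℂ z (fourier n x : ℂ)).re = _
      rw [RCLike.inner_apply, Complex.star_def, mul_comm]
    rw [h2]
    ring
  unfold Dz
  simp only [e]
  rw [integral_sub (integrable_const _) (hire.const_mul 2), integral_const_mul]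
  have h2 : ∫ x, (star z * (fourier n x : ℂ)).re ∂α =
      (star z * ∫ x, (fourier n x : ℂ) ∂α).re := by
    have h3 := integral_re (𝕜 := ℂ) (hi.const_mul (star z))
    have h4 : (RCLike.re : ℂ → ℝ) = Complex.re := rfl
    rw [h4] at h3
    rw [h3, integral_const_mul]
  rw [h2]
  simp

theorem W_le (n : ℤ) {α : Measure Tor} [IsProbabilityMeasure α] (hα : Inv α) :
    W n α ≤ 44 * (1 - ‖∫ x, (fourier n x : ℂ) ∂α‖) := by
  by_cases h0 : (∫ x, (fourier n x : ℂ) ∂α) = 0
  · rw [h0, norm_zero]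
    have h1 : W n α ≤ ∫ _x : Tor, (4 : ℝ) ∂α := by
      unfold W
      refine integral_mono (int_cont (cont_Dz 1 n) α) (integrable_const _) fun x => ?_
      have h2 := norm_sub_le (fourier n x : ℂ) 1
      rw [norm_fourier, norm_one] at h2
      have h3 := norm_nonneg ((fourier n x : ℂ) - 1)
      show ‖(fourier n x : ℂ) - 1‖ ^ 2 ≤ 4
      nlinarith
    have h2 : ∫ _x : Tor, (4 : ℝ) ∂α = 4 := by simp
    linarith
  · obtain ⟨z0, hz0⟩ : ∃ z0 : ℂ, z0 = (∫ x, (fourier n x : ℂ) ∂α) /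
        ‖∫ x, (fourier n x : ℂ) ∂α‖ := ⟨_, rfl⟩
    have hn0 : ‖∫ x, (fourier n x : ℂ) ∂α‖ ≠ 0 := norm_ne_zero_iff.2 h0
    have hz : ‖z0‖ = 1 := by
      rw [hz0, norm_div, Complex.norm_real, norm_norm, div_self hn0]
    have hD : Dz z0 n α = 2 * (1 - ‖∫ x, (fourier n x : ℂ) ∂α‖) := by
      rw [Dz_eq hz]
      have h1 : star z0 * ∫ x, (fourier n x : ℂ) ∂α = ((‖∫ x, (fourier n x : ℂ) ∂α‖ : ℝ) : ℂ) := by
        rw [hz0, Complex.star_def, map_div₀, Complex.conj_ofReal, div_mul_eq_mul_div, mul_comm,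
          Complex.mul_conj, Complex.normSq_eq_norm_sq]
        have : ((‖∫ x, (fourier n x : ℂ) ∂α‖ : ℝ) : ℂ) ≠ 0 := by exact_mod_cast hn0
        push_cast
        field_simp
      rw [h1, Complex.ofReal_re]
      ring
    have hinv : ∫ x : Tor, ‖(fourier n ((2 : ℕ) • x) : ℂ) - z0‖ ^ 2 ∂α = Dz z0 n α := by
      have h1 := integral_map (μ := α) (f := fun x : Tor => ‖(fourier n x : ℂ) - z0‖ ^ 2)
        hα.two.measurable.aemeasurable (cont_Dz z0 n).aestronglyMeasurable
      rw [hα.two.map_eq] at h1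
      exact h1.symm
    have hc2 : Continuous fun x : Tor => ‖(fourier n ((2 : ℕ) • x) : ℂ) - z0‖ ^ 2 :=
      (cont_Dz z0 n).comp (by fun_prop)
    have e2 : ∀ x : Tor, (fourier n ((2 : ℕ) • x) : ℂ) = fourier n x * fourier n x := by
      intro x
      rw [two_nsmul, fourier_apply, fourier_apply, smul_add, AddCircle.toCircle_add]
      rfl
    have hz2 : ‖z0 * z0 - z0‖ ^ 2 ≤ 10 * Dz z0 n α := by
      have h1 : ∫ _x : Tor, ‖z0 * z0 - z0‖ ^ 2 ∂α ≤ ∫ x : Tor, (8 * ‖(fourier n x : ℂ) - z0‖ ^ 2 +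
          2 * ‖(fourier n ((2 : ℕ) • x) : ℂ) - z0‖ ^ 2) ∂α := by
        refine integral_mono (integrable_const _) (((int_cont (cont_Dz z0 n) α).const_mul 8).add
          ((int_cont hc2 α).const_mul 2)) fun x => ?_
        show ‖z0 * z0 - z0‖ ^ 2 ≤ 8 * ‖(fourier n x : ℂ) - z0‖ ^ 2 +
          2 * ‖(fourier n ((2 : ℕ) • x) : ℂ) - z0‖ ^ 2
        have h2 : ‖z0 * z0 - z0‖ ≤ 2 * ‖(fourier n x : ℂ) - z0‖ +
            ‖(fourier n ((2 : ℕ) • x) : ℂ) - z0‖ := by
          have h3 : z0 * z0 - z0 = -(((fourier n x : ℂ) + z0) * ((fourier n x : ℂ) - z0)) +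
              ((fourier n ((2 : ℕ) • x) : ℂ) - z0) := by
            rw [e2]
            ring
          rw [h3]
          refine (norm_add_le _ _).trans ?_
          rw [norm_neg, norm_mul]
          have h4 := norm_add_le (fourier n x : ℂ) z0
          rw [norm_fourier, hz] at h4
          have h5 := mul_le_mul_of_nonneg_right h4 (norm_nonneg ((fourier n x : ℂ) - z0))
          linarith
        have h6 := norm_nonneg ((fourier n x : ℂ) - z0)
        have h7 := norm_nonneg ((fourier n ((2 : ℕ) • x) : ℂ) - z0)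
        have h8 := norm_nonneg (z0 * z0 - z0)
        nlinarith [sq_nonneg (2 * ‖(fourier n x : ℂ) - z0‖ -
          ‖(fourier n ((2 : ℕ) • x) : ℂ) - z0‖)]
      rw [integral_add ((int_cont (cont_Dz z0 n) α).const_mul 8) ((int_cont hc2 α).const_mul 2),
        integral_const_mul, integral_const_mul, hinv] at h1
      have h2 : ∫ _x : Tor, ‖z0 * z0 - z0‖ ^ 2 ∂α = ‖z0 * z0 - z0‖ ^ 2 := by simp
      rw [h2] at h1
      unfold Dz at h1 ⊢
      linarith
    have hz1 : ‖z0 - 1‖ ^ 2 ≤ 10 * Dz z0 n α := by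
      have h1 : z0 * z0 - z0 = z0 * (z0 - 1) := by ring
      rw [h1, norm_mul, hz, one_mul] at hz2
      exact hz2
    have h9 : W n α ≤ ∫ x : Tor, (2 * ‖(fourier n x : ℂ) - z0‖ ^ 2 + 2 * ‖z0 - 1‖ ^ 2) ∂α := by
      unfold W
      refine integral_mono (int_cont (cont_Dz 1 n) α) (((int_cont (cont_Dz z0 n) α).const_mul
        2).add (integrable_const _)) fun x => ?_
      show ‖(fourier n x : ℂ) - 1‖ ^ 2 ≤ 2 * ‖(fourier n x : ℂ) - z0‖ ^ 2 + 2 * ‖z0 - 1‖ ^ 2
      have h3 : (fourier n x : ℂ) - 1 = ((fourier n x : ℂ) - z0) + (z0 - 1) := by ring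
      have h4 := norm_add_le ((fourier n x : ℂ) - z0) (z0 - 1)
      rw [← h3] at h4
      have h5 := norm_nonneg ((fourier n x : ℂ) - 1)
      nlinarith [sq_nonneg (‖(fourier n x : ℂ) - z0‖ - ‖z0 - 1‖)]
    rw [integral_add ((int_cont (cont_Dz z0 n) α).const_mul 2) (integrable_const _),
      integral_const_mul] at h9
    have h10 : ∫ _x : Tor, 2 * ‖z0 - 1‖ ^ 2 ∂α = 2 * ‖z0 - 1‖ ^ 2 := by simp
    rw [h10] at h9
    have h11 : ∫ x : Tor, ‖(fourier n x : ℂ) - z0‖ ^ 2 ∂α = Dz z0 n α := rfl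
    rw [h11] at h9
    linarith

theorem norm_ft_le (n : ℤ) (α : Measure Tor) [IsProbabilityMeasure α] :
    ‖∫ x, (fourier n x : ℂ) ∂α‖ ≤ 1 := by
  refine (norm_integral_le_of_norm_le_const (C := 1) (Eventually.of_forall fun y => ?_)).trans ?_
  · rw [norm_fourier]
  · simp

theorem W_conv_ge (n : ℤ) (α β : Measure Tor) [IsProbabilityMeasure α] [IsProbabilityMeasure β] :
    2 * (1 - ‖∫ x, (fourier n x : ℂ) ∂α‖) ≤ W n (conv α β) := by
  have h1 : W n (conv α β) = Dz 1 n (conv α β) := rfl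
  rw [h1, Dz_eq norm_one, star_one, one_mul, Helper16.SAG.fourier_conv]
  have h2 := Complex.re_le_norm ((∫ x, (fourier n x : ℂ) ∂α) * ∫ x, (fourier n x : ℂ) ∂β)
  rw [norm_mul] at h2
  have h3 := mul_le_mul_of_nonneg_left (norm_ft_le n β)
    (norm_nonneg (∫ x, (fourier n x : ℂ) ∂α))
  linarith

/-- **RF** rigidity of a convolution passes to the factors -/
theorem rigid_factor {α β : Measure Tor} [IsProbabilityMeasure α] [IsProbabilityMeasure β]
    (hα : Inv α) (hβ : Inv β) {N : ℕ → ℤ}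
    (h : Tendsto (fun k => W (N k) (conv α β)) atTop (𝓝 0)) :
    Tendsto (fun k => W (N k) α) atTop (𝓝 0) ∧ Tendsto (fun k => W (N k) β) atTop (𝓝 0) := by
  have hl : Tendsto (fun k => 22 * W (N k) (conv α β)) atTop (𝓝 0) := by
    have := h.const_mul 22
    rwa [mul_zero] at this
  have h0 : ∀ (n : ℤ) (α : Measure Tor), 0 ≤ W n α := fun n α =>
    integral_nonneg fun _ => by positivity
  refine ⟨squeeze_zero (fun k => h0 _ _) (fun k => ?_) hl,
    squeeze_zero (fun k => h0 _ _) (fun k => ?_) hl⟩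
  · have h1 := W_le (N k) hα
    have h2 := W_conv_ge (N k) α β
    linarith
  · have h1 := W_le (N k) hβ
    have h2 := W_conv_ge (N k) β α
    rw [Helper40.AG.conv_comm] at h2
    linarith

end Helper75.IP.F
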