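import Mathlib
import Pool.Agent.Helper75.IP.DefsG
import Pool.Agent.Helper88.IP.Ker

/-!
# Independent powers for monomials: limit kernel of a reflection
-/

set_option autoImplicit false
open MeasureTheory Filter Topology ProbabilityTheory Helper35.AG
open scoped ENNReal

namespace Helper75.IP.F

open Helper75.IP

variable {U : Ultrafilter ℕ}

theorem fourier_neg_arg (j : ℤ) (x : Tor) : (fourier j (-x) : ℂ) = fourier (-j) x := by
  rw [fourier_apply, fourier_apply, smul_neg, neg_smul]

theorem lim_refl {α : Measure Tor} [IsProbabilityMeasure α] {κ : Kernel Tor Tor}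
    [IsMarkovKernel κ] (h : IsLim U α κ) :
    IsLim U (Helper75.IP.refl α) ((κ.comap (fun x => -x) measurable_neg).map fun x => -x) := by
  intro j a ha
  have he : MeasurableEmbedding fun x : Tor => -x := (MeasurableEquiv.neg Tor).measurableEmbedding
  have hint : ∀ f : Tor → ℂ, ∫ w, f w ∂(Helper75.IP.refl α) = ∫ w, f (-w) ∂α := fun f =>
    he.integral_map f
  have ha' : Integrable (fun w => a (-w)) α := (he.integrable_map_iff).1 ha
  have h1 := h (-j) (fun w => a (-w)) ha'
  have e1 : ∀ k : ℕ, ∫ w, a w * fourier j ((2 ^ k : ℕ) • w) ∂(Helper75.IP.refl α) =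
      ∫ w, a (-w) * fourier (-j) ((2 ^ k : ℕ) • w) ∂α := by
    intro k
    rw [hint]
    refine integral_congr_ae (Eventually.of_forall fun w => ?_)
    show a (-w) * fourier j ((2 ^ k : ℕ) • (-w)) = a (-w) * fourier (-j) ((2 ^ k : ℕ) • w)
    rw [smul_neg, fourier_neg_arg]
  have e2 : ∫ w, a w * ∫ y, (fourier j y : ℂ)
      ∂(((κ.comap (fun x => -x) measurable_neg).map fun x => -x) w) ∂(Helper75.IP.refl α) =
      ∫ w, a (-w) * ∫ y, (fourier (-j) y : ℂ) ∂(κ w) ∂α := by
    rw [hint]
    refine integral_congr_ae (Eventually.of_forall fun w => ?_)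
    show a (-w) * ∫ y, (fourier j y : ℂ)
      ∂(((κ.comap (fun x => -x) measurable_neg).map fun x => -x) (-w)) =
      a (-w) * ∫ y, (fourier (-j) y : ℂ) ∂(κ w)
    rw [Kernel.map_apply _ measurable_neg, Kernel.comap_apply, neg_neg, he.integral_map]
    simp only [fourier_neg_arg]
  simp only [e1]
  rw [e2]
  exact h1

end Helper75.IP.F
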