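import Mathlib
import Pool.Agent.Helper75.IP.DefsG

/-!
# Independent powers for monomials: reflection and rigid factors
-/

set_option autoImplicit false
open MeasureTheory Filter Topology ProbabilityTheory Helper35.AG
open scoped ENNReal

namespace Helper75.IP.F

open Helper75.IP

theorem refl_conv (α β : Measure Tor) [IsProbabilityMeasure α] [IsProbabilityMeasure β] :
    Helper75.IP.refl (conv α β) = conv (Helper75.IP.refl α) (Helper75.IP.refl β) := by
  unfold Helper75.IP.refl conv
  rw [Measure.map_map measurable_neg (by fun_prop),
    Measure.map_prod_map α β measurable_neg measurable_neg, Measure.map_map (by fun_prop)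
      (measurable_neg.prodMap measurable_neg)]
  congr 1
  funext p
  show -(p.1 + p.2) = -p.1 + -p.2
  rw [neg_add]

theorem refl_refl (μ : Measure Tor) : Helper75.IP.refl (Helper75.IP.refl μ) = μ := by
  unfold Helper75.IP.refl
  rw [Measure.map_map measurable_neg measurable_neg]
  have : ((fun x : Tor => -x) ∘ fun x => -x) = id := by
    funext x
    simp
  rw [this, Measure.map_id]

theorem mp_refl {μ : Measure Tor} {n : ℕ} (h : MeasurePreserving (fun x : Tor => n • x) μ μ) :
    MeasurePreserving (fun x : Tor => n • x) (Helper75.IP.refl μ) (Helper75.IP.refl μ) := by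
  refine ⟨h.measurable, ?_⟩
  unfold Helper75.IP.refl
  rw [Measure.map_map h.measurable measurable_neg]
  have e : ((fun x : Tor => n • x) ∘ fun x => -x) = (fun x : Tor => -x) ∘ fun x => n • x := by
    funext x
    simp
  rw [e, ← Measure.map_map measurable_neg h.measurable, h.map_eq]

theorem inv_refl {μ : Measure Tor} (h : Inv μ) : Inv (Helper75.IP.refl μ) :=
  ⟨mp_refl h.two, mp_refl h.three⟩

theorem good_refl {μ : Measure Tor} (h : Good μ) : Good (Helper75.IP.refl μ) := by
  have := h.prob
  refine ⟨Measure.isProbabilityMeasure_map measurable_neg.aemeasurable, inv_refl h.inv, ?_⟩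
  intro μ' c hp hi hc hle
  have h1 : Helper75.IP.refl μ' ≤ c • μ := by
    have h2 : Helper75.IP.refl μ' ≤ Helper75.IP.refl (c • Helper75.IP.refl μ) :=
      Measure.map_mono hle measurable_neg
    have h3 : Helper75.IP.refl (c • Helper75.IP.refl μ) = c • μ := by
      have h4 : Helper75.IP.refl (c • Helper75.IP.refl μ) =
          c • Helper75.IP.refl (Helper75.IP.refl μ) := by
        show (c • Helper75.IP.refl μ).map (fun x => -x) = _
        rw [Measure.map_smul]
        rfl
      rw [h4, refl_refl]
    rwa [h3] at h2
  have h5 := h.ext (Helper75.IP.refl μ') c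
    (Measure.isProbabilityMeasure_map measurable_neg.aemeasurable) (inv_refl hi) hc h1
  rw [← h5, refl_refl]

end Helper75.IP.F
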