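import Mathlib
import Pool.Agent.Helper75.IP.DefsG
import Pool.Agent.Helper75.IP.Refl
import Pool.Agent.Helper75.IP.LimRefl
import Pool.Agent.Helper16.IP.Refl
import Pool.Agent.Helper75.IP.Core3

/-!
# Independent powers for monomials: the core
-/

set_option autoImplicit false
open MeasureTheory Filter Topology ProbabilityTheory Helper35.AG
open scoped ENNReal

namespace Helper75.IP.G

open Helper75.IP Helper25.IP Helper88.IP Helper39.IP Helper16.IP
open Helper75.IP.C (int_fst int_snd en_add_le tele qq qq_pow)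
open Helper75.IP.F (refl_conv lim_refl)

variable (U : Ultrafilter ℕ) (K : ℕ)

/-- a limit kernel for every measure -/
noncomputable def kk (α : Measure Tor) : Kernel Tor Tor := by
  classical
  exact if h : ∃ κ : Kernel Tor Tor, IsMarkovKernel κ ∧ IsLim U α κ then h.choose
    else Kernel.const Tor (Measure.dirac 0)

instance kk_markov (α : Measure Tor) : IsMarkovKernel (kk U α) := by
  classical
  unfold kk
  split_ifs with h
  · exact h.choose_spec.1
  · infer_instance

theorem kk_lim (α : Measure Tor) [IsProbabilityMeasure α] : IsLim U α (kk U α) := by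
  classical
  have h : ∃ κ : Kernel Tor Tor, IsMarkovKernel κ ∧ IsLim U α κ := exists_lim U α
  unfold kk
  rw [dif_pos h]
  exact h.choose_spec.2

/-- mean entropy of the limit kernel -/
noncomputable def E (α : Measure Tor) : ℝ := ∫ u, en K (kk U α u) ∂α

/-- mean value for a product -/
noncomputable def EE (α γ ρ : Measure Tor) : ℝ :=
  ∫ p : Tor × Tor, en K (ck (kk U α) (kk U γ) p) ∂(ρ.prod γ)

/-- the defect -/
noncomputable def rr (μ α γ : Measure Tor) (z : (Tor × Tor) × Tor) : ℝ :=
  en K (ck (kk U μ) (kk U γ) (z.1.1, z.2)) + en K (ck (kk U α) (kk U γ) (z.1.2, z.2)) -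
    en K (ck (kk U μ) (ck (kk U γ) (kk U α)) (z.1.1, (z.2, z.1.2))) - en K (kk U γ z.2)

/-- the integrated defect -/
noncomputable def RR (μ α γ : Measure Tor) (J : Measure (Tor × Tor)) : ℝ :=
  ∫ z, rr U K μ α γ z ∂(J.prod γ)

/-- increment -/
noncomputable def del (ν γ : Measure Tor) : ℝ := E U K (conv ν γ) - E U K γ

theorem rr_nonneg (μ α γ : Measure Tor) (z : (Tor × Tor) × Tor) : 0 ≤ rr U K μ α γ z := by
  unfold rr
  rw [ck_apply, ck_apply, ck_apply, ck_apply]
  have h := en_sub K (kk U μ z.1.1) (kk U γ z.2) (kk U α z.1.2)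
  rw [Helper40.AG.conv_comm (kk U α z.1.2) (kk U γ z.2)]
  linarith

theorem meas1 (α γ : Measure Tor) :
    Measurable fun p : Tor × Tor => en K (ck (kk U α) (kk U γ) p) :=
  measurable_en _ K

theorem meas3 (μ α γ : Measure Tor) : Measurable fun z : (Tor × Tor) × Tor =>
    en K (ck (kk U μ) (ck (kk U γ) (kk U α)) (z.1.1, (z.2, z.1.2))) :=
  (measurable_en (ck (kk U μ) (ck (kk U γ) (kk U α))) K).comp (by fun_prop)

theorem meas_rr (μ α γ : Measure Tor) : Measurable (rr U K μ α γ) := by
  unfold rr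
  refine Measurable.sub (Measurable.sub (Measurable.add ?_ ?_) (meas3 U K μ α γ)) ?_
  · exact (meas1 U K μ γ).comp (by fun_prop)
  · exact (meas1 U K α γ).comp (by fun_prop)
  · exact (measurable_en (kk U γ) K).comp (by fun_prop)

theorem int_rr (μ α γ : Measure Tor) (J : Measure ((Tor × Tor) × Tor)) [IsProbabilityMeasure J] :
    Integrable (rr U K μ α γ) J := by
  refine integrable_bdd (meas_rr U K μ α γ) (c := 4 * (K * Real.log 2)) fun z => ?_
  unfold rr
  have h1 := abs_le.1 (abs_en K (ck (kk U μ) (kk U γ) (z.1.1, z.2)))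
  have h2 := abs_le.1 (abs_en K (ck (kk U α) (kk U γ) (z.1.2, z.2)))
  have h3 := abs_le.1 (abs_en K (ck (kk U μ) (ck (kk U γ) (kk U α)) (z.1.1, (z.2, z.1.2))))
  have h4 := abs_le.1 (abs_en K (kk U γ z.2))
  rw [abs_le]
  constructor <;> linarith [h1.1, h1.2, h2.1, h2.2, h3.1, h3.2, h4.1, h4.2]

theorem RR_nonneg (μ α γ : Measure Tor) (J : Measure (Tor × Tor)) : 0 ≤ RR U K μ α γ J :=
  integral_nonneg fun z => rr_nonneg U K μ α γ z

theorem RR_le (μ α γ : Measure Tor) [IsProbabilityMeasure γ] (J J0 : Measure (Tor × Tor))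
    [IsProbabilityMeasure J] [IsProbabilityMeasure J0] {c : ℝ≥0∞} (hc : c ≠ ⊤) (h : J ≤ c • J0) :
    RR U K μ α γ J ≤ c.toReal * RR U K μ α γ J0 := by
  have h1 : J.prod γ ≤ c • (J0.prod γ) := by
    rw [← Measure.prod_smul_left]
    exact Measure.prod_mono h le_rfl
  unfold RR
  have h2 := integral_mono_measure h1 (Eventually.of_forall fun z => rr_nonneg U K μ α γ z)
    ((int_rr U K μ α γ (J0.prod γ)).smul_measure hc)
  rwa [integral_smul_measure, smul_eq_mul] at h2

theorem E_nonneg (α : Measure Tor) : 0 ≤ E U K α := integral_nonneg fun _ => en_nonneg K _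

theorem E_conv (α β : Measure Tor) [IsProbabilityMeasure α] [IsProbabilityMeasure β] :
    E U K (conv α β) = EE U K α β α := by
  unfold E EE
  rw [int_conv _ _ (measurable_en (kk U (conv α β)) K)]
  refine integral_congr_ae ?_
  have h := lim_conv (kk_lim U α) (kk_lim U β) (kk_lim U (conv α β))
  filter_upwards [h] with p hp
  show en K (kk U (conv α β) (p.1 + p.2)) = en K (ck (kk U α) (kk U β) p)
  rw [hp, ck_apply]

theorem E_mono (ν γ : Measure Tor) [IsProbabilityMeasure ν] [IsProbabilityMeasure γ] :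
    E U K γ ≤ E U K (conv ν γ) := by
  rw [E_conv]
  unfold E EE
  rw [← int_snd ν γ (measurable_en (kk U γ) K)]
  refine integral_mono (int_en K (kk U γ |>.comap Prod.snd measurable_snd) (ν.prod γ))
    (int_en K _ _) fun p => ?_
  show en K (kk U γ p.2) ≤ en K (ck (kk U ν) (kk U γ) p)
  rw [ck_apply]
  exact en_conv_ge K _ _

theorem del_nonneg (ν γ : Measure Tor) [IsProbabilityMeasure ν] [IsProbabilityMeasure γ] :
    0 ≤ del U K ν γ := by
  have := E_mono U K ν γ
  unfold del
  linarith

theorem del_le (ν γ : Measure Tor) [IsProbabilityMeasure ν] [IsProbabilityMeasure γ] :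
    del U K ν γ ≤ E U K ν := by
  unfold del
  rw [E_conv]
  have e1 : E U K ν = ∫ p : Tor × Tor, en K (kk U ν p.1) ∂(ν.prod γ) := by
    unfold E
    have h : (ν.prod γ).map Prod.fst = ν := by
      rw [← Measure.fst, Measure.fst_prod]
    have h2 := integral_map (μ := ν.prod γ) (f := fun u : Tor => en K (kk U ν u))
      measurable_fst.aemeasurable (by
        rw [h]
        exact (measurable_en (kk U ν) K).aestronglyMeasurable)
    rw [h] at h2
    exact h2
  have e2 : E U K γ = ∫ p : Tor × Tor, en K (kk U γ p.2) ∂(ν.prod γ) := by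
    unfold E
    rw [← int_snd ν γ (measurable_en (kk U γ) K)]
  have i1 : Integrable (fun p : Tor × Tor => en K (kk U ν p.1)) (ν.prod γ) :=
    int_en K (kk U ν |>.comap Prod.fst measurable_fst) _
  have i2 : Integrable (fun p : Tor × Tor => en K (kk U γ p.2)) (ν.prod γ) :=
    int_en K (kk U γ |>.comap Prod.snd measurable_snd) _
  rw [e1, e2, sub_le_iff_le_add, ← integral_add i1 i2]
  refine integral_mono (int_en K _ _) (i1.add i2) fun p => ?_
  show en K (ck (kk U ν) (kk U γ) p) ≤ en K (kk U ν p.1) + en K (kk U γ p.2)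
  rw [ck_apply]
  exact en_add_le K _ _

/-- the formula for the integrated defect -/
theorem RR_eq (μ α γ : Measure Tor) [IsProbabilityMeasure μ] [IsProbabilityMeasure α]
    [IsProbabilityMeasure γ] (J : Measure (Tor × Tor))
    [IsProbabilityMeasure J] (hJ : J ≪ μ.prod α) (hfst : J.map Prod.fst = μ) :
    RR U K μ α γ J = E U K (conv μ γ) + EE U K α γ (J.map Prod.snd) -
      EE U K (conv μ α) γ (J.map fun p => p.1 + p.2) - E U K γ := by
  have i1 : Integrable (fun z : (Tor × Tor) × Tor => en K (ck (kk U μ) (kk U γ) (z.1.1, z.2)))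
      (J.prod γ) :=
    integrable_bdd ((meas1 U K μ γ).comp (by fun_prop)) fun z => abs_en K _
  have i2 : Integrable (fun z : (Tor × Tor) × Tor => en K (ck (kk U α) (kk U γ) (z.1.2, z.2)))
      (J.prod γ) :=
    integrable_bdd ((meas1 U K α γ).comp (by fun_prop)) fun z => abs_en K _
  have i3 : Integrable (fun z : (Tor × Tor) × Tor =>
      en K (ck (kk U μ) (ck (kk U γ) (kk U α)) (z.1.1, (z.2, z.1.2)))) (J.prod γ) :=
    integrable_bdd (meas3 U K μ α γ) fun z => abs_en K _
  have i4 : Integrable (fun z : (Tor × Tor) × Tor => en K (kk U γ z.2)) (J.prod γ) :=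
    integrable_bdd ((measurable_en (kk U γ) K).comp measurable_snd) fun z => abs_en K _
  have e1 : ∫ z : (Tor × Tor) × Tor, en K (ck (kk U μ) (kk U γ) (z.1.1, z.2)) ∂(J.prod γ) =
      E U K (conv μ γ) := by
    rw [int_fst J γ measurable_fst (meas1 U K μ γ), hfst, E_conv]
    rfl
  have e2 : ∫ z : (Tor × Tor) × Tor, en K (ck (kk U α) (kk U γ) (z.1.2, z.2)) ∂(J.prod γ) =
      EE U K α γ (J.map Prod.snd) := by
    rw [int_fst J γ measurable_snd (meas1 U K α γ)]
    rfl
  have e4 : ∫ z : (Tor × Tor) × Tor, en K (kk U γ z.2) ∂(J.prod γ) = E U K γ :=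
    int_snd J γ (measurable_en (kk U γ) K)
  have e3 : ∫ z : (Tor × Tor) × Tor, en K (ck (kk U μ) (ck (kk U γ) (kk U α))
      (z.1.1, (z.2, z.1.2))) ∂(J.prod γ) = EE U K (conv μ α) γ (J.map fun p => p.1 + p.2) := by
    unfold EE
    rw [← int_fst J γ (f := fun p : Tor × Tor => p.1 + p.2) (by fun_prop)
      (meas1 U K (conv μ α) γ)]
    refine integral_congr_ae ?_
    have h := hJ.ae_le (lim_conv (kk_lim U μ) (kk_lim U α) (kk_lim U (conv μ α)))
    have h' : ∀ᵐ z ∂(J.prod γ), kk U (conv μ α) (z.1.1 + z.1.2) =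
        conv (kk U μ z.1.1) (kk U α z.1.2) :=
      Measure.quasiMeasurePreserving_fst.ae h
    filter_upwards [h'] with z hz
    show en K (ck (kk U μ) (ck (kk U γ) (kk U α)) (z.1.1, (z.2, z.1.2))) =
      en K (ck (kk U (conv μ α)) (kk U γ) (z.1.1 + z.1.2, z.2))
    rw [ck_apply, ck_apply, ck_apply, hz]
    show en K (conv (kk U μ z.1.1) (conv (kk U γ z.2) (kk U α z.1.2))) =
      en K (conv (conv (kk U μ z.1.1) (kk U α z.1.2)) (kk U γ z.2))
    rw [conv_assoc, Helper40.AG.conv_comm (kk U γ z.2) (kk U α z.1.2)]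
  have j1 : Integrable (fun z : (Tor × Tor) × Tor => en K (ck (kk U μ) (kk U γ) (z.1.1, z.2)) +
      en K (ck (kk U α) (kk U γ) (z.1.2, z.2))) (J.prod γ) := i1.add i2
  have j2 : Integrable (fun z : (Tor × Tor) × Tor => en K (ck (kk U μ) (kk U γ) (z.1.1, z.2)) +
      en K (ck (kk U α) (kk U γ) (z.1.2, z.2)) -
      en K (ck (kk U μ) (ck (kk U γ) (kk U α)) (z.1.1, (z.2, z.1.2)))) (J.prod γ) := j1.sub i3
  unfold RR rr
  rw [integral_sub j2 i4, integral_sub j1 i3, integral_add i1 i2, e1, e2, e3, e4]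

/-- submodularity -/
theorem del_anti (ν α γ : Measure Tor) [IsProbabilityMeasure ν] [IsProbabilityMeasure α]
    [IsProbabilityMeasure γ] : del U K ν (conv α γ) ≤ del U K ν γ := by
  have h := RR_eq U K ν α γ (ν.prod α) Measure.AbsolutelyContinuous.rfl
    (by rw [← Measure.fst, Measure.fst_prod])
  have h0 := RR_nonneg U K ν α γ (ν.prod α)
  have e1 : (ν.prod α).map Prod.snd = α := by rw [← Measure.snd, Measure.snd_prod]
  have e2 : (ν.prod α).map (fun p => p.1 + p.2) = conv ν α := rfl
  rw [e1, e2, ← E_conv, ← E_conv, conv_assoc] at h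
  unfold del
  linarith

/-- the deficit -/
noncomputable def XX (L : List (Measure Tor)) (γ ρ : Measure Tor) : ℝ :=
  E U K γ + (L.map fun ν => del U K ν γ).sum - EE U K (cpl L) γ ρ

theorem eq_dirac {ρ : Measure Tor} [IsProbabilityMeasure ρ] {c : ℝ≥0∞}
    (h : ρ ≤ c • Measure.dirac (0 : Tor)) : ρ = Measure.dirac 0 := by
  have h1 : ∀ s : Set Tor, MeasurableSet s → (0 : Tor) ∉ s → ρ s = 0 := by
    intro s hs h0
    have h2 := h s
    rw [Measure.smul_apply, Measure.dirac_apply' _ hs, Set.indicator_of_notMem h0, smul_zero] at h2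
    exact le_antisymm h2 bot_le
  ext s hs
  by_cases h0 : (0 : Tor) ∈ s
  · have h3 := prob_add_prob_compl (μ := ρ) hs
    rw [h1 sᶜ hs.compl (fun h4 => h4 h0), add_zero] at h3
    rw [h3, Measure.dirac_apply_of_mem h0]
  · rw [h1 s hs h0, Measure.dirac_apply' _ hs, Set.indicator_of_notMem h0]

theorem dirac_conv (γ : Measure Tor) [IsProbabilityMeasure γ] :
    conv (Measure.dirac 0) γ = γ := by
  rw [Helper40.AG.conv_comm, conv_dirac]

theorem XX_le (γ : Measure Tor) [IsProbabilityMeasure γ] {c : ℝ≥0∞} (hc : c ≠ ⊤)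
    (L : List (Measure Tor)) : (∀ μ ∈ L, Good μ) → ∀ (ρ : Measure Tor), IsProbabilityMeasure ρ →
      Inv ρ → ρ ≤ c • cpl L → 0 ≤ XX U K L γ ρ ∧
        XX U K L γ ρ ≤ c.toReal * XX U K L γ (cpl L) := by
  induction L with
  | nil =>
    intro _ ρ hp hρ hle
    have h1 : ρ = Measure.dirac 0 := eq_dirac hle
    have h2 : XX U K [] γ (cpl []) = 0 := by
      unfold XX
      show E U K γ + 0 - EE U K (Measure.dirac 0) γ (Measure.dirac 0) = 0
      rw [← E_conv, dirac_conv]
      ring
    rw [h2, mul_zero]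
    have h3 : ρ = cpl [] := h1
    rw [h3, h2]
    exact ⟨le_rfl, le_rfl⟩
  | cons μ L ih =>
    intro hg ρ hp hρ hle
    have hg' : ∀ ν ∈ L, Good ν := fun ν hν => hg ν (List.mem_cons_of_mem μ hν)
    have hμ := hg μ List.mem_cons_self
    have hμp := hμ.prob
    have hLp := cpl_prob hg'
    obtain ⟨J, hJp, hJ, hadd, hfst, hinv, hsnd⟩ :=
      Helper26.IP.split (α := cpl L) hμ.inv (cpl_inv hg') hρ hμ.ext hc hle
    have hsp : IsProbabilityMeasure (J.map Prod.snd) :=
      Measure.isProbabilityMeasure_map measurable_snd.aemeasurable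
    obtain ⟨a1, a2⟩ := ih hg' _ hsp hinv hsnd
    have hJa : J ≪ μ.prod (cpl L) :=
      (Measure.absolutelyContinuous_of_le hJ).trans (Measure.smul_absolutelyContinuous)
    have b1 := RR_eq U K μ (cpl L) γ J hJa hfst
    have b2 := RR_eq U K μ (cpl L) γ (μ.prod (cpl L)) Measure.AbsolutelyContinuous.rfl
      (by rw [← Measure.fst, Measure.fst_prod])
    have b3 := RR_le U K μ (cpl L) γ J (μ.prod (cpl L)) hc hJ
    have b4 := RR_nonneg U K μ (cpl L) γ J
    have e1 : (μ.prod (cpl L)).map Prod.snd = cpl L := by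
      rw [← Measure.snd, Measure.snd_prod]
    have e2 : (μ.prod (cpl L)).map (fun p => p.1 + p.2) = cpl (μ :: L) := rfl
    have e3 : conv μ (cpl L) = cpl (μ :: L) := rfl
    rw [hadd, e3] at b1
    rw [e1, e2, e3] at b2
    have c1 : XX U K (μ :: L) γ ρ =
        XX U K L γ (J.map Prod.snd) + RR U K μ (cpl L) γ J := by
      rw [b1]
      unfold XX
      rw [List.map_cons, List.sum_cons]
      unfold del
      ring
    have c2 : XX U K (μ :: L) γ (cpl (μ :: L)) =
        XX U K L γ (cpl L) + RR U K μ (cpl L) γ (μ.prod (cpl L)) := by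
      rw [b2]
      unfold XX
      rw [List.map_cons, List.sum_cons]
      unfold del
      ring
    rw [c1, c2, mul_add]
    exact ⟨add_nonneg a1 b4, add_le_add a2 b3⟩

theorem XX_cpl {L : List (Measure Tor)} (hL : ∀ μ ∈ L, Good μ) (γ : Measure Tor)
    [IsProbabilityMeasure γ] : XX U K L γ (cpl L) =
      E U K γ + (L.map fun ν => del U K ν γ).sum - E U K (conv (cpl L) γ) := by
  have := cpl_prob hL
  unfold XX
  rw [E_conv]

/-- subadditivity of the increments -/
theorem del_cpl_le {L : List (Measure Tor)} (hL : ∀ μ ∈ L, Good μ) (γ : Measure Tor)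
    [IsProbabilityMeasure γ] :
    E U K (conv (cpl L) γ) - E U K γ ≤ (L.map fun ν => del U K ν γ).sum := by
  have h := (XX_le U K γ ENNReal.one_ne_top L hL (cpl L) (cpl_prob hL) (cpl_inv hL)
    (by rw [one_smul])).1
  rw [XX_cpl U K hL γ] at h
  linarith

/-- the increments over a larger test measure -/
theorem sum_del_le (γ : Measure Tor) [IsProbabilityMeasure γ] (L : List (Measure Tor)) :
    (∀ μ ∈ L, Good μ) → ∀ (α : Measure Tor), IsProbabilityMeasure α →
      (L.map fun ν => del U K ν (conv α (conv (cpl L) γ))).sum ≤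
        E U K (conv (cpl L) γ) - E U K γ := by
  induction L with
  | nil =>
    intro _ α _
    show 0 ≤ E U K (conv (Measure.dirac 0) γ) - E U K γ
    rw [dirac_conv]
    linarith
  | cons μ L ih =>
    intro hg α hα
    have hg' : ∀ ν ∈ L, Good ν := fun ν hν => hg ν (List.mem_cons_of_mem μ hν)
    have hμp := (hg μ List.mem_cons_self).prob
    have hLp := cpl_prob hg'
    have h1 := ih hg' (conv α μ) inferInstance
    have e1 : conv α (conv (cpl (μ :: L)) γ) = conv (conv α μ) (conv (cpl L) γ) := by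
      show conv α (conv (conv μ (cpl L)) γ) = _
      rw [conv_assoc μ, conv_assoc α]
    have h2 := del_anti U K μ (conv α μ) (conv (cpl L) γ)
    have e2 : E U K (conv (cpl (μ :: L)) γ) = E U K (conv μ (conv (cpl L) γ)) := by
      show E U K (conv (conv μ (cpl L)) γ) = _
      rw [conv_assoc]
    rw [List.map_cons, List.sum_cons, e1, e2]
    unfold del at h2 ⊢
    unfold del at h1
    linarith

/-! ### reflection -/

theorem refl_prob (α : Measure Tor) [IsProbabilityMeasure α] : IsProbabilityMeasure (refl α) :=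
  Measure.isProbabilityMeasure_map measurable_neg.aemeasurable

theorem E_refl (α : Measure Tor) [IsProbabilityMeasure α] : E U K (refl α) = E U K α := by
  have hp := refl_prob α
  have hk : IsMarkovKernel (((kk U α).comap (fun x => -x) measurable_neg).map fun x => -x) :=
    Kernel.IsMarkovKernel.map _ measurable_neg
  have h := lim_unique (kk_lim U (refl α)) (lim_refl (kk_lim U α)) (ρ := refl α)
    ENNReal.one_ne_top (by rw [one_smul]) (by rw [one_smul])
  have e1 : E U K (refl α) = ∫ u, en K ((((kk U α).comap (fun x => -x) measurable_neg).map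
      fun x => -x) u) ∂(refl α) := by
    unfold E
    refine integral_congr_ae ?_
    filter_upwards [h] with u hu
    rw [hu]
  rw [e1]
  unfold refl
  rw [integral_map measurable_neg.aemeasurable (by
    exact (measurable_en (((kk U α).comap (fun x => -x) measurable_neg).map fun x => -x)
      K).aestronglyMeasurable)]
  unfold E
  refine integral_congr_ae (Eventually.of_forall fun x => ?_)
  show en K ((((kk U α).comap (fun x => -x) measurable_neg).map fun x => -x) (-x)) =
    en K (kk U α x)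
  rw [Kernel.map_apply _ measurable_neg, Kernel.comap_apply, neg_neg]
  exact en_refl K (kk U α x)

theorem del_refl {ν γ : Measure Tor} [IsProbabilityMeasure ν] [IsProbabilityMeasure γ]
    (hγ : refl γ = γ) : del U K (refl ν) γ = del U K ν γ := by
  unfold del
  have := refl_prob ν
  have e : conv (refl ν) γ = refl (conv ν γ) := by
    rw [refl_conv, hγ]
  rw [e, E_refl]

theorem refl_cp {θ : Measure Tor} [IsProbabilityMeasure θ] (h : refl θ = θ) (n : ℕ) :
    refl (cp θ n) = cp θ n := by
  induction n with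
  | zero =>
    show (Measure.dirac (0 : Tor)).map (fun x => -x) = Measure.dirac 0
    rw [Measure.map_dirac' measurable_neg, neg_zero]
  | succ n ih =>
    show refl (conv θ (cp θ n)) = conv θ (cp θ n)
    rw [refl_conv, h, ih]

/-! ### factors -/

theorem exists_factor {ν : Measure Tor} {S : List (Measure Tor)} (hS : ∀ μ ∈ S, Good μ)
    (hν : ν ∈ S) : ∃ α : Measure Tor, IsProbabilityMeasure α ∧ cpl S = conv ν α := by
  induction S with
  | nil => simp at hν
  | cons μ S ih =>
    have hS' : ∀ μ ∈ S, Good μ := fun ν hν => hS ν (List.mem_cons_of_mem μ hν)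
    have hSp := cpl_prob hS'
    have hμp := (hS μ List.mem_cons_self).prob
    rcases List.mem_cons.1 hν with h | h
    · exact ⟨cpl S, hSp, by rw [h]; rfl⟩
    · obtain ⟨α, hα, e⟩ := ih hS' h
      have hνp := (hS ν hν).prob
      refine ⟨conv μ α, inferInstance, ?_⟩
      show conv μ (cpl S) = conv ν (conv μ α)
      rw [e, ← conv_assoc, Helper40.AG.conv_comm μ ν, conv_assoc]

theorem exists_cofactor {S : List (Measure Tor)} (hS : ∀ μ ∈ S, Good μ)
    (L : List (Measure Tor)) : (∀ μ ∈ L, μ ∈ S) → ∃ α : Measure Tor, IsProbabilityMeasure α ∧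
      cp (cpl S) L.length = conv α (cpl L) := by
  have hSp := cpl_prob hS
  induction L with
  | nil =>
    intro _
    refine ⟨Measure.dirac 0, inferInstance, ?_⟩
    show Measure.dirac 0 = conv (Measure.dirac 0) (Measure.dirac 0)
    rw [conv_dirac]
  | cons ν L ih =>
    intro hL
    have hL' : ∀ μ ∈ L, μ ∈ S := fun μ hμ => hL μ (List.mem_cons_of_mem ν hμ)
    obtain ⟨α, hα, e⟩ := ih hL'
    have hν := hL ν List.mem_cons_self
    obtain ⟨β, hβ, e'⟩ := exists_factor hS hν
    have hνp := (hS ν hν).prob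
    have hLp := cpl_prob fun μ hμ => hS μ (hL' μ hμ)
    refine ⟨conv α β, inferInstance, ?_⟩
    show conv (cpl S) (cp (cpl S) L.length) = conv (conv α β) (conv ν (cpl L))
    rw [e, e', Helper40.AG.conv_comm ν β, conv_assoc β ν, ← conv_assoc ν α,
      Helper40.AG.conv_comm ν α, conv_assoc α ν, ← conv_assoc β α, Helper40.AG.conv_comm β α]

end Helper75.IP.G
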