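import Mathlib
import Pool.Agent.Helper75.IP.CoreG

/-!
# Independent powers for monomials: conclusion of the core
-/

set_option autoImplicit false
open MeasureTheory Filter Topology ProbabilityTheory Helper35.AG
open scoped ENNReal

namespace Helper75.IP.G

open Helper75.IP Helper25.IP Helper88.IP Helper39.IP Helper16.IP
open Helper75.IP.C (int_fst int_snd en_add_le tele qq qq_pow)

variable (U : Ultrafilter ℕ) (K : ℕ)

theorem en_dirac : en K (Measure.dirac (0 : Tor)) = 0 := by
  rw [en_eq]
  refine Finset.sum_eq_zero fun i _ => ?_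
  have e : ∀ y : Tor, Real.negMulLog (q K i (Measure.dirac 0) y) = 0 := by
    intro y
    unfold q
    rw [measureReal_def, Measure.dirac_apply' _ (measurableSet_shift K i y)]
    by_cases h : (0 : Tor) ∈ {x : Tor | idx K (x + y) = i}
    · rw [Set.indicator_of_mem h]
      simp
    · rw [Set.indicator_of_notMem h]
      simp
  simp only [e, integral_zero]

theorem E_le (α : Measure Tor) [IsProbabilityMeasure α] (h : Inv α) : E U K α ≤ en K α := by
  have h1 := en_bind K α (kk U α)
  rwa [bind_eq h (kk_lim U α)] at h1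

theorem E_dirac : E U K (Measure.dirac (0 : Tor)) ≤ 0 := by
  refine (E_le U K (Measure.dirac 0) (cpl_inv (L := []) fun μ hμ => by simp at hμ)).trans ?_
  rw [en_dirac]

theorem sum_le_of_forall {L : List (Measure Tor)} {f g : Measure Tor → ℝ}
    (h : ∀ ν ∈ L, f ν ≤ g ν) : (L.map f).sum ≤ (L.map g).sum := List.sum_le_sum h

theorem le_sum {S : List (Measure Tor)} {f : Measure Tor → ℝ} (h0 : ∀ ν ∈ S, 0 ≤ f ν)
    {ν : Measure Tor} (hν : ν ∈ S) : f ν ≤ (S.map f).sum := by
  refine List.single_le_sum (fun x hx => ?_) _ (List.mem_map_of_mem hν)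
  obtain ⟨μ, hμ, rfl⟩ := List.mem_map.1 hx
  exact h0 μ hμ

theorem sum_le_length {L : List (Measure Tor)} {f : Measure Tor → ℝ} {A : ℝ}
    (h : ∀ ν ∈ L, f ν ≤ A) : (L.map f).sum ≤ L.length * A := by
  have := List.sum_le_card_nsmul (L.map f) A (fun x hx => by
    obtain ⟨μ, hμ, rfl⟩ := List.mem_map.1 hx
    exact h μ hμ)
  rwa [List.length_map, nsmul_eq_mul] at this

theorem bound {S L L' : List (Measure Tor)} (hS : ∀ μ ∈ S, Good μ) (hsym : refl (cpl S) = cpl S)
    (hL : ∀ μ ∈ L, μ ∈ S) (hL' : ∀ μ ∈ L', μ ∈ S) {q : ℝ} (hq : 0 ≤ q)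
    (hD : ∀ w : Measure Tor → ℝ, (∀ ν ∈ S, 0 ≤ w ν) → (∀ ν ∈ S, w (refl ν) = w ν) →
      (S.map w).sum ≤ q * ((L.map w).sum - (L'.map w).sum))
    {ρ : Measure Tor} [IsProbabilityMeasure ρ] (hρ : Inv ρ) {c : ℝ≥0∞} (hc : c ≠ ⊤)
    (h1 : ρ ≤ c • cpl L) (h2 : ρ ≤ c • cpl L') {A : ℝ}
    (hA : (S.map fun ν => E U K ν).sum ≤ A) (N : ℕ) :
    E U K (cp (cpl S) (N + L.length)) ≤ (L.length + q * (c.toReal * L.length ^ 2)) * A := by
  have hSp := cpl_prob hS
  have hgL : ∀ μ ∈ L, Good μ := fun μ hμ => hS μ (hL μ hμ)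
  have hgL' : ∀ μ ∈ L', Good μ := fun μ hμ => hS μ (hL' μ hμ)
  have hLp := cpl_prob hgL
  have hLp' := cpl_prob hgL'
  have hae := lim_unique (kk_lim U (cpl L)) (kk_lim U (cpl L')) hc h1 h2
  have hEE : ∀ γ : Measure Tor, IsProbabilityMeasure γ →
      EE U K (cpl L) γ ρ = EE U K (cpl L') γ ρ := by
    intro γ hγ
    unfold EE
    refine integral_congr_ae ?_
    have h' : ∀ᵐ z ∂(ρ.prod γ), kk U (cpl L) z.1 = kk U (cpl L') z.1 :=
      Measure.quasiMeasurePreserving_fst.ae hae
    filter_upwards [h'] with z hz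
    rw [ck_apply, ck_apply, hz]
  obtain ⟨α, hα, eα⟩ := exists_cofactor hS L hL
  have hEA : ∀ ν ∈ S, E U K ν ≤ A := fun ν hν =>
    (le_sum (f := fun ν => E U K ν) (fun ν _ => E_nonneg U K ν) hν).trans hA
  have hA0 : 0 ≤ A := by
    refine le_trans (List.sum_nonneg fun x hx => ?_) hA
    obtain ⟨μ, hμ, rfl⟩ := List.mem_map.1 hx
    exact E_nonneg U K μ
  obtain ⟨F, hF⟩ : ∃ F : ℕ → ℝ, ∀ j, F j =
      E U K (conv (cpl L) (cp (cpl S) j)) - E U K (cp (cpl S) j) := ⟨_, fun _ => rfl⟩
  have key : ∀ j, E U K (cp (cpl S) (j + L.length + 1)) - E U K (cp (cpl S) (j + L.length)) ≤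
      q * (c.toReal * (F j - F (j + L.length))) := by
    intro j
    have b1 := del_cpl_le U K hS (cp (cpl S) (j + L.length))
    have b2 := hD (fun ν => del U K ν (cp (cpl S) (j + L.length)))
      (fun ν hν => by
        have := (hS ν hν).prob
        exact del_nonneg U K ν _)
      (fun ν hν => by
        have := (hS ν hν).prob
        exact del_refl U K (refl_cp hsym _))
    have b3 := (XX_le U K (cp (cpl S) (j + L.length)) hc L hgL ρ inferInstance hρ h1).2
    have b4 := (XX_le U K (cp (cpl S) (j + L.length)) hc L' hgL' ρ inferInstance hρ h2).1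
    have b5 : (L.map fun ν => del U K ν (cp (cpl S) (j + L.length))).sum ≤ F j := by
      have h3 := sum_del_le U K (cp (cpl S) j) L hgL α hα
      rw [← conv_assoc α, ← eα, cp_add, add_comm L.length j, ← hF] at h3
      exact h3
    rw [XX_cpl U K hgL] at b3
    have b6 : E U K (cp (cpl S) (j + L.length)) +
        (L.map fun ν => del U K ν (cp (cpl S) (j + L.length))).sum -
        E U K (conv (cpl L) (cp (cpl S) (j + L.length))) ≤ F j - F (j + L.length) := by
      rw [hF (j + L.length)]
      linarith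
    have b7 := mul_le_mul_of_nonneg_left b6 (ENNReal.toReal_nonneg (a := c))
    unfold XX at b3 b4
    rw [← hEE _ inferInstance] at b4
    have b8 : (L.map fun ν => del U K ν (cp (cpl S) (j + L.length))).sum -
        (L'.map fun ν => del U K ν (cp (cpl S) (j + L.length))).sum ≤
        c.toReal * (F j - F (j + L.length)) := by linarith
    have b9 := mul_le_mul_of_nonneg_left b8 hq
    have e1 : conv (cpl S) (cp (cpl S) (j + L.length)) = cp (cpl S) (j + L.length + 1) := rfl
    rw [e1] at b1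
    linarith
  have hF0 : ∀ j, 0 ≤ F j := by
    intro j
    rw [hF]
    have := E_mono U K (cpl L) (cp (cpl S) j)
    linarith
  have hFA : ∀ j, F j ≤ L.length * A := by
    intro j
    rw [hF]
    refine (del_cpl_le U K hgL (cp (cpl S) j)).trans (sum_le_length fun ν hν => ?_)
    have := (hgL ν hν).prob
    exact (del_le U K ν _).trans (hEA ν (hL ν hν))
  have hlin : ∀ i, E U K (cp (cpl S) i) ≤ i * A := by
    intro i
    induction i with
    | zero =>
      have := E_dirac U K
      push_cast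
      rw [zero_mul]
      exact this
    | succ i ih =>
      have c1 := del_cpl_le U K hS (cp (cpl S) i)
      have c2 : (S.map fun ν => del U K ν (cp (cpl S) i)).sum ≤ (S.map fun ν => E U K ν).sum :=
        sum_le_of_forall fun ν hν => by
          have := (hS ν hν).prob
          exact del_le U K ν _
      have e1 : conv (cpl S) (cp (cpl S) i) = cp (cpl S) (i + 1) := rfl
      rw [e1] at c1
      push_cast
      linarith
  have hsum : ∑ i ∈ Finset.range N, (E U K (cp (cpl S) (i + L.length + 1)) -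
      E U K (cp (cpl S) (i + L.length))) ≤
      ∑ i ∈ Finset.range N, q * (c.toReal * (F i - F (i + L.length))) :=
    Finset.sum_le_sum fun i _ => key i
  have ht := tele F L.length N
  have hs := Finset.sum_range_sub (fun i => E U K (cp (cpl S) (i + L.length))) N
  have e3 : ∑ i ∈ Finset.range N, (E U K (cp (cpl S) (i + L.length + 1)) -
      E U K (cp (cpl S) (i + L.length))) =
      E U K (cp (cpl S) (N + L.length)) - E U K (cp (cpl S) L.length) := by
    rw [show E U K (cp (cpl S) L.length) = E U K (cp (cpl S) (0 + L.length)) by rw [zero_add],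
      ← hs]
    refine Finset.sum_congr rfl fun i _ => ?_
    rw [show i + L.length + 1 = i + 1 + L.length by ring]
  have e4 : ∑ i ∈ Finset.range N, q * (c.toReal * (F i - F (i + L.length))) =
      q * (c.toReal * -(∑ i ∈ Finset.range N, (F (i + L.length) - F i))) := by
    rw [← Finset.mul_sum, ← Finset.mul_sum, ← Finset.sum_neg_distrib]
    congr 2
    exact Finset.sum_congr rfl fun i _ => by ring
  have e5 : -(∑ i ∈ Finset.range N, (F (i + L.length) - F i)) ≤ L.length * (L.length * A) := by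
    rw [ht, ← Finset.sum_neg_distrib]
    have : ∀ i ∈ Finset.range L.length, -(F (N + i) - F i) ≤ L.length * A := by
      intro i _
      have d1 := hF0 (N + i)
      have d2 := hFA i
      linarith
    have h3 := Finset.sum_le_sum this
    rwa [Finset.sum_const, Finset.card_range, nsmul_eq_mul] at h3
  rw [e3, e4] at hsum
  have e6 := mul_le_mul_of_nonneg_left (mul_le_mul_of_nonneg_left e5
    (ENNReal.toReal_nonneg (a := c))) hq
  have e7 := hlin L.length
  have e8 : q * (c.toReal * (L.length * (L.length * A))) =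
      q * (c.toReal * L.length ^ 2) * A := by ring
  rw [e8] at e6
  linarith

theorem coreG {S L L' : List (Measure Tor)} (hS : ∀ μ ∈ S, Good μ) (hsym : refl (cpl S) = cpl S)
    (hL : ∀ μ ∈ L, μ ∈ S) (hL' : ∀ μ ∈ L', μ ∈ S) (hD : Dom S L L')
    {U : Ultrafilter ℕ} (hU : (U : Filter ℕ) ≤ atTop) (hR : ¬ Rigid (cpl S))
    {ρ : Measure Tor} [IsProbabilityMeasure ρ] (hρ : Inv ρ) {c : ℝ≥0∞} (hc : c ≠ ⊤)
    (h1 : ρ ≤ c • cpl L) (h2 : ρ ≤ c • cpl L') :
    ∃ C : ℝ, ∀ K : ℕ, K * Real.log 2 ≤ C * (S.map fun μ => ent μ K + Real.log 2).sum := by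
  obtain ⟨q, hq, hD⟩ := hD
  have hSp := cpl_prob hS
  refine ⟨L.length + q * (c.toReal * L.length ^ 2), fun K => ?_⟩
  have hA : (S.map fun ν => E U K ν).sum ≤ (S.map fun μ => ent μ K + Real.log 2).sum :=
    sum_le_of_forall fun ν hν => by
      have := (hS ν hν).prob
      exact (E_le U K ν (hS ν hν).inv).trans (en_le_ent K ν)
  have hb := fun N => bound U K hS hsym hL hL' hq hD hρ hc h1 h2 hA N
  have hκ : ∀ N, IsLim U (cp (cpl S) N) (kk U (cp (cpl S) N)) := fun N => kk_lim U _
  have hlim := en_lim K (fun N => cp (cpl S) N) (fun N => kk U (cp (cpl S) N)) fun j hj => by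
    show Tendsto (fun N => qq (cpl S) (fun N => kk U (cp (cpl S) N)) j N) atTop (𝓝 0)
    have h0 : 0 ≤ qq (cpl S) (fun N => kk U (cp (cpl S) N)) j 1 :=
      integral_nonneg fun _ => by positivity
    have h3 : qq (cpl S) (fun N => kk U (cp (cpl S) N)) j 1 < 1 := by
      by_contra hcon
      rw [not_lt] at hcon
      refine hR (Helper26.IP.rigid_of_one hU (Helper75.IP.C.lim_one hκ) hj ?_)
      unfold qq at hcon
      rwa [cp_one] at hcon
    have h4 := (tendsto_pow_atTop_nhds_zero_of_lt_one h0 h3).mul_const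
      (qq (cpl S) (fun N => kk U (cp (cpl S) N)) j 0)
    rw [zero_mul] at h4
    exact h4.congr fun N => (qq_pow hκ j N).symm
  have hlim' := (tendsto_add_atTop_iff_nat L.length).2 hlim
  exact le_of_tendsto' hlim' hb

end Helper75.IP.G
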