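import Mathlib
import Pool.Agent.Helper75.IP.DefsG

/-!
# Independent powers for monomials: torsion measures are free
-/

set_option autoImplicit false
open MeasureTheory Filter Topology ProbabilityTheory Helper35.AG
open scoped ENNReal

namespace Helper75.IP

/-- supported on torsion points of a bounded order -/
def At (ν : Measure Tor) : Prop := ∃ Q : ℕ, 0 < Q ∧ ∀ᵐ x ∂ν, Q • x = 0

/-- `L` has a larger degree than `L'` in every member of `S` which is not a torsion measure, up to
reflection -/
def DomT (S L L' : List (Measure Tor)) : Prop :=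
  ∃ q : ℝ, 0 ≤ q ∧ ∀ w : Measure Tor → ℝ, (∀ ν ∈ S, 0 ≤ w ν) → (∀ ν ∈ S, w (refl ν) = w ν) →
    (∀ ν ∈ S, At ν → w ν = 0) → (S.map w).sum ≤ q * ((L.map w).sum - (L'.map w).sum)

theorem DomT.of_dom {S L L' : List (Measure Tor)} (h : Dom S L L') : DomT S L L' := by
  obtain ⟨q, hq, h⟩ := h
  exact ⟨q, hq, fun w h1 h2 _ => h w h1 h2⟩

end Helper75.IP
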