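import Mathlib
import Pool.Agent.Helper75.IP.DefsH
import Pool.Agent.Helper75.IP.CoreG2

/-!
# Independent powers for monomials: the core with free torsion measures
-/

set_option autoImplicit false
open MeasureTheory Filter Topology ProbabilityTheory Helper35.AG
open scoped ENNReal

namespace Helper75.IP.G

open Helper75.IP Helper25.IP Helper88.IP Helper39.IP Helper16.IP
open Helper75.IP.C (int_fst int_snd en_add_le tele qq qq_pow)

variable {U : Ultrafilter ℕ}

theorem norm_one_of_atom {ν : Measure Tor} [IsProbabilityMeasure ν] {κ : Kernel Tor Tor}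
    [IsMarkovKernel κ] (h : IsLim U ν κ) {x : Tor} (hx : ν {x} ≠ 0) (j : ℤ) :
    ‖∫ y, (fourier j y : ℂ) ∂(κ x)‖ = 1 := by
  have h1 := h j (Set.indicator {x} fun _ => (1 : ℂ))
    ((integrable_const (1 : ℂ)).indicator (measurableSet_singleton x))
  have e : ∀ F : Tor → ℂ, ∫ w, Set.indicator {x} (fun _ => (1 : ℂ)) w * F w ∂ν =
      (ν.real {x} : ℂ) * F x := by
    intro F
    have e1 : ∀ w, Set.indicator {x} (fun _ => (1 : ℂ)) w * F w = Set.indicator {x} F w := by
      intro w
      by_cases hw : w ∈ ({x} : Set Tor)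
      · rw [Set.indicator_of_mem hw, Set.indicator_of_mem hw, one_mul]
      · rw [Set.indicator_of_notMem hw, Set.indicator_of_notMem hw, zero_mul]
    simp only [e1]
    rw [integral_indicator (measurableSet_singleton x), integral_singleton]
    rw [Complex.real_smul]
  simp only [e] at h1
  have h2 := h1.norm
  have hr : ν.real {x} ≠ 0 := by
    rw [measureReal_def]
    exact ENNReal.toReal_ne_zero.2 ⟨hx, measure_ne_top _ _⟩
  have e2 : ∀ k : ℕ, ‖(ν.real {x} : ℂ) * (fourier j ((2 ^ k : ℕ) • x) : ℂ)‖ = ‖(ν.real {x} : ℂ)‖ := by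
    intro k
    rw [norm_mul, fourier_apply, Circle.norm_coe, mul_one]
  simp only [e2] at h2
  have h3 := tendsto_nhds_unique h2 tendsto_const_nhds
  rw [norm_mul] at h3
  have h4 : ‖(ν.real {x} : ℂ)‖ ≠ 0 := by
    rw [norm_ne_zero_iff]
    exact_mod_cast hr
  exact mul_left_cancel₀ h4 (by rw [h3, mul_one])

/-- a probability with a Fourier coefficient of modulus one is a unit mass -/
theorem eq_dirac_of_norm {κ : Measure Tor} [IsProbabilityMeasure κ]
    (h : ‖∫ y, (fourier 1 y : ℂ) ∂κ‖ = 1) : ∃ a : Tor, κ = Measure.dirac a := by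
  set z : ℂ := ∫ y, (fourier 1 y : ℂ) ∂κ with hz
  have hi : Integrable (fun y : Tor => (fourier 1 y : ℂ)) κ := by
    have hc : Continuous fun y : Tor => (fourier 1 y : ℂ) := by fun_prop
    exact (BoundedContinuousFunction.mkOfCompact ⟨_, hc⟩).integrable κ
  have hire : Integrable (fun y : Tor => (star z * (fourier 1 y : ℂ)).re) κ :=
    (hi.const_mul (star z)).re
  have h0 : ∫ y, (1 - (star z * (fourier 1 y : ℂ)).re) ∂κ = 0 := by
    have h1 : ∫ y, (star z * (fourier 1 y : ℂ)).re ∂κ = 1 := by
      have h2 := integral_re (𝕜 := ℂ) (hi.const_mul (star z))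
      have h3 : (RCLike.re : ℂ → ℝ) = Complex.re := rfl
      rw [h3] at h2
      rw [h2, integral_const_mul, ← hz, Complex.star_def, mul_comm, Complex.mul_conj,
        Complex.normSq_eq_norm_sq, h]
      simp
    rw [integral_sub (integrable_const _) hire, h1]
    simp
  have hnn : ∀ y : Tor, 0 ≤ 1 - (star z * (fourier 1 y : ℂ)).re := by
    intro y
    have h1 := Complex.re_le_norm (star z * (fourier 1 y : ℂ))
    rw [norm_mul, norm_star, h, fourier_apply, Circle.norm_coe, mul_one] at h1
    rw [fourier_apply]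
    linarith
  have hae := (integral_eq_zero_iff_of_nonneg hnn
    ((integrable_const _).sub hire)).1 h0
  have hae' : ∀ᵐ y ∂κ, (fourier 1 y : ℂ) = z := by
    filter_upwards [hae] with y hy
    have h1 : (star z * (fourier 1 y : ℂ)).re = 1 := by
      have : 1 - (star z * (fourier 1 y : ℂ)).re = 0 := hy
      linarith
    have h2 : ‖star z * (fourier 1 y : ℂ)‖ = 1 := by
      rw [norm_mul, norm_star, h, fourier_apply, Circle.norm_coe, mul_one]
    have h3 : star z * (fourier 1 y : ℂ) = 1 := by
      apply Complex.ext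
      · exact h1
      · have h4 := Complex.normSq_eq_norm_sq (star z * (fourier 1 y : ℂ))
        rw [h2, Complex.normSq_apply, h1] at h4
        have h5 : (star z * (fourier 1 y : ℂ)).im * (star z * (fourier 1 y : ℂ)).im = 0 := by
          linarith
        simpa using h5
    have h4 : z * star z = 1 := by
      rw [Complex.star_def, Complex.mul_conj, Complex.normSq_eq_norm_sq, h]
      simp
    calc (fourier 1 y : ℂ) = z * star z * (fourier 1 y : ℂ) := by rw [h4, one_mul]
      _ = z := by rw [mul_assoc, h3, mul_one]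
  obtain ⟨a, ha⟩ := hae'.exists
  refine ⟨a, ?_⟩
  have hinj : ∀ y : Tor, (fourier 1 y : ℂ) = z → y = a := by
    intro y hy
    have h1 : (fourier 1 y : ℂ) = fourier 1 a := hy.trans ha.symm
    rw [fourier_one, fourier_one] at h1
    exact AddCircle.injective_toCircle one_ne_zero (Circle.coe_injective h1)
  have h5 : ∀ᵐ y ∂κ, y = a := hae'.mono hinj
  ext s hs
  rw [Measure.dirac_apply' _ hs]
  by_cases h6 : a ∈ s
  · rw [Set.indicator_of_mem h6]
    have : κ s = κ Set.univ := measure_congr (by
      filter_upwards [h5] with y hy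
      show (y ∈ s) = (y ∈ Set.univ)
      rw [hy]
      simp [h6])
    rw [this, measure_univ]
    rfl
  · rw [Set.indicator_of_notMem h6]
    have : κ s = κ ∅ := measure_congr (by
      filter_upwards [h5] with y hy
      show (y ∈ s) = (y ∈ (∅ : Set Tor))
      rw [hy]
      simp [h6])
    rw [this, measure_empty]

theorem en_dirac' (K : ℕ) (a : Tor) : en K (Measure.dirac a) = 0 := by
  rw [en_eq]
  refine Finset.sum_eq_zero fun i _ => ?_
  have e : ∀ y : Tor, Real.negMulLog (q K i (Measure.dirac a) y) = 0 := by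
    intro y
    unfold q
    rw [measureReal_def, Measure.dirac_apply' _ (measurableSet_shift K i y)]
    by_cases h : a ∈ {x : Tor | idx K (x + y) = i}
    · rw [Set.indicator_of_mem h]
      simp
    · rw [Set.indicator_of_notMem h]
      simp
  simp only [e, integral_zero]

theorem atoms_of_at {ν : Measure Tor} (h : At ν) : ∀ᵐ x ∂ν, ν {x} ≠ 0 := by
  obtain ⟨Q, hQ, h⟩ := h
  have hf : {u : Tor | Q • u = 0}.Finite := AddCircle.finite_torsion 1 hQ
  have h1 : ν {x : Tor | Q • x = 0 ∧ ν {x} = 0} = 0 := by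
    have hc : {x : Tor | Q • x = 0 ∧ ν {x} = 0}.Countable :=
      (hf.subset fun x hx => hx.1).countable
    rw [← Set.biUnion_of_singleton {x : Tor | Q • x = 0 ∧ ν {x} = 0}]
    exact (measure_biUnion_null_iff hc).2 fun x hx => hx.2
  have h2 : ∀ᵐ x ∂ν, ¬ (Q • x = 0 ∧ ν {x} = 0) := by
    rw [ae_iff]
    simpa using h1
  filter_upwards [h, h2] with x hx hx2 h0
  exact hx2 ⟨hx, h0⟩

theorem E_at (K : ℕ) {ν : Measure Tor} [IsProbabilityMeasure ν] (h : At ν) : E U K ν = 0 := by
  unfold E
  refine integral_eq_zero_of_ae ?_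
  filter_upwards [atoms_of_at h] with x hx
  obtain ⟨a, ha⟩ := eq_dirac_of_norm (norm_one_of_atom (kk_lim U ν) hx 1)
  show en K (kk U ν x) = 0
  rw [ha]
  exact en_dirac' K a

theorem del_at (K : ℕ) {ν γ : Measure Tor} [IsProbabilityMeasure ν] [IsProbabilityMeasure γ]
    (h : At ν) : del U K ν γ = 0 :=
  le_antisymm ((del_le U K ν γ).trans (E_at K h).le) (del_nonneg U K ν γ)

variable (U) (K : ℕ)

theorem boundT {S L L' : List (Measure Tor)} (hS : ∀ μ ∈ S, Good μ) (hsym : refl (cpl S) = cpl S)
    (hL : ∀ μ ∈ L, μ ∈ S) (hL' : ∀ μ ∈ L', μ ∈ S) {q : ℝ} (hq : 0 ≤ q)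
    (hD : ∀ w : Measure Tor → ℝ, (∀ ν ∈ S, 0 ≤ w ν) → (∀ ν ∈ S, w (refl ν) = w ν) →
      (∀ ν ∈ S, At ν → w ν = 0) → (S.map w).sum ≤ q * ((L.map w).sum - (L'.map w).sum))
    {ρ : Measure Tor} [IsProbabilityMeasure ρ] (hρ : Inv ρ) {c : ℝ≥0∞} (hc : c ≠ ⊤)
    (h1 : ρ ≤ c • cpl L) (h2 : ρ ≤ c • cpl L') {A : ℝ}
    (hA : (S.map fun ν => E U K ν).sum ≤ A) (N : ℕ) :
    E U K (cp (cpl S) (N + L.length)) ≤ (L.length + q * (c.toReal * L.length ^ 2)) * A := by
  have hSp := cpl_prob hS
  have hgL : ∀ μ ∈ L, Good μ := fun μ hμ => hS μ (hL μ hμ)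
  have hgL' : ∀ μ ∈ L', Good μ := fun μ hμ => hS μ (hL' μ hμ)
  have hLp := cpl_prob hgL
  have hLp' := cpl_prob hgL'
  have hae := lim_unique (kk_lim U (cpl L)) (kk_lim U (cpl L')) hc h1 h2
  have hEE : ∀ γ : Measure Tor, IsProbabilityMeasure γ →
      EE U K (cpl L) γ ρ = EE U K (cpl L') γ ρ := by
    intro γ hγ
    unfold EE
    refine integral_congr_ae ?_
    have h' : ∀ᵐ z ∂(ρ.prod γ), kk U (cpl L) z.1 = kk U (cpl L') z.1 :=
      Measure.quasiMeasurePreserving_fst.ae hae
    filter_upwards [h'] with z hz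
    rw [ck_apply, ck_apply, hz]
  obtain ⟨α, hα, eα⟩ := exists_cofactor hS L hL
  have hEA : ∀ ν ∈ S, E U K ν ≤ A := fun ν hν =>
    (le_sum (f := fun ν => E U K ν) (fun ν _ => E_nonneg U K ν) hν).trans hA
  have hA0 : 0 ≤ A := by
    refine le_trans (List.sum_nonneg fun x hx => ?_) hA
    obtain ⟨μ, hμ, rfl⟩ := List.mem_map.1 hx
    exact E_nonneg U K μ
  obtain ⟨F, hF⟩ : ∃ F : ℕ → ℝ, ∀ j, F j =
      E U K (conv (cpl L) (cp (cpl S) j)) - E U K (cp (cpl S) j) := ⟨_, fun _ => rfl⟩
  have key : ∀ j, E U K (cp (cpl S) (j + L.length + 1)) - E U K (cp (cpl S) (j + L.length)) ≤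
      q * (c.toReal * (F j - F (j + L.length))) := by
    intro j
    have b1 := del_cpl_le U K hS (cp (cpl S) (j + L.length))
    have b2 := hD (fun ν => del U K ν (cp (cpl S) (j + L.length)))
      (fun ν hν => by
        have := (hS ν hν).prob
        exact del_nonneg U K ν _)
      (fun ν hν => by
        have := (hS ν hν).prob
        exact del_refl U K (refl_cp hsym _))
      (fun ν hν ht => by
        have := (hS ν hν).prob
        exact del_at K ht)
    have b3 := (XX_le U K (cp (cpl S) (j + L.length)) hc L hgL ρ inferInstance hρ h1).2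
    have b4 := (XX_le U K (cp (cpl S) (j + L.length)) hc L' hgL' ρ inferInstance hρ h2).1
    have b5 : (L.map fun ν => del U K ν (cp (cpl S) (j + L.length))).sum ≤ F j := by
      have h3 := sum_del_le U K (cp (cpl S) j) L hgL α hα
      rw [← conv_assoc α, ← eα, cp_add, add_comm L.length j, ← hF] at h3
      exact h3
    rw [XX_cpl U K hgL] at b3
    have b6 : E U K (cp (cpl S) (j + L.length)) +
        (L.map fun ν => del U K ν (cp (cpl S) (j + L.length))).sum -
        E U K (conv (cpl L) (cp (cpl S) (j + L.length))) ≤ F j - F (j + L.length) := by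
      rw [hF (j + L.length)]
      linarith
    have b7 := mul_le_mul_of_nonneg_left b6 (ENNReal.toReal_nonneg (a := c))
    unfold XX at b3 b4
    rw [← hEE _ inferInstance] at b4
    have b8 : (L.map fun ν => del U K ν (cp (cpl S) (j + L.length))).sum -
        (L'.map fun ν => del U K ν (cp (cpl S) (j + L.length))).sum ≤
        c.toReal * (F j - F (j + L.length)) := by linarith
    have b9 := mul_le_mul_of_nonneg_left b8 hq
    have e1 : conv (cpl S) (cp (cpl S) (j + L.length)) = cp (cpl S) (j + L.length + 1) := rfl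
    rw [e1] at b1
    linarith
  have hF0 : ∀ j, 0 ≤ F j := by
    intro j
    rw [hF]
    have := E_mono U K (cpl L) (cp (cpl S) j)
    linarith
  have hFA : ∀ j, F j ≤ L.length * A := by
    intro j
    rw [hF]
    refine (del_cpl_le U K hgL (cp (cpl S) j)).trans (sum_le_length fun ν hν => ?_)
    have := (hgL ν hν).prob
    exact (del_le U K ν _).trans (hEA ν (hL ν hν))
  have hlin : ∀ i, E U K (cp (cpl S) i) ≤ i * A := by
    intro i
    induction i with
    | zero =>
      have := E_dirac U K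
      push_cast
      rw [zero_mul]
      exact this
    | succ i ih =>
      have c1 := del_cpl_le U K hS (cp (cpl S) i)
      have c2 : (S.map fun ν => del U K ν (cp (cpl S) i)).sum ≤ (S.map fun ν => E U K ν).sum :=
        sum_le_of_forall fun ν hν => by
          have := (hS ν hν).prob
          exact del_le U K ν _
      have e1 : conv (cpl S) (cp (cpl S) i) = cp (cpl S) (i + 1) := rfl
      rw [e1] at c1
      push_cast
      linarith
  have hsum : ∑ i ∈ Finset.range N, (E U K (cp (cpl S) (i + L.length + 1)) -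
      E U K (cp (cpl S) (i + L.length))) ≤
      ∑ i ∈ Finset.range N, q * (c.toReal * (F i - F (i + L.length))) :=
    Finset.sum_le_sum fun i _ => key i
  have ht := tele F L.length N
  have hs := Finset.sum_range_sub (fun i => E U K (cp (cpl S) (i + L.length))) N
  have e3 : ∑ i ∈ Finset.range N, (E U K (cp (cpl S) (i + L.length + 1)) -
      E U K (cp (cpl S) (i + L.length))) =
      E U K (cp (cpl S) (N + L.length)) - E U K (cp (cpl S) L.length) := by
    rw [show E U K (cp (cpl S) L.length) = E U K (cp (cpl S) (0 + L.length)) by rw [zero_add],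
      ← hs]
    refine Finset.sum_congr rfl fun i _ => ?_
    rw [show i + L.length + 1 = i + 1 + L.length by ring]
  have e4 : ∑ i ∈ Finset.range N, q * (c.toReal * (F i - F (i + L.length))) =
      q * (c.toReal * -(∑ i ∈ Finset.range N, (F (i + L.length) - F i))) := by
    rw [← Finset.mul_sum, ← Finset.mul_sum, ← Finset.sum_neg_distrib]
    congr 2
    exact Finset.sum_congr rfl fun i _ => by ring
  have e5 : -(∑ i ∈ Finset.range N, (F (i + L.length) - F i)) ≤ L.length * (L.length * A) := by
    rw [ht, ← Finset.sum_neg_distrib]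
    have : ∀ i ∈ Finset.range L.length, -(F (N + i) - F i) ≤ L.length * A := by
      intro i _
      have d1 := hF0 (N + i)
      have d2 := hFA i
      linarith
    have h3 := Finset.sum_le_sum this
    rwa [Finset.sum_const, Finset.card_range, nsmul_eq_mul] at h3
  rw [e3, e4] at hsum
  have e6 := mul_le_mul_of_nonneg_left (mul_le_mul_of_nonneg_left e5
    (ENNReal.toReal_nonneg (a := c))) hq
  have e7 := hlin L.length
  have e8 : q * (c.toReal * (L.length * (L.length * A))) =
      q * (c.toReal * L.length ^ 2) * A := by ring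
  rw [e8] at e6
  linarith

theorem coreT {S L L' : List (Measure Tor)} (hS : ∀ μ ∈ S, Good μ) (hsym : refl (cpl S) = cpl S)
    (hL : ∀ μ ∈ L, μ ∈ S) (hL' : ∀ μ ∈ L', μ ∈ S) (hD : DomT S L L')
    {U : Ultrafilter ℕ} (hU : (U : Filter ℕ) ≤ atTop) (hR : ¬ Rigid (cpl S))
    {ρ : Measure Tor} [IsProbabilityMeasure ρ] (hρ : Inv ρ) {c : ℝ≥0∞} (hc : c ≠ ⊤)
    (h1 : ρ ≤ c • cpl L) (h2 : ρ ≤ c • cpl L') :
    ∃ C : ℝ, ∀ K : ℕ, K * Real.log 2 ≤ C * (S.map fun μ => ent μ K + Real.log 2).sum := by
  obtain ⟨q, hq, hD⟩ := hD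
  have hSp := cpl_prob hS
  refine ⟨L.length + q * (c.toReal * L.length ^ 2), fun K => ?_⟩
  have hA : (S.map fun ν => E U K ν).sum ≤ (S.map fun μ => ent μ K + Real.log 2).sum :=
    sum_le_of_forall fun ν hν => by
      have := (hS ν hν).prob
      exact (E_le U K ν (hS ν hν).inv).trans (en_le_ent K ν)
  have hb := fun N => boundT U K hS hsym hL hL' hq hD hρ hc h1 h2 hA N
  have hκ : ∀ N, IsLim U (cp (cpl S) N) (kk U (cp (cpl S) N)) := fun N => kk_lim U _
  have hlim := en_lim K (fun N => cp (cpl S) N) (fun N => kk U (cp (cpl S) N)) fun j hj => by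
    show Tendsto (fun N => qq (cpl S) (fun N => kk U (cp (cpl S) N)) j N) atTop (𝓝 0)
    have h0 : 0 ≤ qq (cpl S) (fun N => kk U (cp (cpl S) N)) j 1 :=
      integral_nonneg fun _ => by positivity
    have h3 : qq (cpl S) (fun N => kk U (cp (cpl S) N)) j 1 < 1 := by
      by_contra hcon
      rw [not_lt] at hcon
      refine hR (Helper26.IP.rigid_of_one hU (Helper75.IP.C.lim_one hκ) hj ?_)
      unfold qq at hcon
      rwa [cp_one] at hcon
    have h4 := (tendsto_pow_atTop_nhds_zero_of_lt_one h0 h3).mul_const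
      (qq (cpl S) (fun N => kk U (cp (cpl S) N)) j 0)
    rw [zero_mul] at h4
    exact h4.congr fun N => (qq_pow hκ j N).symm
  have hlim' := (tendsto_add_atTop_iff_nat L.length).2 hlim
  exact le_of_tendsto' hlim' hb

end Helper75.IP.G
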