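import Mathlib
import Pool.Agent.Helper75.IP.CoreT
import Pool.Agent.Helper75.IP.RF
import Pool.Agent.Helper16.IP.Common
import Pool.Agent.Helper40.IP.Zero
import Pool.Agent.Helper97.IP.Char
import Pool.Agent.Helper97.IP.RL

/-!
# Independent powers for monomials: assembly with free torsion measures
-/

set_option autoImplicit false
open MeasureTheory Filter Topology ProbabilityTheory Helper35.AG Helper75.IP
open scoped ENNReal

namespace Helper75.IP.G

open Helper97.IP (rigid_list)
open Helper75.IP.F (rigid_factor)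

theorem W_nonneg (n : ℤ) (μ : Measure Tor) : 0 ≤ W n μ :=
  integral_nonneg fun _ => by positivity

theorem W_refl (n : ℤ) (μ : Measure Tor) : W n (Helper75.IP.refl μ) = W n μ := by
  unfold W Helper75.IP.refl
  rw [integral_map measurable_neg.aemeasurable]
  · refine integral_congr_ae (Eventually.of_forall fun x => ?_)
    show ‖(fourier n (-x) : ℂ) - 1‖ ^ 2 = ‖(fourier n x : ℂ) - 1‖ ^ 2
    have h : (fourier n (-x) : ℂ) = star (fourier n x : ℂ) := by
      rw [Complex.star_def, ← fourier_neg, fourier_apply, fourier_apply, smul_neg, neg_smul]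
    have h2 : (fourier n (-x) : ℂ) - 1 = star ((fourier n x : ℂ) - 1) := by
      rw [h, star_sub, star_one]
    rw [h2, norm_star]
  · exact ((((fourier n).continuous.sub continuous_const).norm).pow 2).aestronglyMeasurable

theorem W_pos {μ : Measure Tor} [IsProbabilityMeasure μ] (hat : ∀ x, μ {x} = 0) {n : ℤ}
    (hn : n ≠ 0) : 0 < W n μ := Helper97.IP.E_pos hat hn

/-- rigidity of a product passes to all factors -/
theorem rigid_all {N : ℕ → ℤ} : ∀ {S : List (Measure Tor)}, (∀ μ ∈ S, Good μ) →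
    Tendsto (fun k => W (N k) (cpl S)) atTop (𝓝 0) →
    ∀ μ ∈ S, Tendsto (fun k => W (N k) μ) atTop (𝓝 0)
  | [], _, _, μ, hμ => by simp at hμ
  | ν :: S, hS, h, μ, hμ => by
    have h1 := hS ν List.mem_cons_self
    have h2 : ∀ μ ∈ S, Good μ := fun μ hμ => hS μ (List.mem_cons_of_mem ν hμ)
    have := h1.prob
    have := cpl_prob h2
    obtain ⟨a, b⟩ := rigid_factor h1.inv (cpl_inv h2) h
    rcases List.mem_cons.1 hμ with h3 | h3
    · rw [h3]
      exact a
    · exact rigid_all h2 b μ h3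


theorem fourier_mod {Q : ℕ} (n : ℤ) {x : Tor} (h : Q • x = 0) :
    (fourier n x : ℂ) = fourier (n % (Q : ℤ)) x := by
  have h1 : n • x = (n % (Q : ℤ)) • x := by
    conv_lhs => rw [← Int.emod_add_mul_ediv n (Q : ℤ)]
    rw [add_smul, mul_comm, mul_smul, natCast_zsmul, h, smul_zero, add_zero]
  rw [fourier_apply, fourier_apply, h1]

theorem W_at {ν : Measure Tor} (h : At ν) {N : ℕ → ℤ}
    (h0 : Tendsto (fun k => W (N k) ν) atTop (𝓝 0)) : ∀ᶠ k in atTop, W (N k) ν = 0 := by
  obtain ⟨Q, hQ, h⟩ := h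
  have hQ' : (Q : ℤ) ≠ 0 := by exact_mod_cast hQ.ne'
  have e : ∀ n : ℤ, W n ν = W (n % (Q : ℤ)) ν := by
    intro n
    unfold W
    refine integral_congr_ae ?_
    filter_upwards [h] with x hx
    rw [fourier_mod n hx]
  set V : Set ℝ := (fun r : ℕ => W (r : ℤ) ν) '' (Set.Iio Q) with hV
  have hVf : V.Finite := (Set.finite_Iio Q).image _
  have hmem : ∀ n : ℤ, W n ν ∈ V := by
    intro n
    rw [e n]
    refine ⟨(n % (Q : ℤ)).toNat, ?_, ?_⟩
    · have h1 := Int.emod_lt_of_pos n (by exact_mod_cast hQ : (0 : ℤ) < Q)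
      have h2 := Int.emod_nonneg n hQ'
      show (n % (Q : ℤ)).toNat < Q
      omega
    · show W (((n % (Q : ℤ)).toNat : ℕ) : ℤ) ν = _
      rw [Int.toNat_of_nonneg (Int.emod_nonneg n hQ')]
  have hcl : IsClosed (V \ {0}) := (hVf.subset Set.diff_subset).isClosed
  have hn : (V \ {0})ᶜ ∈ 𝓝 (0 : ℝ) := hcl.compl_mem_nhds (by simp)
  filter_upwards [h0 hn] with k hk
  by_contra hne
  exact hk ⟨hmem (N k), hne⟩

theorem eventually_W_at {N : ℕ → ℤ} : ∀ {S : List (Measure Tor)},
    (∀ μ ∈ S, Tendsto (fun k => W (N k) μ) atTop (𝓝 0)) →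
    ∀ᶠ k in atTop, ∀ ν ∈ S, At ν → W (N k) ν = 0
  | [], _ => Eventually.of_forall fun k ν hν => by simp at hν
  | μ :: S, h => by
    have h1 : ∀ᶠ k in atTop, At μ → W (N k) μ = 0 := by
      by_cases ht : At μ
      · filter_upwards [W_at ht (h μ List.mem_cons_self)] with k hk _
        exact hk
      · exact Eventually.of_forall fun k h2 => absurd h2 ht
    have h2 := eventually_W_at fun ν hν => h ν (List.mem_cons_of_mem μ hν)
    filter_upwards [h1, h2] with k hk1 hk2 ν hν ht
    rcases List.mem_cons.1 hν with h3 | h3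
    · rw [h3] at ht ⊢
      exact hk1 ht
    · exact hk2 ν h3 ht

/-- monomials of different degrees, one of the factors without atoms -/
theorem indepT {S L L' : List (Measure Tor)} (hS : ∀ μ ∈ S, Good μ) (hsym : refl (cpl S) = cpl S)
    (hne : ∀ μ ∈ S, μ ≠ volume) (hat : ∃ μ ∈ S, ∀ x, μ {x} = 0)
    (hL : ∀ μ ∈ L, μ ∈ S) (hL' : ∀ μ ∈ L', μ ∈ S) (hD : DomT S L L') :
    Measure.MutuallySingular (cpl L) (cpl L') := by
  have hLg : ∀ μ ∈ L, Good μ := fun μ hμ => hS μ (hL μ hμ)
  have hLg' : ∀ μ ∈ L', Good μ := fun μ hμ => hS μ (hL' μ hμ)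
  have := cpl_prob hLg
  have := cpl_prob hLg'
  have := cpl_prob hS
  by_contra h
  obtain ⟨ρ, c, hρp, hρ, hc, h1, h2⟩ :=
    Helper16.IP.common (cpl_inv hLg) (cpl_inv hLg') h
  by_cases hR : Rigid (cpl S)
  · choose N hN0 hN using fun k : ℕ => hR (1 / ((k : ℝ) + 1)) Nat.one_div_pos_of_nat
    have h0 : Tendsto (fun k => W (N k) (cpl S)) atTop (𝓝 0) :=
      squeeze_zero (fun k => W_nonneg _ _) (fun k => (hN k).le)
        tendsto_one_div_add_atTop_nhds_zero_nat
    have h3 := rigid_all hS h0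
    obtain ⟨η, hη, e1⟩ := rigid_list hS h3 hL hρ hc h1
    obtain ⟨η', hη', e2⟩ := rigid_list hS h3 hL' hρ hc h2
    obtain ⟨q, hq, hD⟩ := hD
    obtain ⟨μ, hμ, hμa⟩ := hat
    have h4 : Tendsto (fun k => q * (η k + η' k)) atTop (𝓝 (q * (0 + 0))) :=
      (hη.add hη').const_mul q
    simp only [add_zero, mul_zero] at h4
    have hat0 := eventually_W_at h3
    obtain ⟨k, hk, hk2⟩ := ((h4.eventually (gt_mem_nhds one_pos)).and hat0).exists
    have h5 := hD (W (N k)) (fun ν _ => W_nonneg _ _) (fun ν _ => W_refl _ _) hk2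
    have h6 : 0 < (S.map (W (N k))).sum := by
      have := (hS μ hμ).prob
      exact (W_pos hμa (hN0 k)).trans_le (le_sum (fun ν _ => W_nonneg (N k) ν) hμ)
    have h7 := abs_le.1 (e1 k)
    have h8 := abs_le.1 (e2 k)
    have h9 : (L.map (W (N k))).sum - (L'.map (W (N k))).sum ≤
        (η k + η' k) * (S.map (W (N k))).sum := by
      have := h7.1
      have := h8.2
      linarith [h7.1, h7.2, h8.1, h8.2]
    have h10 : (S.map (W (N k))).sum ≤ q * ((η k + η' k) * (S.map (W (N k))).sum) :=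
      h5.trans (mul_le_mul_of_nonneg_left h9 hq)
    nlinarith
  · obtain ⟨C, hC⟩ := Helper75.IP.G.coreT (U := hyperfilter ℕ) hS hsym hL hL' hD
      ((hyperfilter_le_cofinite (α := ℕ)).trans_eq Nat.cofinite_eq_atTop) hR hρ hc h1 h2
    have hlim : ∀ T : List (Measure Tor), (∀ μ ∈ T, Good μ) → (∀ μ ∈ T, μ ≠ volume) →
        Tendsto (fun K : ℕ => (T.map fun μ => ent μ K + Real.log 2).sum / K) atTop (𝓝 0) := by
      intro T
      induction T with
      | nil => intro _ _; simp
      | cons ν T ih =>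
        intro hT hTn
        have g := hT ν List.mem_cons_self
        have := g.prob
        have a1 := Pool.Agent.Helper40.IP.zero_ent g.inv g.ext (hTn ν List.mem_cons_self)
        have a2 := ih (fun μ hμ => hT μ (List.mem_cons_of_mem ν hμ))
          (fun μ hμ => hTn μ (List.mem_cons_of_mem ν hμ))
        have a3 : Tendsto (fun K : ℕ => Real.log 2 / K) atTop (𝓝 0) :=
          tendsto_const_nhds.div_atTop tendsto_natCast_atTop_atTop
        have a4 := (a1.add a3).add a2
        simp only [add_zero] at a4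
        refine a4.congr fun K => ?_
        rw [List.map_cons, List.sum_cons]
        ring
    have h3 := (hlim S hS hne).const_mul C
    rw [mul_zero] at h3
    have h4 : Real.log 2 ≤ 0 := by
      refine ge_of_tendsto h3 ((eventually_gt_atTop 0).mono fun K hK => ?_)
      have hK' : (0 : ℝ) < K := by exact_mod_cast hK
      have h5 := hC K
      rw [← mul_div_assoc, le_div_iff₀ hK']
      linarith
    have := Real.log_pos one_lt_two
    linarith

end Helper75.IP.G
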