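import Mathlib
import Pool.Agent.Helper75.IP.IndepT
import Pool.Agent.Helper88.IP.Trans
import Pool.Agent.Helper25.AG.Near

/-!
# Independent powers for monomials: translates
-/

set_option autoImplicit false
open MeasureTheory Filter Topology ProbabilityTheory Helper35.AG
open scoped ENNReal

namespace Helper75.IP.G

open Helper75.IP Helper16.IP

/-- a multiple of Lebesgue measure gives positive entropy -/
theorem en_ge_vol (K : ℕ) {α σ : Measure Tor} [IsProbabilityMeasure α] [IsFiniteMeasure σ]
    {a : ℝ≥0∞} (ha1 : a ≤ 1) (h : α = a • (volume : Measure Tor) + σ) :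
    a.toReal * (K * Real.log 2) ≤ en K α := by
  have hat : a ≠ ⊤ := ne_top_of_le_ne_top ENNReal.one_ne_top ha1
  have ha0 : 0 ≤ a.toReal := ENNReal.toReal_nonneg
  have ha1' : a.toReal ≤ 1 := by
    have := ENNReal.toReal_mono ENNReal.one_ne_top ha1
    simpa using this
  have hq : ∀ i ∈ Finset.range (2 ^ K), ∀ y : Tor,
      a.toReal * (1 / 2 ^ K * (K * Real.log 2)) ≤ Real.negMulLog (q K i α y) := by
    intro i hi y
    have hi' : i < 2 ^ K := Finset.mem_range.1 hi
    have hms := measurableSet_shift K i y
    have e1 : (volume : Measure Tor).real {x | idx K (x + y) = i} = 1 / 2 ^ K := by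
      rw [← Helper25.AG.volume_cell K hi']
      have h1 : {x : Tor | idx K (x + y) = i} = (fun x => x + y) ⁻¹' {x | idx K x = i} := rfl
      rw [measureReal_def, h1, measure_preimage_add_right, measureReal_def]
    have hfin : IsFiniteMeasure (a • (volume : Measure Tor)) := Measure.smul_finite _ hat
    have e2 : q K i α y = a.toReal * (1 / 2 ^ K) + σ.real {x | idx K (x + y) = i} := by
      unfold q
      rw [← e1]
      conv_lhs => rw [h]
      rw [measureReal_add_apply, measureReal_ennreal_smul_apply]
    have e3 : Real.negMulLog (1 / 2 ^ K) = 1 / 2 ^ K * (K * Real.log 2) := by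
      unfold Real.negMulLog
      rw [Real.log_div one_ne_zero (by positivity), Real.log_one, Real.log_pow]
      ring
    have h0 : 0 ≤ σ.real {x | idx K (x + y) = i} := measureReal_nonneg
    have hq1 := q_le_one K i α y
    rcases ha1'.eq_or_lt with h2 | h2
    · have h3 : σ.real {x | idx K (x + y) = i} = 0 := by
        have h4 : σ Set.univ = 0 := by
          have h5 : α Set.univ = 1 := measure_univ
          rw [h, Measure.add_apply, Measure.smul_apply, measure_univ, smul_eq_mul, mul_one] at h5
          have h6 : a = 1 := by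
            rw [← ENNReal.ofReal_toReal hat, h2]
            simp
          rw [h6] at h5
          have h7 : (1 : ℝ≥0∞) + σ Set.univ = 1 + 0 := by rw [h5, add_zero]
          exact (ENNReal.add_right_inj ENNReal.one_ne_top).1 h7
        have h8 : σ {x | idx K (x + y) = i} = 0 :=
          le_antisymm ((measure_mono (Set.subset_univ _)).trans h4.le) bot_le
        rw [measureReal_def, h8]
        simp
      rw [e2, h3, h2, one_mul, one_mul, add_zero, e3]
    · have h3 : 0 < 1 - a.toReal := by linarith
      have hc := Real.concaveOn_negMulLog.2 (show (1 / 2 ^ K : ℝ) ∈ Set.Ici (0 : ℝ) from by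
          show (0 : ℝ) ≤ 1 / 2 ^ K
          positivity)
        (show σ.real {x | idx K (x + y) = i} / (1 - a.toReal) ∈ Set.Ici (0 : ℝ) from
          div_nonneg h0 h3.le) ha0 h3.le (by ring)
      simp only [smul_eq_mul] at hc
      rw [mul_div_cancel₀ _ h3.ne', ← e2, e3] at hc
      refine le_trans ?_ hc
      have h9 : σ.real {x | idx K (x + y) = i} / (1 - a.toReal) ≤ 1 := by
        rw [div_le_one h3]
        have h5 : α.real Set.univ = 1 := by simp
        have h6 : α.real Set.univ = a.toReal + σ.real Set.univ := by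
          conv_lhs => rw [h]
          rw [measureReal_add_apply, measureReal_ennreal_smul_apply]
          simp
        have h7 : σ.real {x | idx K (x + y) = i} ≤ σ.real Set.univ :=
          measureReal_mono (Set.subset_univ _)
        linarith
      have h10 := mul_nonneg h3.le (Real.negMulLog_nonneg (div_nonneg h0 h3.le) h9)
      linarith
  rw [en_eq]
  have h1 : ∀ i ∈ Finset.range (2 ^ K), a.toReal * (1 / 2 ^ K * (K * Real.log 2)) ≤
      ∫ y, Real.negMulLog (q K i α y) ∂(volume : Measure Tor) := by
    intro i hi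
    have h2 := integral_mono (μ := (volume : Measure Tor)) (integrable_const _)
      (integrable_nml (measurable_q K i α) (q_nonneg K i α) (q_le_one K i α)) (hq i hi)
    simpa using h2
  have h2 := Finset.sum_le_sum h1
  rw [Finset.sum_const, Finset.card_range, nsmul_eq_mul] at h2
  refine le_trans (le_of_eq ?_) h2
  push_cast
  field_simp

theorem en_cpl_le (K : ℕ) {L : List (Measure Tor)} (hL : ∀ μ ∈ L, Good μ) :
    en K (cpl L) ≤ (L.map fun μ => ent μ K + Real.log 2).sum := by
  induction L with
  | nil =>
    show en K (Measure.dirac 0) ≤ 0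
    rw [en_dirac]
  | cons μ L ih =>
    have h1 := (hL μ List.mem_cons_self).prob
    have h2 : ∀ ν ∈ L, Good ν := fun ν hν => hL ν (List.mem_cons_of_mem μ hν)
    have := cpl_prob h2
    rw [List.map_cons, List.sum_cons]
    exact (Helper75.IP.C.en_add_le K μ (cpl L)).trans (add_le_add (en_le_ent K μ) (ih h2))

theorem tendsto_sum {T : List (Measure Tor)} (hT : ∀ μ ∈ T, Good μ)
    (hTn : ∀ μ ∈ T, μ ≠ volume) :
    Tendsto (fun K : ℕ => (T.map fun μ => ent μ K + Real.log 2).sum / K) atTop (𝓝 0) := by
  induction T with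
  | nil => simp
  | cons ν T ih =>
    have g := hT ν List.mem_cons_self
    have := g.prob
    have a1 := Pool.Agent.Helper40.IP.zero_ent g.inv g.ext (hTn ν List.mem_cons_self)
    have a2 := ih (fun μ hμ => hT μ (List.mem_cons_of_mem ν hμ))
      (fun μ hμ => hTn μ (List.mem_cons_of_mem ν hμ))
    have a3 : Tendsto (fun K : ℕ => Real.log 2 / K) atTop (𝓝 0) :=
      tendsto_const_nhds.div_atTop tendsto_natCast_atTop_atTop
    have a4 := (a1.add a3).add a2
    simp only [add_zero] at a4
    refine a4.congr fun K => ?_
    rw [List.map_cons, List.sum_cons]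
    ring

/-- products of extreme measures different from Lebesgue measure are singular -/
theorem sing_vol_list {L : List (Measure Tor)} (hL : ∀ μ ∈ L, Good μ)
    (hne : ∀ μ ∈ L, μ ≠ volume) : Measure.MutuallySingular (cpl L) (volume : Measure Tor) := by
  have := cpl_prob hL
  obtain ⟨a, σ, ha1, hσf, hdec, hσ⟩ := Pool.Agent.Helper88.AG.decomp (cpl L)
    (cpl_inv hL).two.map_eq
  have hat : a ≠ ⊤ := ne_top_of_le_ne_top ENNReal.one_ne_top ha1
  by_cases ha : a = 0
  · rw [hdec, ha, zero_smul, zero_add]
    exact hσ
  · exfalso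
    have ha' : 0 < a.toReal := ENNReal.toReal_pos ha hat
    have h1 := tendsto_sum hL hne
    have h2 : a.toReal * Real.log 2 ≤ 0 := by
      refine ge_of_tendsto h1 ((eventually_gt_atTop 0).mono fun K hK => ?_)
      have hK' : (0 : ℝ) < K := by exact_mod_cast hK
      rw [le_div_iff₀ hK']
      have h3 := (en_ge_vol K ha1 hdec).trans (en_cpl_le K hL)
      linarith
    have h4 := mul_pos ha' (Real.log_pos one_lt_two)
    linarith

/-- **TI** irrational translates of a product -/
theorem irrational_translate {L L' : List (Measure Tor)} (hL : ∀ μ ∈ L, Good μ)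
    (hL' : ∀ μ ∈ L', Good μ) (hne : ∀ μ ∈ L, μ ≠ volume) {u : Tor}
    (h : ∀ k : ℕ, 0 < k → k • u ≠ 0) :
    Measure.MutuallySingular ((cpl L).map fun x => x + u) (cpl L') := by
  have hMI : Helper17.FurstPQ.MI 2 3 := by
    refine ⟨le_rfl, by norm_num, ?_⟩
    exact_mod_cast Helper17.Furst.log_irr
  have := cpl_prob hL
  have hi := cpl_inv hL
  exact (Helper17.TranslM.main hMI (sing_vol_list hL hne) hi.two hi.three le_rfl).1 u h
    (cpl L') (cpl_prob hL') (cpl_inv hL').two

/-! ### images -/

/-- image under multiplication by `N` -/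
noncomputable def im (N : ℕ) (μ : Measure Tor) : Measure Tor := μ.map fun x => N • x

theorem measurable_im (N : ℕ) : Measurable fun x : Tor => N • x := by fun_prop

theorem im_cpl (N : ℕ) {L : List (Measure Tor)} (h : ∀ μ ∈ L, IsProbabilityMeasure μ) :
    cpl (L.map (im N)) = im N (cpl L) := by
  induction L with
  | nil =>
    show Measure.dirac 0 = (Measure.dirac (0 : Tor)).map fun x => N • x
    rw [Measure.map_dirac' (measurable_im N), smul_zero]
  | cons μ L ih =>
    have h1 := h μ List.mem_cons_self
    have h2 : ∀ ν ∈ L, IsProbabilityMeasure ν := fun ν hν => h ν (List.mem_cons_of_mem μ hν)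
    have := cpl_prob' h2
    rw [List.map_cons]
    show conv (im N μ) (cpl (L.map (im N))) = im N (conv μ (cpl L))
    rw [ih h2]
    exact Helper88.IP.map_conv N

theorem im_refl (N : ℕ) (μ : Measure Tor) :
    im N (Helper75.IP.refl μ) = Helper75.IP.refl (im N μ) := by
  unfold im Helper75.IP.refl
  rw [Measure.map_map (measurable_im N) measurable_neg,
    Measure.map_map measurable_neg (measurable_im N)]
  congr 1
  funext x
  show N • (-x) = -(N • x)
  rw [smul_neg]

theorem good_im {N : ℕ} {μ : Measure Tor} (h : Good μ) : Good (im N μ) := by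
  have := h.prob
  exact ⟨Measure.isProbabilityMeasure_map (measurable_im N).aemeasurable,
    Helper88.IP.inv_map h.inv N, Helper88.IP.ext_map h.inv h.ext N⟩

theorem at_im {N : ℕ} {μ : Measure Tor} (h : At μ) : At (im N μ) := by
  obtain ⟨Q, hQ, h⟩ := h
  refine ⟨Q, hQ, ?_⟩
  unfold im
  have hm : MeasurableSet {x : Tor | Q • x = 0} :=
    (measurable_im Q) (measurableSet_singleton 0)
  rw [ae_map_iff (measurable_im N).aemeasurable hm]
  filter_upwards [h] with x hx
  rw [smul_comm, hx, smul_zero]

/-- **TG** translates -/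
theorem indepT_translate {S L L' : List (Measure Tor)} (hS : ∀ μ ∈ S, Good μ)
    (hsym : Helper75.IP.refl (cpl S) = cpl S)
    (hne : ∀ μ ∈ S, μ ≠ volume) (hat : ∃ μ ∈ S, ∀ x, μ {x} = 0)
    (hL : ∀ μ ∈ L, μ ∈ S) (hL' : ∀ μ ∈ L', μ ∈ S) (hD : DomT S L L') (u : Tor) :
    Measure.MutuallySingular ((cpl L).map fun x => x + u) (cpl L') := by
  by_cases hu : addOrderOf u = 0
  · exact irrational_translate (fun μ hμ => hS μ (hL μ hμ)) (fun μ hμ => hS μ (hL' μ hμ))
      (fun μ hμ => hne μ (hL μ hμ)) (addOrderOf_eq_zero_iff'.1 hu)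
  · set N := addOrderOf u with hN
    have hNpos : 0 < N := Nat.pos_of_ne_zero hu
    have ha : Measurable fun x : Tor => x + u := by fun_prop
    have hSp : ∀ μ ∈ S, IsProbabilityMeasure μ := fun μ hμ => (hS μ hμ).prob
    have hgS : ∀ μ ∈ S.map (im N), Good μ := by
      intro μ hμ
      obtain ⟨ν, hν, rfl⟩ := List.mem_map.1 hμ
      exact good_im (hS ν hν)
    have h1 := indepT (S := S.map (im N)) (L := L.map (im N)) (L' := L'.map (im N)) hgS
      (by rw [im_cpl N hSp, ← im_refl, hsym])
      (by
        intro μ hμ
        obtain ⟨ν, hν, rfl⟩ := List.mem_map.1 hμ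
        have := (hS ν hν).prob
        have hs : Measure.MutuallySingular ν (volume : Measure Tor) := by
          have h2 := sing_vol_list (L := [ν]) (by simpa using hS ν hν) (by simpa using hne ν hν)
          have h3 : cpl [ν] = ν := conv_dirac ν
          rwa [h3] at h2
        exact Helper88.IP.sing_map hs hNpos)
      (by
        obtain ⟨μ, hμ, hμa⟩ := hat
        have := (hS μ hμ).prob
        exact ⟨im N μ, List.mem_map_of_mem hμ, Helper88.IP.atoms_map hμa hNpos⟩)
      (by
        intro μ hμ
        obtain ⟨ν, hν, rfl⟩ := List.mem_map.1 hμ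
        exact List.mem_map_of_mem (hL ν hν))
      (by
        intro μ hμ
        obtain ⟨ν, hν, rfl⟩ := List.mem_map.1 hμ
        exact List.mem_map_of_mem (hL' ν hν))
      (by
        obtain ⟨q, hq, hD⟩ := hD
        refine ⟨q, hq, fun w h1 h2 h3 => ?_⟩
        have h4 := hD (fun ν => w (im N ν)) (fun ν hν => h1 _ (List.mem_map_of_mem hν))
          (fun ν hν => by
            show w (im N (Helper75.IP.refl ν)) = w (im N ν)
            rw [im_refl]
            exact h2 _ (List.mem_map_of_mem hν))
          (fun ν hν ht => h3 _ (List.mem_map_of_mem hν) (at_im ht))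
        simp only [List.map_map]
        exact h4)
    rw [im_cpl N fun μ hμ => hSp μ (hL μ hμ), im_cpl N fun μ hμ => hSp μ (hL' μ hμ)] at h1
    refine Helper88.IP.ms_of_map (measurable_im N) ?_
    rw [Measure.map_map (measurable_im N) ha]
    have h2 : ((fun x : Tor => N • x) ∘ fun x => x + u) = fun x : Tor => N • x := by
      funext x
      rw [Function.comp_apply, smul_add, hN, addOrderOf_nsmul_eq_zero, add_zero]
    rw [h2]
    exact h1

end Helper75.IP.G
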