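import Mathlib
import Pool.Agent.Helper75.IP.En

/-!
# Independent powers: frame
-/

set_option autoImplicit false
open MeasureTheory Filter Topology ProbabilityTheory Helper35.AG
open scoped ENNReal

namespace Helper75.IP

variable {U : Ultrafilter ℕ}

/-! ### the functional `en` (E1, E2, E3 are proved in `En.lean`) -/

/-- **E4** -/
theorem en_le_ent (K : ℕ) (ρ : Measure Tor) [IsProbabilityMeasure ρ] :
    en K ρ ≤ ent ρ K + Real.log 2 := by
  sorry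

/-- **E5** concavity -/
theorem en_bind (K : ℕ) (μ : Measure Tor) [IsProbabilityMeasure μ] (κ : Kernel Tor Tor)
    [IsMarkovKernel κ] : ∫ x, en K (κ x) ∂μ ≤ en K (μ.bind κ) := by
  sorry

/-- **E6** -/
theorem en_lim (K : ℕ) (α : ℕ → Measure Tor) [∀ N, IsProbabilityMeasure (α N)]
    (κ : ℕ → Kernel Tor Tor) [∀ N, IsMarkovKernel (κ N)]
    (h : ∀ j : ℤ, j ≠ 0 → Tendsto (fun N => ∫ w, ‖∫ y, (fourier j y : ℂ) ∂(κ N w)‖ ^ 2 ∂(α N))
      atTop (𝓝 0)) :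
    Tendsto (fun N => ∫ w, en K (κ N w) ∂(α N)) atTop (𝓝 (K * Real.log 2)) := by
  sorry

/-! ### limit kernels -/

/-- **K1** -/
theorem exists_lim (U : Ultrafilter ℕ) (α : Measure Tor) [IsProbabilityMeasure α] :
    ∃ κ : Kernel Tor Tor, IsMarkovKernel κ ∧ IsLim U α κ := by
  sorry

/-- **K2** -/
theorem lim_unique {α α' ρ : Measure Tor} [IsProbabilityMeasure α] [IsProbabilityMeasure α']
    [IsProbabilityMeasure ρ] {κ κ' : Kernel Tor Tor} [IsMarkovKernel κ] [IsMarkovKernel κ']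
    (h : IsLim U α κ) (h' : IsLim U α' κ') {c : ℝ≥0∞} (hc : c ≠ ⊤) (h1 : ρ ≤ c • α)
    (h2 : ρ ≤ c • α') : ∀ᵐ w ∂ρ, κ w = κ' w := by
  sorry

/-- **K3** -/
theorem lim_conv {β γ : Measure Tor} [IsProbabilityMeasure β] [IsProbabilityMeasure γ]
    {κ κ' κ'' : Kernel Tor Tor} [IsMarkovKernel κ] [IsMarkovKernel κ'] [IsMarkovKernel κ'']
    (h : IsLim U β κ) (h' : IsLim U γ κ') (h'' : IsLim U (conv β γ) κ'') :
    ∀ᵐ p ∂(β.prod γ), κ'' (p.1 + p.2) = conv (κ p.1) (κ' p.2) := by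
  sorry

/-- **K4** the mean of a limit kernel of an invariant measure -/
theorem bind_eq {μ : Measure Tor} [IsProbabilityMeasure μ] (hμ : Inv μ) {κ : Kernel Tor Tor}
    [IsMarkovKernel κ] (h : IsLim U μ κ) : μ.bind κ = μ := by
  sorry

/-- **K5** rigidity or a gap -/
theorem rigid_of_one (hU : (U : Filter ℕ) ≤ atTop) {μ : Measure Tor} [IsProbabilityMeasure μ]
    {κ : Kernel Tor Tor} [IsMarkovKernel κ] (h : IsLim U μ κ) {j : ℤ} (hj : j ≠ 0)
    (h1 : 1 ≤ ∫ w, ‖∫ y, (fourier j y : ℂ) ∂(κ w)‖ ^ 2 ∂μ) : Rigid μ := by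
  sorry

/-! ### invariance -/

/-- **I1** -/
theorem inv_cp {μ : Measure Tor} [IsProbabilityMeasure μ] (hμ : Inv μ) (n : ℕ) :
    Inv (cp μ n) := by
  sorry

/-- **I2** an invariant measure below a multiple of a convolution: the density and the two marginals
(`Helper26.CG.marg` gives the first marginal) -/
theorem split {μ α ρ : Measure Tor} [IsProbabilityMeasure μ] [IsProbabilityMeasure α]
    [IsProbabilityMeasure ρ] (hμ : Inv μ) (hα : Inv α) (hρ : Inv ρ) (hext : Ext μ)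
    {c : ℝ≥0∞} (hc : c ≠ ⊤) (hle : ρ ≤ c • conv μ α) :
    ∃ J : Measure (Tor × Tor), IsProbabilityMeasure J ∧ J ≤ c • μ.prod α ∧
      J.map (fun p => p.1 + p.2) = ρ ∧ J.map Prod.fst = μ ∧ Inv (J.map Prod.snd) ∧
      J.map Prod.snd ≤ c • α := by
  sorry

/-- **I3** two invariant measures which are not mutually singular -/
theorem common {α β : Measure Tor} [IsProbabilityMeasure α] [IsProbabilityMeasure β]
    (hα : Inv α) (hβ : Inv β) (h : ¬ Measure.MutuallySingular α β) :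
    ∃ (ρ : Measure Tor) (c : ℝ≥0∞), IsProbabilityMeasure ρ ∧ Inv ρ ∧ c ≠ ⊤ ∧
      ρ ≤ c • α ∧ ρ ≤ c • β := by
  sorry

/-! ### the core (helper75) -/

theorem core {μ : Measure Tor} [IsProbabilityMeasure μ] (hμ : Inv μ) (hext : Ext μ)
    (hU : (U : Filter ℕ) ≤ atTop) (hR : ¬ Rigid μ) {m n : ℕ} (hm : 1 ≤ m) (hmn : m < n)
    {ρ : Measure Tor} [IsProbabilityMeasure ρ] (hρ : Inv ρ) {c : ℝ≥0∞} (hc : c ≠ ⊤)
    (h1 : ρ ≤ c • cp μ n) (h2 : ρ ≤ c • cp μ m) :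
    ∃ C : ℝ, ∀ K : ℕ, K * Real.log 2 ≤ C * (ent μ K + Real.log 2) := by
  sorry

/-! ### the rigid case -/

/-- **R**: energy argument of helper97.  `ε_k ^ 2 = ∫ ‖e(n_k x) - 1‖ ^ 2 dμ → 0`, `n_k ≠ 0`; for
invariant `ρ ≤ c cp μ n` the quotient `∫ ‖e(n_k w) - 1‖ ^ 2 dρ / ε_k ^ 2` tends to `n`. -/
theorem rigid_ratio {μ : Measure Tor} [IsProbabilityMeasure μ] (hμ : Inv μ) (hext : Ext μ)
    (hat : ∀ x, μ {x} = 0) {N : ℕ → ℤ} (hN : ∀ k, N k ≠ 0)
    (h0 : Tendsto (fun k => ∫ x, ‖(fourier (N k) x : ℂ) - 1‖ ^ 2 ∂μ) atTop (𝓝 0))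
    (n : ℕ) {ρ : Measure Tor} [IsProbabilityMeasure ρ] (hρ : Inv ρ) {c : ℝ≥0∞} (hc : c ≠ ⊤)
    (hle : ρ ≤ c • cp μ n) :
    Tendsto (fun k => (∫ w, ‖(fourier (N k) w : ℂ) - 1‖ ^ 2 ∂ρ) /
      ∫ x, ‖(fourier (N k) x : ℂ) - 1‖ ^ 2 ∂μ) atTop (𝓝 n) := by
  sorry

/-! ### zero entropy -/

/-- **Z**: Rudolph's theorem in the form needed (from the Lean of LebesguePhases). -/
theorem zero_ent {μ : Measure Tor} [IsProbabilityMeasure μ] (hμ : Inv μ) (hext : Ext μ)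
    (hne : μ ≠ volume) : Tendsto (fun K : ℕ => ent μ K / K) atTop (𝓝 0) := by
  sorry

/-! ### conclusion -/

/-- independent powers -/
theorem indep {μ : Measure Tor} [IsProbabilityMeasure μ] (hμ : Inv μ) (hext : Ext μ)
    (hat : ∀ x, μ {x} = 0) (hne : μ ≠ volume) {m n : ℕ} (hm : 1 ≤ m) (hmn : m < n) :
    Measure.MutuallySingular (cp μ n) (cp μ m) := by
  sorry

/-- **T** translates: by the closed invariant set of the `u` with overlap at least `h` and by the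
image under multiplication by `N` -/
theorem indep_translate {μ : Measure Tor} [IsProbabilityMeasure μ] (hμ : Inv μ) (hext : Ext μ)
    (hat : ∀ x, μ {x} = 0) (hne : μ ≠ volume) {m n : ℕ} (hm : 1 ≤ m) (hmn : m < n) (u : Tor) :
    Measure.MutuallySingular ((cp μ n).map fun x => x + u) (cp μ m) := by
  sorry

end Helper75.IP
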