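import Mathlib
import Pool.Agent.Helper75.IP.DefsG

/-!
# Independent powers for monomials: frame (replaces coreL, indepL, indepL_translate of FrameL)
-/

set_option autoImplicit false
open MeasureTheory Filter Topology ProbabilityTheory Helper35.AG
open scoped ENNReal

namespace Helper75.IP

variable {U : Ultrafilter ℕ}

/-- **G1** (helper26) -/
theorem good_refl {μ : Measure Tor} (h : Good μ) : Good (refl μ) := by
  sorry

/-- **G2** (helper26) -/
theorem refl_conv (α β : Measure Tor) [IsProbabilityMeasure α] [IsProbabilityMeasure β] :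
    refl (conv α β) = conv (refl α) (refl β) := by
  sorry

/-- **G3** (helper16) -/
theorem en_refl (K : ℕ) (ρ : Measure Tor) [IsProbabilityMeasure ρ] : en K (refl ρ) = en K ρ := by
  sorry

/-- **G4** (helper25) -/
theorem lim_refl {α : Measure Tor} [IsProbabilityMeasure α] {κ : Kernel Tor Tor}
    [IsMarkovKernel κ] (h : IsLim U α κ) :
    IsLim U (refl α) ((κ.comap (fun x => -x) measurable_neg).map fun x => -x) := by
  sorry

/-- **CG** (helper75) -/
theorem coreG {S L L' : List (Measure Tor)} (hS : ∀ μ ∈ S, Good μ) (hsym : refl (cpl S) = cpl S)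
    (hL : ∀ μ ∈ L, μ ∈ S) (hL' : ∀ μ ∈ L', μ ∈ S) (hD : Dom S L L')
    (hU : (U : Filter ℕ) ≤ atTop) (hR : ¬ Rigid (cpl S))
    {ρ : Measure Tor} [IsProbabilityMeasure ρ] (hρ : Inv ρ) {c : ℝ≥0∞} (hc : c ≠ ⊤)
    (h1 : ρ ≤ c • cpl L) (h2 : ρ ≤ c • cpl L') :
    ∃ C : ℝ, ∀ K : ℕ, K * Real.log 2 ≤ C * (S.map fun μ => ent μ K + Real.log 2).sum := by
  sorry

/-- **IG** (helper35) monomials of different degrees, one of the factors without atoms -/
theorem indepG {S L L' : List (Measure Tor)} (hS : ∀ μ ∈ S, Good μ) (hsym : refl (cpl S) = cpl S)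
    (hne : ∀ μ ∈ S, μ ≠ volume) (hat : ∃ μ ∈ S, ∀ x, μ {x} = 0)
    (hL : ∀ μ ∈ L, μ ∈ S) (hL' : ∀ μ ∈ L', μ ∈ S) (hD : Dom S L L') :
    Measure.MutuallySingular (cpl L) (cpl L') := by
  sorry

/-- **TG** (helper88) translates -/
theorem indepG_translate {S L L' : List (Measure Tor)} (hS : ∀ μ ∈ S, Good μ)
    (hsym : refl (cpl S) = cpl S)
    (hne : ∀ μ ∈ S, μ ≠ volume) (hat : ∃ μ ∈ S, ∀ x, μ {x} = 0)
    (hL : ∀ μ ∈ L, μ ∈ S) (hL' : ∀ μ ∈ L', μ ∈ S) (hD : Dom S L L') (u : Tor) :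
    Measure.MutuallySingular ((cpl L).map fun x => x + u) (cpl L') := by
  sorry

/-- **TI** (helper88) irrational translates of a product, no condition on the degrees -/
theorem irrational_translate {L L' : List (Measure Tor)} (hL : ∀ μ ∈ L, Good μ)
    (hL' : ∀ μ ∈ L', Good μ) (hne : ∀ μ ∈ L, μ ≠ volume) {u : Tor}
    (h : ∀ k : ℕ, 0 < k → k • u ≠ 0) :
    Measure.MutuallySingular ((cpl L).map fun x => x + u) (cpl L') := by
  sorry

end Helper75.IP
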