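import Mathlib
import Pool.Agent.Helper75.IP.DefsL

/-!
# Independent powers for products: frame
-/

set_option autoImplicit false
open MeasureTheory Filter Topology ProbabilityTheory Helper35.AG
open scoped ENNReal

namespace Helper75.IP

variable {U : Ultrafilter ℕ}

/-- **RF** (helper26) rigidity of a convolution passes to the factors -/
theorem rigid_factor {α β : Measure Tor} [IsProbabilityMeasure α] [IsProbabilityMeasure β]
    (hα : Inv α) (hβ : Inv β) {N : ℕ → ℤ}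
    (h : Tendsto (fun k => W (N k) (conv α β)) atTop (𝓝 0)) :
    Tendsto (fun k => W (N k) α) atTop (𝓝 0) ∧ Tendsto (fun k => W (N k) β) atTop (𝓝 0) := by
  sorry

/-- **RL** (helper97) the energy of a component of a product -/
theorem rigid_list {S : List (Measure Tor)} (hS : ∀ μ ∈ S, Good μ) {N : ℕ → ℤ}
    (h0 : ∀ μ ∈ S, Tendsto (fun k => W (N k) μ) atTop (𝓝 0)) {L : List (Measure Tor)}
    (hL : ∀ μ ∈ L, μ ∈ S) {ρ : Measure Tor} [IsProbabilityMeasure ρ] (hρ : Inv ρ) {c : ℝ≥0∞}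
    (hc : c ≠ ⊤) (hle : ρ ≤ c • cpl L) :
    ∃ η : ℕ → ℝ, Tendsto η atTop (𝓝 0) ∧
      ∀ k, |W (N k) ρ - (L.map (W (N k))).sum| ≤ η k * (S.map (W (N k))).sum := by
  sorry

/-- **CL** (helper75) -/
theorem coreL {S : List (Measure Tor)} (hS : ∀ μ ∈ S, Good μ)
    (hU : (U : Filter ℕ) ≤ atTop) (hR : ¬ Rigid (cpl S)) {m n : ℕ} (hmn : m < n)
    {ρ : Measure Tor} [IsProbabilityMeasure ρ] (hρ : Inv ρ) {c : ℝ≥0∞} (hc : c ≠ ⊤)
    (h1 : ρ ≤ c • cp (cpl S) n) (h2 : ρ ≤ c • cp (cpl S) m) :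
    ∃ C : ℝ, ∀ K : ℕ, K * Real.log 2 ≤ C * (S.map fun μ => ent μ K + Real.log 2).sum := by
  sorry

/-- **IL** (helper35) independent powers of a product, one of the factors without atoms -/
theorem indepL {S : List (Measure Tor)} (hS : ∀ μ ∈ S, Good μ) (hne : ∀ μ ∈ S, μ ≠ volume)
    (hat : ∃ μ ∈ S, ∀ x, μ {x} = 0) {m n : ℕ} (hmn : m < n) :
    Measure.MutuallySingular (cp (cpl S) n) (cp (cpl S) m) := by
  sorry

/-- **TL** (helper88) translates -/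
theorem indepL_translate {S : List (Measure Tor)} (hS : ∀ μ ∈ S, Good μ)
    (hne : ∀ μ ∈ S, μ ≠ volume) (hat : ∃ μ ∈ S, ∀ x, μ {x} = 0) {m n : ℕ} {u : Tor}
    (h : m < n ∨ (∀ k : ℕ, 0 < k → k • u ≠ 0)) :
    Measure.MutuallySingular ((cp (cpl S) n).map fun x => x + u) (cp (cpl S) m) := by
  sorry

/-- **WP** (helper39, helper25) independent measures and polynomials -/
theorem poly_of_singular {r : ℕ} {α : ℕ → Measure Tor} (hα : ∀ n, IsProbabilityMeasure (α n))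
    (h : ∀ m n, m < n → n < r → Measure.MutuallySingular (α n) (α m)) (a : ℕ → ℂ) {ε : ℝ}
    (hε : 0 < ε) :
    ∃ (s : Finset ℤ) (d : ℤ → ℂ), (∀ x : Tor, ‖∑ k ∈ s, d k * fourier k x‖ ≤ 1) ∧
      ∑ n ∈ Finset.range r, ‖a n‖ - ε <
        ‖∑ n ∈ Finset.range r, a n * ∑ k ∈ s, d k * ∫ x, (fourier k x : ℂ) ∂(α n)‖ := by
  sorry

/-- **WP'** the converse for two measures with a common component -/
theorem norm_of_common {α β ρ : Measure Tor} [IsProbabilityMeasure α] [IsProbabilityMeasure β]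
    [IsProbabilityMeasure ρ] {c : ℝ≥0∞} (hc : c ≠ ⊤) (h1 : ρ ≤ c • α) (h2 : ρ ≤ c • β) :
    ∃ δ : ℝ, 0 < δ ∧ ∀ (s : Finset ℤ) (d : ℤ → ℂ), (∀ x : Tor, ‖∑ k ∈ s, d k * fourier k x‖ ≤ 1) →
      ‖∑ k ∈ s, d k * ∫ x, (fourier k x : ℂ) ∂α - ∑ k ∈ s, d k * ∫ x, (fourier k x : ℂ) ∂β‖ ≤
        2 - δ := by
  sorry

end Helper75.IP
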