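import Pool.Agent.Helper91.IP.Defs

/-!
# IP-G2: the interchange process of a graph in the form `Kt`
-/

namespace Pool.Agent.Helper75.IP

open Finset Equiv Matrix Pool.Agent.Helper91.IP

variable {V : Type} [Fintype V] [DecidableEq V]

set_option backward.isDefEq.respectTransparency false in
theorem exp_submatrix_equiv {m n : Type} [Fintype m] [DecidableEq m] [Fintype n] [DecidableEq n]
    (e : m ≃ n) (A : Matrix n n ℝ) :
    NormedSpace.exp (A.submatrix e e) = (NormedSpace.exp A).submatrix e e := by
  open scoped Norms.Operator in
  have h := NormedSpace.map_exp (Matrix.reindexRingEquiv ℝ e.symm : Matrix n n ℝ ≃+* Matrix m m ℝ)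
    (by
      change Continuous fun A : Matrix n n ℝ => A.submatrix e e
      exact Continuous.matrix_submatrix continuous_id _ _) A
  exact h.symm

theorem Am_row (w : V → V → ℝ) (s : Perm V) : ∑ s', Am w s s' = 0 := by
  have hL : ∀ g : Perm V, ∑ s', ((1 : Matrix (Perm V) (Perm V) ℝ) - Lm g) s s' = 0 := by
    intro g
    simp [Lm, Matrix.sub_apply, Matrix.one_apply, Finset.sum_sub_distrib]
  unfold Am
  simp only [Matrix.smul_apply, Matrix.sum_apply, smul_eq_mul]
  rw [← Finset.mul_sum, Finset.sum_comm]
  have h2 : ∀ y, ∑ x, ∑ c, w y c * ((1 : Matrix (Perm V) (Perm V) ℝ) - Lm (swap y c)) s x = 0 := by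
    intro y
    rw [Finset.sum_comm]
    apply Finset.sum_eq_zero
    intro c _
    rw [← Finset.mul_sum, hL, mul_zero]
  rw [Finset.sum_eq_zero (fun y _ => h2 y), mul_zero]

theorem Am_off (G : SimpleGraph V) [DecidableRel G.Adj] {s s' : Perm V} (hne : s ≠ s') :
    Am (srw G) s s' = - (open Classical in if ∃ u v, G.Adj u v ∧ s' = swap u v * s then (1 : ℝ) else 0) := by
  classical
  unfold Am
  simp only [Matrix.smul_apply, Matrix.sum_apply, smul_eq_mul, Matrix.sub_apply,
    Matrix.one_apply_ne hne, Lm, srw]
  split_ifs with h
  · obtain ⟨u, v, huv, hs⟩ := h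
    have hne' : u ≠ v := huv.ne
    have key : ∀ x y : V, (if G.Adj x y then (1 : ℝ) else 0) *
        (0 - if s' = swap x y * s then (1 : ℝ) else 0) =
        - ((if x = u then (if y = v then (1 : ℝ) else 0) else 0) +
          (if x = v then (if y = u then (1 : ℝ) else 0) else 0)) := by
      intro x y
      by_cases hxy : G.Adj x y
      · rw [if_pos hxy, one_mul, zero_sub, neg_inj]
        have hxy' : x ≠ y := hxy.ne
        by_cases h1 : s' = swap x y * s
        · rw [if_pos h1]
          have h2 : swap x y = swap u v := by
            have := h1.symm.trans hs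
            exact mul_right_cancel this
          have h3 : (x = u ∧ y = v) ∨ (x = v ∧ y = u) := by
            have hx : swap u v x ≠ x := by
              rw [← h2, swap_apply_left]; exact hxy'.symm
            have hy : swap u v x = y := by rw [← h2, swap_apply_left]
            by_cases hxu : x = u
            · left; refine ⟨hxu, ?_⟩
              rw [← hy, hxu, swap_apply_left]
            · by_cases hxv : x = v
              · right; refine ⟨hxv, ?_⟩
                rw [← hy, hxv, swap_apply_right]
              · exact absurd (swap_apply_of_ne_of_ne hxu hxv) hx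
          rcases h3 with ⟨rfl, rfl⟩ | ⟨rfl, rfl⟩
          · simp [hne']
          · simp [hne'.symm]
        · rw [if_neg h1]
          have h3 : ¬ (x = u ∧ y = v) := by
            rintro ⟨rfl, rfl⟩; exact h1 hs
          have h4 : ¬ (x = v ∧ y = u) := by
            rintro ⟨rfl, rfl⟩; exact h1 (by rw [Equiv.swap_comm]; exact hs)
          by_cases hxu : x = u
          · have : y ≠ v := fun h => h3 ⟨hxu, h⟩
            subst hxu
            simp [this, hne']
          · by_cases hxv : x = v
            · have : y ≠ u := fun h => h4 ⟨hxv, h⟩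
              subst hxv
              simp [this, hxu]
            · simp [hxu, hxv]
      · rw [if_neg hxy, zero_mul]
        have h3 : ¬ (x = u ∧ y = v) := by
          rintro ⟨rfl, rfl⟩; exact hxy huv
        have h4 : ¬ (x = v ∧ y = u) := by
          rintro ⟨rfl, rfl⟩; exact hxy huv.symm
        by_cases hxu : x = u
        · have : y ≠ v := fun h => h3 ⟨hxu, h⟩
          subst hxu
          simp [this, hne']
        · by_cases hxv : x = v
          · have : y ≠ u := fun h => h4 ⟨hxv, h⟩
            subst hxv
            simp [this, hxu]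
          · simp [hxu, hxv]
    simp only [key, Finset.sum_neg_distrib, Finset.sum_add_distrib]
    have e1 : ∀ a b : V, ∑ x, ∑ y, (if x = a then (if y = b then (1 : ℝ) else 0) else 0) = 1 := by
      intro a b
      rw [Finset.sum_eq_single a]
      · simp
      · intro c _ hc; simp [hc]
      · simp
    rw [e1, e1]; norm_num
  · have key : ∀ x y : V, (if G.Adj x y then (1 : ℝ) else 0) *
        (0 - if s' = swap x y * s then (1 : ℝ) else 0) = 0 := by
      intro x y
      by_cases hxy : G.Adj x y
      · have : ¬ s' = swap x y * s := fun h' => h ⟨x, y, hxy, h'⟩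
        simp [this]
      · simp [hxy]
    simp only [key, Finset.sum_const_zero, mul_zero, neg_zero]

/-- IP-G2: the interchange process of a graph in the form `Kt` -/
theorem ker_ip (G : SimpleGraph V) [DecidableRel G.Adj] (t : ℝ) :
    ∃ e : (V ≃ Fin (Fintype.card V)) ≃ Perm V,
      ∀ σ σ', ker (ip G) t σ σ' = Kt (srw G) t (e σ) (e σ') := by
  classical
  let e : (V ≃ Fin (Fintype.card V)) ≃ Perm V :=
    { toFun := fun σ => (Fintype.equivFin V).trans σ.symm
      invFun := fun p => p.symm.trans (Fintype.equivFin V)
      left_inv := fun σ => by ext x; simp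
      right_inv := fun p => by ext x; simp }
  have he : ∀ σ σ' : V ≃ Fin (Fintype.card V), ∀ u v : V,
      σ' = (swap u v).trans σ ↔ e σ' = swap u v * e σ := by
    intro σ σ' u v
    constructor
    · intro h
      subst h
      ext x
      simp [e, Perm.mul_apply]
    · intro h
      have h2 : e σ' = e ((swap u v).trans σ) := by
        rw [h]
        ext x
        simp [e, Perm.mul_apply]
      exact e.injective h2
  refine ⟨e, ?_⟩
  have hoff : ∀ σ σ' : V ≃ Fin (Fintype.card V), σ ≠ σ' →
      ip G σ σ' = - Am (srw G) (e σ) (e σ') := by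
    intro σ σ' hne
    rw [Am_off G (fun h => hne (e.injective h)), neg_neg]
    unfold ip
    simp only [he]
  have hgen : genM (ip G) = (-(Am (srw G))).submatrix e e := by
    ext σ σ'
    simp only [genM, Matrix.submatrix_apply, Matrix.neg_apply]
    by_cases h : σ = σ'
    · subst h
      rw [if_pos rfl, neg_inj]
      have h1 : ∑ z ∈ univ.erase σ, ip G σ z = ∑ z ∈ univ.erase σ, - Am (srw G) (e σ) (e z) := by
        apply Finset.sum_congr rfl
        intro z hz
        exact hoff σ z (Finset.ne_of_mem_erase hz).symm
      rw [h1, Finset.sum_neg_distrib]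
      have h2 : ∑ z, Am (srw G) (e σ) (e z) = 0 := by
        rw [Equiv.sum_comp e (fun s => Am (srw G) (e σ) s)]
        exact Am_row _ _
      rw [← Finset.add_sum_erase univ _ (Finset.mem_univ σ)] at h2
      linarith
    · rw [if_neg h, hoff σ σ' h]
  intro σ σ'
  unfold ker Kt
  rw [hgen]
  have h3 : t • (-(Am (srw G))).submatrix e e = (-(t • Am (srw G))).submatrix e e := by
    ext a b
    simp
  rw [h3, exp_submatrix_equiv]
  rfl

end Pool.Agent.Helper75.IP
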